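import Pool.Agent.Helper91.KF.F4

set_option autoImplicit false

/-!
The functional of the stability step: five roots `0..4` inducing the blocks of `D6` without
index `5`, two further vertices `5`, `6` with their codes, and the multilinear extension
(thinned samples).
-/

namespace KT

open Finset KF

/-- Blocks of the design on natural numbers. -/
def dd (i j k : ℕ) : Bool :=
  !(i == j) && !(i == k) && !(j == k) &&
    ([7, 11, 21, 41, 49, 38, 26, 50, 28, 44] : List ℕ).contains (2 ^ i + 2 ^ j + 2 ^ k)

/-- Class of a ten bit link (pair `a < b` of roots is bit `b (b - 1) / 2 + a`), `6` if the link is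
not the link of a class. -/
def cde (l : ℕ) : ℕ :=
  if l = 276 then 0 else if l = 522 then 1 else if l = 577 then 2 else if l = 385 then 3
  else if l = 50 then 4 else if l = 236 then 5 else 6

/-- A pair with codes `i j` is wrong at root `k` if the bit is `b`. -/
def wrg (i j k : ℕ) (b : Bool) : Bool := !(k == i && k == j) && (b != dd k i j)

/-- Number of roots where a pair with codes `i j` and root bits `t` is wrong. -/
def nwr (i j t : ℕ) : ℕ :=
  (List.range 5).countP (fun k => wrg i j k (t.testBit k))

/-- Value of the functional on codes `i j` (at most `6`) and root bits `t`. -/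
noncomputable def gT (a lam c : ℝ) (i j t : ℕ) : ℝ :=
  (if i < 6 ∧ j < 6 then (if 1 ≤ nwr i j t then 1 else 0) + a * (if nwr i j t = 1 then 1 else 0)
    else 0) + lam * (if i = 6 then 1 else 0) - c

/-- The functional on masks of seven vertices. -/
noncomputable def FT (a lam c : ℝ) (m : ℕ) : ℝ :=
  if m % 2 ^ 10 = 803 then
    gT a lam c (cde (m / 2 ^ 10 % 2 ^ 10)) (cde (m / 2 ^ 20 % 2 ^ 10)) (m / 2 ^ 30 % 2 ^ 5)
  else 0

/-- Probability of a bit. -/
def qb (p : ℝ) (b : Bool) : ℝ := if b = true then p else 1 - p

/-- Multilinear extension of a function of `n` bits. -/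
noncomputable def Th {n : ℕ} (p : Fin n → ℝ) (f : ℕ → ℝ) : ℝ :=
  ∑ s : Fin n → Bool, (∏ e, qb (p e) (s e)) * f (Nat.ofBits s)

/-- Edge probabilities of the thinned sample. -/
noncomputable def pe {V : Type} (E : V → V → V → Bool) (t : ℝ) (φ : Fin 7 → V) (e : Fin 35) : ℝ :=
  t * b2r (E (φ (T0 e)) (φ (T1 e)) (φ (T2 e)))

end KT
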