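import Pool.Agent.Helper20.KT.Defs

set_option autoImplicit false

/-!
Multilinear extension: splitting of the bits and marks.
-/

namespace KT

open Finset KF

theorem qb_nonneg {p : ℝ} (h0 : 0 ≤ p) (h1 : p ≤ 1) (b : Bool) : 0 ≤ qb p b := by
  unfold qb; split <;> linarith

theorem qb_le_one {p : ℝ} (h0 : 0 ≤ p) (h1 : p ≤ 1) (b : Bool) : qb p b ≤ 1 := by
  unfold qb; split <;> linarith

theorem qb_sum (p : ℝ) : ∑ b : Bool, qb p b = 1 := by
  simp [qb]

theorem tb_nonneg {t : ℝ} (h0 : 0 ≤ t) (b : Bool) : 0 ≤ t * b2r b :=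
  mul_nonneg h0 (b2r_nonneg b)

theorem tb_le_one {t : ℝ} (h0 : 0 ≤ t) (h1 : t ≤ 1) (b : Bool) : t * b2r b ≤ 1 := by
  have := b2r_le_one b
  have h2 := b2r_nonneg b
  nlinarith

/-- Product of indicators. -/
theorem prod_ite_zero' {n : ℕ} (c : Fin n → Prop) [DecidablePred c] (v : Fin n → ℝ) :
    ∏ e, (if c e then v e else 0) = if ∀ e, c e then ∏ e, v e else 0 := by
  by_cases h : ∀ e, c e
  · rw [if_pos h]
    exact Finset.prod_congr rfl fun e _ => if_pos (h e)
  · rw [if_neg h]
    push Not at h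
    obtain ⟨e, he⟩ := h
    exact Finset.prod_eq_zero (Finset.mem_univ e) (if_neg he)

/-- The total mass of product weights. -/
theorem sum_prod_qb {n : ℕ} (p : Fin n → ℝ) : ∑ s : Fin n → Bool, ∏ e, qb (p e) (s e) = 1 := by
  have h := Finset.prod_univ_sum (fun _ : Fin n => (Finset.univ : Finset Bool))
    (fun e b => qb (p e) b)
  rw [Fintype.piFinset_univ] at h
  rw [← h]
  exact Finset.prod_eq_one fun e _ => qb_sum _

/-- The law of a thinned bit string. -/
theorem law {n : ℕ} (t : ℝ) (B : Fin n → Bool) (f : (Fin n → Bool) → ℝ) :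
    ∑ s : Fin n → Bool, (∏ e, qb (t * b2r (B e)) (s e)) * f s =
      ∑ ξ : Fin n → Bool, (∏ e, qb t (ξ e)) * f (fun e => B e && ξ e) := by
  have h1 : ∀ ξ : Fin n → Bool, (∏ e, qb t (ξ e)) * f (fun e => B e && ξ e) =
      ∑ s : Fin n → Bool, (if ∀ e, (B e && ξ e) = s e then ∏ e, qb t (ξ e) else 0) * f s := by
    intro ξ
    rw [Finset.sum_eq_single (fun e => B e && ξ e)]
    · rw [if_pos (fun e => rfl)]
    · intro s _ hs
      rw [if_neg, zero_mul]
      intro h
      exact hs (funext fun e => (h e).symm)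
    · intro h
      exact absurd (Finset.mem_univ _) h
  simp only [h1]
  rw [Finset.sum_comm]
  refine Finset.sum_congr rfl fun s _ => ?_
  rw [← Finset.sum_mul]
  congr 1
  have h := Finset.prod_univ_sum (fun _ : Fin n => (Finset.univ : Finset Bool))
    (fun e b => if (B e && b) = s e then qb t b else 0)
  rw [Fintype.piFinset_univ] at h
  have h2 : ∀ ξ : Fin n → Bool, (if ∀ e, (B e && ξ e) = s e then ∏ e, qb t (ξ e) else 0) =
      ∏ e, (if (B e && ξ e) = s e then qb t (ξ e) else 0) := fun ξ =>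
    (prod_ite_zero' (fun e => (B e && ξ e) = s e) (fun e => qb t (ξ e))).symm
  simp only [h2]
  rw [← h]
  refine Finset.prod_congr rfl fun e _ => ?_
  rw [Fintype.sum_bool]
  cases hB : B e <;> cases hs : s e <;> simp [qb, b2r]

/-- A product weight at one string. -/
theorem sum_single {n : ℕ} (p : Fin n → ℝ) (s0 : Fin n → Bool) (m : ℕ)
    (hm : Nat.ofBits s0 = m) (f : (Fin n → Bool) → ℝ) :
    ∑ s : Fin n → Bool, (∏ e, qb (p e) (s e)) * (if Nat.ofBits s = m then f s else 0) =
      (∏ e, qb (p e) (s0 e)) * f s0 := by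
  rw [Finset.sum_eq_single s0]
  · rw [if_pos hm]
  · intro s _ hs
    rw [if_neg, mul_zero]
    intro h
    apply hs
    funext e
    have h1 := Nat.testBit_ofBits_lt s e.1 e.2
    have h2 := Nat.testBit_ofBits_lt s0 e.1 e.2
    rw [h, ← hm, h2] at h1
    exact h1.symm
  · intro h
    exact absurd (Finset.mem_univ _) h

/-- Splitting the bits. -/
theorem Th_add (a b : ℕ) (p : Fin (a + b) → ℝ) (f : ℕ → ℝ) :
    Th p f = ∑ s1 : Fin a → Bool, (∏ e, qb (p (Fin.castAdd b e)) (s1 e)) *
      Th (fun e => p (Fin.natAdd a e)) (fun m => f (Nat.ofBits s1 + 2 ^ a * m)) := by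
  unfold Th
  rw [← Equiv.sum_comp (Fin.appendEquiv a b), Fintype.sum_prod_type]
  refine Finset.sum_congr rfl fun s1 _ => ?_
  rw [Finset.mul_sum]
  refine Finset.sum_congr rfl fun s2 _ => ?_
  have h : Fin.appendEquiv a b (s1, s2) = Fin.append s1 s2 := rfl
  rw [h, Fin.prod_univ_add, ofBits_cat]
  simp only [Fin.append_left, Fin.append_right]
  ring

end KT
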