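import Pool.Agent.Helper20.KT.T1

set_option autoImplicit false

/-!
Products over the triples of five roots, of roots with one vertex, of roots with a pair, and the
disintegration of the thinned sample of seven vertices.
-/

namespace KT

open Finset KF

/-- Pairs of roots in colex order. -/
def pa : Fin 10 → Fin 5 := ![0, 0, 1, 0, 1, 2, 0, 1, 2, 3]
def pb : Fin 10 → Fin 5 := ![1, 2, 2, 3, 3, 3, 4, 4, 4, 4]
/-- Triples of roots in colex order. -/
def ta : Fin 10 → Fin 5 := ![0, 0, 0, 1, 0, 0, 1, 0, 1, 2]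
def tb : Fin 10 → Fin 5 := ![1, 1, 2, 2, 1, 2, 2, 3, 3, 3]
def tc : Fin 10 → Fin 5 := ![2, 3, 3, 3, 4, 4, 4, 4, 4, 4]

/-- A root as a class. -/
def rc (l : Fin 5) : Fin 6 := ⟨l.1, by omega⟩

theorem cpat_bits (i : Fin 6) : Nat.ofBits (fun e : Fin 10 => D6 i (rc (pa e)) (rc (pb e))) =
    (![276, 522, 577, 385, 50, 236] : Fin 6 → ℕ) i := by
  revert i; decide

theorem tau_bits : Nat.ofBits (fun e : Fin 10 => D6 (rc (ta e)) (rc (tb e)) (rc (tc e))) = 803 := by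
  decide

theorem cde_eq_iff (l : ℕ) (i : Fin 6) :
    cde l = i.1 ↔ l = (![276, 522, 577, 385, 50, 236] : Fin 6 → ℕ) i := by
  unfold cde
  fin_cases i <;> simp <;> (repeat' split) <;> omega

theorem cde_le (l : ℕ) : cde l ≤ 6 := by
  unfold cde
  repeat' split
  all_goals omega

section
variable {V : Type} (E : V → V → V → Bool) (t : ℝ)

/-- Edge probability. -/
noncomputable def P (x y z : V) : ℝ := t * b2r (E x y z)

/-- Probability that the roots induce the right blocks. -/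
noncomputable def A (ρ : Fin 5 → V) : ℝ :=
  ∏ e : Fin 10, qb (P E t (ρ (ta e)) (ρ (tb e)) (ρ (tc e))) (D6 (rc (ta e)) (rc (tb e)) (rc (tc e)))

/-- Probability that the link of `x` is the link of class `i`. -/
noncomputable def Q (ρ : Fin 5 → V) (i : Fin 6) (x : V) : ℝ :=
  ∏ e : Fin 10, qb (P E t x (ρ (pa e)) (ρ (pb e))) (D6 i (rc (pa e)) (rc (pb e)))

/-- Probability that a pair is right at all roots. -/
noncomputable def R (ρ : Fin 5 → V) (i j : Fin 6) (x y : V) : ℝ :=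
  ∏ l : Fin 5, if rc l = i ∧ rc l = j then 1 else qb (P E t y x (ρ l)) (D6 j i (rc l))

/-- Thinned link. -/
def lk (ρ : Fin 5 → V) (x : V × (Fin 10 → Bool)) : Fin 10 → Bool :=
  fun e => E x.1 (ρ (pa e)) (ρ (pb e)) && x.2 e

/-- Class. -/
def kap (ρ : Fin 5 → V) (x : V × (Fin 10 → Bool)) : ℕ := cde (Nat.ofBits (lk E ρ x))

/-- Weights of the marked vertices. -/
noncomputable def wh (w : V → ℝ) (x : V × (Fin 10 → Bool)) : ℝ := w x.1 * ∏ e, qb t (x.2 e)

variable {E t}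

theorem P_nonneg (h0 : 0 ≤ t) (x y z : V) : 0 ≤ P E t x y z := tb_nonneg h0 _
theorem P_le_one (h0 : 0 ≤ t) (h1 : t ≤ 1) (x y z : V) : P E t x y z ≤ 1 := tb_le_one h0 h1 _

theorem A_nonneg (h0 : 0 ≤ t) (h1 : t ≤ 1) (ρ : Fin 5 → V) : 0 ≤ A E t ρ :=
  Finset.prod_nonneg fun _ _ => qb_nonneg (P_nonneg h0 _ _ _) (P_le_one h0 h1 _ _ _) _

theorem Q_nonneg (h0 : 0 ≤ t) (h1 : t ≤ 1) (ρ : Fin 5 → V) (i : Fin 6) (x : V) :
    0 ≤ Q E t ρ i x :=
  Finset.prod_nonneg fun _ _ => qb_nonneg (P_nonneg h0 _ _ _) (P_le_one h0 h1 _ _ _) _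

theorem R_nonneg (h0 : 0 ≤ t) (h1 : t ≤ 1) (ρ : Fin 5 → V) (i j : Fin 6) (x y : V) :
    0 ≤ R E t ρ i j x y := by
  refine Finset.prod_nonneg fun l _ => ?_
  split
  · exact zero_le_one
  · exact qb_nonneg (P_nonneg h0 _ _ _) (P_le_one h0 h1 _ _ _) _

theorem R_le_one (h0 : 0 ≤ t) (h1 : t ≤ 1) (ρ : Fin 5 → V) (i j : Fin 6) (x y : V) :
    R E t ρ i j x y ≤ 1 := by
  refine Finset.prod_le_one (fun l _ => ?_) (fun l _ => ?_)
  · split
    · exact zero_le_one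
    · exact qb_nonneg (P_nonneg h0 _ _ _) (P_le_one h0 h1 _ _ _) _
  · split
    · exact le_rfl
    · exact qb_le_one (P_nonneg h0 _ _ _) (P_le_one h0 h1 _ _ _) _

theorem wh_sum [Fintype V] {w : V → ℝ} (hw : ∑ v, w v = 1) : ∑ x, wh t w x = 1 := by
  unfold wh
  rw [Fintype.sum_prod_type]
  have : ∀ x : V, ∑ ξ : Fin 10 → Bool, w x * ∏ e, qb t (ξ e) = w x := by
    intro x
    rw [← Finset.mul_sum, sum_prod_qb (fun _ : Fin 10 => t), mul_one]
  simp only [this, hw]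

/-- Sum over the marked vertices of a class. -/
theorem sum_cls [Fintype V] (w : V → ℝ) (ρ : Fin 5 → V) (i : Fin 6) (G : V → ℝ) :
    ∑ x, wh t w x * ((if kap E ρ x = i.1 then 1 else 0) * G x.1) =
      ∑ x, w x * (Q E t ρ i x * G x) := by
  rw [Fintype.sum_prod_type]
  refine Finset.sum_congr rfl fun x _ => ?_
  have h := law t (fun e => E x (ρ (pa e)) (ρ (pb e)))
    (fun s : Fin 10 → Bool => if Nat.ofBits s = (![276, 522, 577, 385, 50, 236] : Fin 6 → ℕ) i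
      then G x else 0)
  rw [sum_single _ (fun e : Fin 10 => D6 i (rc (pa e)) (rc (pb e))) _ (cpat_bits i)
    (fun _ => G x)] at h
  unfold Q P
  rw [h, Finset.mul_sum]
  refine Finset.sum_congr rfl fun ξ _ => ?_
  unfold wh kap lk
  by_cases hc : Nat.ofBits (fun e => E x (ρ (pa e)) (ρ (pb e)) && ξ e) =
      (![276, 522, 577, 385, 50, 236] : Fin 6 → ℕ) i
  · rw [if_pos ((cde_eq_iff _ i).2 hc), if_pos hc]
    ring
  · rw [if_neg (fun h2 => hc ((cde_eq_iff _ i).1 h2)), if_neg hc]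
    ring

end

end KT
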