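import Pool.Agent.Helper20.KT.T2

set_option autoImplicit false

/-!
Exchange of a root with a vertex of its class.
-/

namespace KT

open Finset KF

theorem prod_pairs (f : Fin 5 → Fin 5 → ℝ) (hf : ∀ a b, f a b = f b a) (i : Fin 5) :
    ∏ e : Fin 10, f (pa e) (pb e) = (∏ l : Fin 5, if l = i then 1 else f i l) *
      ∏ e : Fin 10, if pa e = i ∨ pb e = i then 1 else f (pa e) (pb e) := by
  fin_cases i <;>
    simp only [Fin.prod_univ_succ, pa, pb, Fin.prod_univ_zero, mul_one] <;>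
    simp <;>
    first
      | ring1
      | (rw [hf 1 0]; ring1)
      | (rw [hf 2 0, hf 2 1]; ring1)
      | (rw [hf 3 0, hf 3 1, hf 3 2]; ring1)
      | (rw [hf 4 0, hf 4 1, hf 4 2, hf 4 3]; ring1)

theorem prod_triples (g : Fin 5 → Fin 5 → Fin 5 → ℝ) (h1 : ∀ a b c, g a b c = g b a c)
    (h2 : ∀ a b c, g a b c = g a c b) (i : Fin 5) :
    ∏ e : Fin 10, g (ta e) (tb e) (tc e) =
      (∏ e : Fin 10, if pa e = i ∨ pb e = i then 1 else g i (pa e) (pb e)) *
      ∏ e : Fin 10, if ta e = i ∨ tb e = i ∨ tc e = i then 1 else g (ta e) (tb e) (tc e) := by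
  have h3 : ∀ a b c, g c a b = g a b c := fun a b c => by rw [h1, h2]
  fin_cases i <;>
    simp only [Fin.prod_univ_succ, pa, pb, ta, tb, tc, Fin.prod_univ_zero, mul_one] <;>
    simp <;>
    first
      | ring1
      | (rw [h1 1 0 2, h1 1 0 3, h1 1 0 4]; ring1)
      | (rw [h3 0 1 2, h1 2 0 3, h1 2 0 4, h1 2 1 3, h1 2 1 4]; ring1)
      | (rw [h3 0 1 3, h3 0 2 3, h3 1 2 3, h1 3 0 4, h1 3 1 4, h1 3 2 4]; ring1)
      | (rw [h3 0 1 4, h3 0 2 4, h3 1 2 4, h3 0 3 4, h3 1 3 4, h3 2 3 4]; ring1)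

section
variable {V : Type} (E : V → V → V → Bool) (t : ℝ)

/-- Part of the root product containing root `i`, with `v` in the place of root `i`. -/
noncomputable def Ai (ρ : Fin 5 → V) (i : Fin 5) (v : V) : ℝ :=
  ∏ e : Fin 10, if pa e = i ∨ pb e = i then 1 else
    qb (P E t v (ρ (pa e)) (ρ (pb e))) (D6 (rc i) (rc (pa e)) (rc (pb e)))

/-- Part of the root product without root `i`. -/
noncomputable def A0 (ρ : Fin 5 → V) (i : Fin 5) : ℝ :=
  ∏ e : Fin 10, if ta e = i ∨ tb e = i ∨ tc e = i then 1 else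
    qb (P E t (ρ (ta e)) (ρ (tb e)) (ρ (tc e))) (D6 (rc (ta e)) (rc (tb e)) (rc (tc e)))

/-- Part of the link product without root `i`. -/
noncomputable def Q0 (ρ : Fin 5 → V) (i : Fin 5) (c : Fin 6) (x : V) : ℝ :=
  ∏ e : Fin 10, if pa e = i ∨ pb e = i then 1 else
    qb (P E t x (ρ (pa e)) (ρ (pb e))) (D6 c (rc (pa e)) (rc (pb e)))

/-- Part of the link product containing root `i`, with `v` in the place of root `i`. -/
noncomputable def Qi (ρ : Fin 5 → V) (i : Fin 5) (c : Fin 6) (x v : V) : ℝ :=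
  ∏ l : Fin 5, if l = i then 1 else qb (P E t x v (ρ l)) (D6 c (rc i) (rc l))

variable {E t}

theorem P_symm1 (hE : K4m E) (x y z : V) : P E t x y z = P E t y x z := by
  unfold P; rw [hE.s12]

theorem P_symm2 (hE : K4m E) (x y z : V) : P E t x y z = P E t x z y := by
  unfold P; rw [hE.s23]

theorem A_split (hE : K4m E) (ρ : Fin 5 → V) (i : Fin 5) :
    A E t ρ = Ai E t ρ i (ρ i) * A0 E t ρ i := by
  unfold A Ai A0
  exact prod_triples (fun a b c => qb (P E t (ρ a) (ρ b) (ρ c)) (D6 (rc a) (rc b) (rc c)))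
    (fun a b c => by rw [P_symm1 hE, D6_K4m.s12]) (fun a b c => by rw [P_symm2 hE, D6_K4m.s23]) i

theorem Q_split (hE : K4m E) (ρ : Fin 5 → V) (i : Fin 5) (c : Fin 6) (x : V) :
    Q E t ρ c x = Qi E t ρ i c x (ρ i) * Q0 E t ρ i c x := by
  unfold Q Qi Q0
  exact prod_pairs (fun a b => qb (P E t x (ρ a) (ρ b)) (D6 c (rc a) (rc b)))
    (fun a b => by rw [P_symm2 hE, D6_K4m.s23]) i

theorem up_ne {ρ : Fin 5 → V} {i l : Fin 5} (x : V) (h : l ≠ i) :
    Function.update ρ i x l = ρ l := Function.update_of_ne h _ _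

theorem Ai_update (ρ : Fin 5 → V) (i : Fin 5) (x v : V) :
    Ai E t (Function.update ρ i x) i v = Ai E t ρ i v := by
  unfold Ai
  refine Finset.prod_congr rfl fun e _ => ?_
  by_cases h : pa e = i ∨ pb e = i
  · rw [if_pos h, if_pos h]
  · rw [if_neg h, if_neg h]
    push Not at h
    rw [up_ne x h.1, up_ne x h.2]

theorem A0_update (ρ : Fin 5 → V) (i : Fin 5) (x : V) :
    A0 E t (Function.update ρ i x) i = A0 E t ρ i := by
  unfold A0
  refine Finset.prod_congr rfl fun e _ => ?_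
  by_cases h : ta e = i ∨ tb e = i ∨ tc e = i
  · rw [if_pos h, if_pos h]
  · rw [if_neg h, if_neg h]
    push Not at h
    rw [up_ne x h.1, up_ne x h.2.1, up_ne x h.2.2]

theorem Q0_update (ρ : Fin 5 → V) (i : Fin 5) (x : V) (c : Fin 6) (y : V) :
    Q0 E t (Function.update ρ i x) i c y = Q0 E t ρ i c y := by
  unfold Q0
  refine Finset.prod_congr rfl fun e _ => ?_
  by_cases h : pa e = i ∨ pb e = i
  · rw [if_pos h, if_pos h]
  · rw [if_neg h, if_neg h]
    push Not at h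
    rw [up_ne x h.1, up_ne x h.2]

theorem Qi_update (ρ : Fin 5 → V) (i : Fin 5) (x : V) (c : Fin 6) (y v : V) :
    Qi E t (Function.update ρ i x) i c y v = Qi E t ρ i c y v := by
  unfold Qi
  refine Finset.prod_congr rfl fun l _ => ?_
  by_cases h : l = i
  · rw [if_pos h, if_pos h]
  · rw [if_neg h, if_neg h, up_ne x h]

theorem prod_ite_nonneg {n : ℕ} (c : Fin n → Prop) [DecidablePred c] (v : Fin n → ℝ)
    (h : ∀ e, 0 ≤ v e) : 0 ≤ ∏ e, (if c e then 1 else v e) :=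
  Finset.prod_nonneg fun e _ => by split; exacts [zero_le_one, h e]

theorem prod_ite_le_one {n : ℕ} (c : Fin n → Prop) [DecidablePred c] (v : Fin n → ℝ)
    (h : ∀ e, 0 ≤ v e) (h1 : ∀ e, v e ≤ 1) : ∏ e, (if c e then 1 else v e) ≤ 1 :=
  Finset.prod_le_one (fun e _ => by split; exacts [zero_le_one, h e])
    (fun e _ => by split; exacts [le_rfl, h1 e])

/-- A product of numbers in the unit interval is at most a factor. -/
theorem prod_le_factor {n : ℕ} (v : Fin n → ℝ) (h : ∀ e, 0 ≤ v e) (h1 : ∀ e, v e ≤ 1)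
    (e0 : Fin n) : ∏ e, v e ≤ v e0 := by
  rw [← Finset.mul_prod_erase _ _ (Finset.mem_univ e0)]
  exact mul_le_of_le_one_right (h e0) (Finset.prod_le_one (fun e _ => h e) (fun e _ => h1 e))

variable (h0 : 0 ≤ t) (h1 : t ≤ 1)
include h0 h1

theorem qP_nonneg (x y z : V) (b : Bool) : 0 ≤ qb (P E t x y z) b :=
  qb_nonneg (P_nonneg h0 _ _ _) (P_le_one h0 h1 _ _ _) _

theorem qP_le_one (x y z : V) (b : Bool) : qb (P E t x y z) b ≤ 1 :=
  qb_le_one (P_nonneg h0 _ _ _) (P_le_one h0 h1 _ _ _) _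

theorem Ai_nonneg (ρ : Fin 5 → V) (i : Fin 5) (v : V) : 0 ≤ Ai E t ρ i v :=
  prod_ite_nonneg _ _ fun _ => qP_nonneg h0 h1 _ _ _ _

theorem A0_nonneg (ρ : Fin 5 → V) (i : Fin 5) : 0 ≤ A0 E t ρ i :=
  prod_ite_nonneg _ _ fun _ => qP_nonneg h0 h1 _ _ _ _

theorem Q0_nonneg (ρ : Fin 5 → V) (i : Fin 5) (c : Fin 6) (x : V) : 0 ≤ Q0 E t ρ i c x :=
  prod_ite_nonneg _ _ fun _ => qP_nonneg h0 h1 _ _ _ _

theorem Qi_nonneg (ρ : Fin 5 → V) (i : Fin 5) (c : Fin 6) (x v : V) : 0 ≤ Qi E t ρ i c x v :=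
  prod_ite_nonneg _ _ fun _ => qP_nonneg h0 h1 _ _ _ _

theorem Qi_le_one (ρ : Fin 5 → V) (i : Fin 5) (c : Fin 6) (x v : V) : Qi E t ρ i c x v ≤ 1 :=
  prod_ite_le_one _ _ (fun _ => qP_nonneg h0 h1 _ _ _ _) (fun _ => qP_le_one h0 h1 _ _ _ _)

theorem Ai_le (ρ : Fin 5 → V) (i : Fin 5) (v : V) (e0 : Fin 10) (ha : pa e0 ≠ i)
    (hb : pb e0 ≠ i) (hd : D6 (rc i) (rc (pa e0)) (rc (pb e0)) = true) :
    Ai E t ρ i v ≤ P E t v (ρ (pa e0)) (ρ (pb e0)) := by
  refine (prod_le_factor _ (fun e => ?_) (fun e => ?_) e0).trans_eq ?_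
  · split
    · exact zero_le_one
    · exact qP_nonneg h0 h1 _ _ _ _
  · split
    · exact le_rfl
    · exact qP_le_one h0 h1 _ _ _ _
  · rw [if_neg (not_or.2 ⟨ha, hb⟩), hd]
    unfold qb
    rw [if_pos rfl]

/-- The product over the roots other than `i` in the pair product. -/
theorem R_le_Qi (ρ : Fin 5 → V) (i : Fin 5) (j : Fin 6) (hj : rc i ≠ j) (x u y : V) :
    R E t (Function.update ρ i x) (rc i) j u y ≤ Qi E t ρ i j y u := by
  unfold R Qi
  refine Finset.prod_le_prod (fun l _ => ?_) (fun l _ => ?_)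
  · split
    · exact zero_le_one
    · exact qP_nonneg h0 h1 _ _ _ _
  · by_cases hl : l = i
    · rw [if_pos hl]
      split
      · exact le_rfl
      · exact qP_le_one h0 h1 _ _ _ _
    · rw [if_neg hl, up_ne x hl, if_neg]
      intro h
      exact hj (h.1.symm.trans h.2)

end

/-- The probability that a pair is right at all roots except `i`. -/
noncomputable def Rx {V : Type} (E : V → V → V → Bool) (t : ℝ) (ρ : Fin 5 → V) (i : Fin 5)
    (j k : Fin 6) (y z : V) : ℝ :=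
  ∏ l : Fin 5, if l = i then 1 else qb (P E t z y (ρ l)) (D6 k j (rc l))

theorem Rx_nonneg {V : Type} {E : V → V → V → Bool} {t : ℝ} (h0 : 0 ≤ t) (h1 : t ≤ 1)
    (ρ : Fin 5 → V) (i : Fin 5) (j k : Fin 6) (y z : V) : 0 ≤ Rx E t ρ i j k y z :=
  prod_ite_nonneg _ _ fun _ => qP_nonneg h0 h1 _ _ _ _

/-- Pointwise form of the exchange. -/
theorem pt_le {V : Type} {E : V → V → V → Bool} {t : ℝ} (hE : K4m E) (h0 : 0 ≤ t) (h1 : t ≤ 1)
    (ρ : Fin 5 → V) (i : Fin 5) {j k : Fin 6} (hj : rc i ≠ j) (hk : rc i ≠ k) (hjk : j ≠ k)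
    (e0 : Fin 10) (ha : pa e0 ≠ i) (hb : pb e0 ≠ i)
    (hd : D6 (rc i) (rc (pa e0)) (rc (pb e0)) = true) (x y z : V) :
    A E t (Function.update ρ i x) * (Q E t (Function.update ρ i x) (rc i) (ρ i) *
      (Q E t (Function.update ρ i x) j y * (Q E t (Function.update ρ i x) k z *
      ((1 - b2r (E (ρ i) y z)) * (R E t (Function.update ρ i x) (rc i) j (ρ i) y *
      (R E t (Function.update ρ i x) (rc i) k (ρ i) z *
      R E t (Function.update ρ i x) j k y z)))))) ≤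
    P E t x (ρ (pa e0)) (ρ (pb e0)) * (A E t ρ * (Q E t ρ j y * (Q E t ρ k z *
      ((1 - P E t (ρ i) y z) * Rx E t ρ i j k y z)))) := by
  set ρ' := Function.update ρ i x with hρ'
  have hii : ρ' i = x := by rw [hρ']; exact Function.update_self _ _ _
  rw [A_split hE ρ' i, Q_split hE ρ' i (rc i) (ρ i), Q_split hE ρ' i j y, Q_split hE ρ' i k z,
    A_split hE ρ i, Q_split hE ρ i j y, Q_split hE ρ i k z, hii]
  rw [hρ', Ai_update, A0_update, Qi_update, Q0_update, Qi_update, Q0_update, Qi_update, Q0_update]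
  have e1 : Q0 E t ρ i (rc i) (ρ i) = Ai E t ρ i (ρ i) := rfl
  rw [e1]
  have a1 := Ai_le (E := E) h0 h1 ρ i x e0 ha hb hd
  have a2 := Qi_le_one (E := E) h0 h1 ρ i (rc i) (ρ i) x
  have a3 := Qi_le_one (E := E) h0 h1 ρ i j y x
  have a4 := Qi_le_one (E := E) h0 h1 ρ i k z x
  have a5 : 1 - b2r (E (ρ i) y z) ≤ 1 - P E t (ρ i) y z := by
    unfold P
    have := b2r_nonneg (E (ρ i) y z)
    nlinarith
  have a6 := R_le_Qi (E := E) h0 h1 ρ i j hj x (ρ i) y
  have a7 := R_le_Qi (E := E) h0 h1 ρ i k hk x (ρ i) z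
  have a8 : R E t (Function.update ρ i x) j k y z ≤ Rx E t ρ i j k y z := by
    unfold R Rx
    refine Finset.prod_le_prod (fun l _ => ?_) (fun l _ => ?_)
    · split
      · exact zero_le_one
      · exact qP_nonneg h0 h1 _ _ _ _
    · by_cases hl : l = i
      · rw [if_pos hl]
        split
        · exact le_rfl
        · exact qP_le_one h0 h1 _ _ _ _
      · rw [if_neg hl, up_ne x hl, if_neg]
        intro h
        exact hjk (h.1.symm.trans h.2)
  have n1 := Ai_nonneg (E := E) h0 h1 ρ i x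
  have n2 := Qi_nonneg (E := E) h0 h1 ρ i (rc i) (ρ i) x
  have n3 := Qi_nonneg (E := E) h0 h1 ρ i j y x
  have n4 := Qi_nonneg (E := E) h0 h1 ρ i k z x
  have n5 : 0 ≤ 1 - b2r (E (ρ i) y z) := by linarith [b2r_le_one (E (ρ i) y z)]
  have n6 := R_nonneg (E := E) h0 h1 (Function.update ρ i x) (rc i) j (ρ i) y
  have n7 := R_nonneg (E := E) h0 h1 (Function.update ρ i x) (rc i) k (ρ i) z
  have n8 := R_nonneg (E := E) h0 h1 (Function.update ρ i x) j k y z
  have m1 := P_nonneg (E := E) h0 x (ρ (pa e0)) (ρ (pb e0))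
  have b1 := A0_nonneg (E := E) h0 h1 ρ i
  have b2 := Ai_nonneg (E := E) h0 h1 ρ i (ρ i)
  have b3 := Q0_nonneg (E := E) h0 h1 ρ i j y
  have b4 := Q0_nonneg (E := E) h0 h1 ρ i k z
  have c6 := Qi_nonneg (E := E) h0 h1 ρ i j y (ρ i)
  have c7 := Qi_nonneg (E := E) h0 h1 ρ i k z (ρ i)
  have c8 := Rx_nonneg (E := E) h0 h1 ρ i j k y z
  have m5 : 0 ≤ 1 - P E t (ρ i) y z := n5.trans a5
  calc _ = (A0 E t ρ i * Ai E t ρ i (ρ i) * Q0 E t ρ i j y * Q0 E t ρ i k z) *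
        (Ai E t ρ i x * (Qi E t ρ i (rc i) (ρ i) x * (Qi E t ρ i j y x * (Qi E t ρ i k z x *
        ((1 - b2r (E (ρ i) y z)) * (R E t (Function.update ρ i x) (rc i) j (ρ i) y *
        (R E t (Function.update ρ i x) (rc i) k (ρ i) z *
        R E t (Function.update ρ i x) j k y z))))))) := by ring
    _ ≤ (A0 E t ρ i * Ai E t ρ i (ρ i) * Q0 E t ρ i j y * Q0 E t ρ i k z) *
        (P E t x (ρ (pa e0)) (ρ (pb e0)) * (1 * (1 * (1 *
        ((1 - P E t (ρ i) y z) * (Qi E t ρ i j y (ρ i) *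
        (Qi E t ρ i k z (ρ i) * Rx E t ρ i j k y z))))))) := by
        refine mul_le_mul_of_nonneg_left ?_ (by positivity)
        gcongr
    _ = _ := by ring

end KT
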