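import Pool.Agent.Helper20.KT.T3
import Pool.Agent.Helper85.KV.A1

set_option autoImplicit false

/-!
The exchange inequality in expectation.
-/

namespace KT

open Finset KF

section
variable {V : Type} [Fintype V]

theorem cod_symm {E : V → V → V → Bool} (hE : K4m E) (w : V → ℝ) (x y : V) :
    cod E w x y = cod E w y x := by
  unfold cod
  exact Finset.sum_congr rfl fun z _ => by rw [hE.s12]

theorem cod_self {E : V → V → V → Bool} (hE : K4m E) (w : V → ℝ) (x : V) : cod E w x x = 0 := by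
  unfold cod
  refine Finset.sum_eq_zero fun z _ => ?_
  rw [hE.irr]
  simp [b2r]

/-- The codegree is at most twice the density. -/
theorem cod_le_two {E : V → V → V → Bool} {w : V → ℝ} (ho : Opt E w) (x y : V) :
    cod E w x y ≤ 2 * dens E w := by
  have h := ineqHA ho (![x, y] : Fin 2 → V) (![1, 1] : Fin 2 → ℝ)
  simp only [Fin.sum_univ_two, Matrix.cons_val_zero, Matrix.cons_val_one] at h
  rw [cod_self ho.free, cod_self ho.free, cod_symm ho.free w y x] at h
  linarith

theorem cod_nonneg' {E : V → V → V → Bool} {w : V → ℝ} (hw : ∀ v, 0 ≤ w v) (x y : V) :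
    0 ≤ cod E w x y :=
  Finset.sum_nonneg fun z _ => mul_nonneg (hw z) (b2r_nonneg _)

/-- Exchange of root `i` with the extra vertex. -/
theorem exch (w : V → ℝ) (i : Fin 5) (G : (Fin 5 → V) → V → ℝ) :
    Ev 5 w (fun ρ => ∑ x, w x * G ρ x) =
      Ev 5 w (fun ρ => ∑ x, w x * G (Function.update ρ i x) (ρ i)) := by
  have key : ∀ H : (Fin 5 → V) → V → ℝ, Ev 5 w (fun ρ => ∑ x, w x * H ρ x) =
      ∑ p : (Fin 5 → V) × V, (∏ l, w (p.1 l)) * w p.2 * H p.1 p.2 := by
    intro H
    unfold Ev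
    rw [Fintype.sum_prod_type]
    refine Finset.sum_congr rfl fun ρ _ => ?_
    rw [Finset.mul_sum]
    exact Finset.sum_congr rfl fun x _ => by ring
  rw [key G, key (fun ρ x => G (Function.update ρ i x) (ρ i))]
  have hinv : Function.Involutive (fun p : (Fin 5 → V) × V =>
      ((Function.update p.1 i p.2, p.1 i) : (Fin 5 → V) × V)) := by
    intro p
    refine Prod.ext ?_ ?_
    · simp
    · simp
  rw [← Equiv.sum_comp (Function.Involutive.toPerm _ hinv)]
  refine Finset.sum_congr rfl fun p _ => ?_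
  have e1 : (Function.Involutive.toPerm _ hinv) p = (Function.update p.1 i p.2, p.1 i) := rfl
  rw [e1]
  have e2 : ∏ l, w (Function.update p.1 i p.2 l) = w p.2 * ∏ l ∈ Finset.univ.erase i, w (p.1 l) := by
    rw [← Finset.mul_prod_erase _ _ (Finset.mem_univ i), Function.update_self]
    congr 1
    refine Finset.prod_congr rfl fun l hl => ?_
    rw [Function.update_of_ne (Finset.ne_of_mem_erase hl)]
  have e3 : ∏ l, w (p.1 l) = w (p.1 i) * ∏ l ∈ Finset.univ.erase i, w (p.1 l) :=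
    (Finset.mul_prod_erase _ _ (Finset.mem_univ i)).symm
  beta_reduce
  rw [e2, e3]
  ring

variable (E : V → V → V → Bool) (t : ℝ) (w : V → ℝ)

/-- Integrand of missing triples with right pairs, classes `i j k`. -/
noncomputable def GM (ρ : Fin 5 → V) (i j k : Fin 6) (x y z : V) : ℝ :=
  Q E t ρ i x * (Q E t ρ j y * (Q E t ρ k z * ((1 - b2r (E x y z)) *
    (R E t ρ i j x y * (R E t ρ i k x z * R E t ρ j k y z)))))

/-- Integrand of pairs missing exactly at root `i`, classes `j k`. -/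
noncomputable def G1 (ρ : Fin 5 → V) (i : Fin 5) (j k : Fin 6) (y z : V) : ℝ :=
  Q E t ρ j y * (Q E t ρ k z * ((1 - P E t (ρ i) y z) * Rx E t ρ i j k y z))

variable {E t w}

theorem pair_exists : ∀ i : Fin 5, ∃ e : Fin 10, pa e ≠ i ∧ pb e ≠ i ∧
    D6 (rc i) (rc (pa e)) (rc (pb e)) = true := by decide

/-- The exchange inequality. -/
theorem exch_le (ho : Opt E w) (h0 : 0 ≤ t) (h1 : t ≤ 1) (i : Fin 5) {j k : Fin 6}
    (hj : rc i ≠ j) (hk : rc i ≠ k) (hjk : j ≠ k) :
    Ev 5 w (fun ρ => A E t ρ * ∑ x, w x * ∑ y, w y * ∑ z, w z * GM E t ρ (rc i) j k x y z) ≤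
      t * (2 * dens E w) *
        Ev 5 w (fun ρ => A E t ρ * ∑ y, w y * ∑ z, w z * G1 E t ρ i j k y z) := by
  obtain ⟨e0, ha, hb, hd⟩ := pair_exists i
  have s1 : Ev 5 w (fun ρ => A E t ρ * ∑ x, w x * ∑ y, w y * ∑ z, w z *
      GM E t ρ (rc i) j k x y z) = Ev 5 w (fun ρ => ∑ x, w x * (∑ y, w y * ∑ z, w z *
      (A E t ρ * GM E t ρ (rc i) j k x y z))) := by
    refine Ev_congr 5 w fun ρ => ?_
    rw [Finset.mul_sum]
    refine Finset.sum_congr rfl fun x _ => ?_
    rw [mul_left_comm, Finset.mul_sum]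
    congr 1
    refine Finset.sum_congr rfl fun y _ => ?_
    rw [mul_left_comm, Finset.mul_sum]
    congr 1
    exact Finset.sum_congr rfl fun z _ => by ring
  rw [s1, exch w i, ← Ev_mul]
  refine Ev_mono 5 w ho.wt.nn fun ρ => ?_
  have hyz : ∀ x : V, ∑ y, w y * ∑ z, w z * (A E t (Function.update ρ i x) *
      GM E t (Function.update ρ i x) (rc i) j k (ρ i) y z) ≤
      P E t x (ρ (pa e0)) (ρ (pb e0)) * (A E t ρ * ∑ y, w y * ∑ z, w z * G1 E t ρ i j k y z) := by
    intro x
    rw [Finset.mul_sum, Finset.mul_sum]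
    refine Finset.sum_le_sum fun y _ => ?_
    rw [Finset.mul_sum, Finset.mul_sum, Finset.mul_sum, Finset.mul_sum]
    refine Finset.sum_le_sum fun z _ => ?_
    have h := pt_le ho.free h0 h1 ρ i hj hk hjk e0 ha hb hd x y z
    unfold GM G1
    calc w y * (w z * (A E t (Function.update ρ i x) * _)) = (w y * w z) *
          (A E t (Function.update ρ i x) * _) := by ring
      _ ≤ (w y * w z) * _ := mul_le_mul_of_nonneg_left h (mul_nonneg (ho.wt.nn y) (ho.wt.nn z))
      _ = _ := by ring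
  have hG : 0 ≤ A E t ρ * ∑ y, w y * ∑ z, w z * G1 E t ρ i j k y z := by
    refine mul_nonneg (A_nonneg h0 h1 ρ) (Finset.sum_nonneg fun y _ =>
      mul_nonneg (ho.wt.nn y) (Finset.sum_nonneg fun z _ => mul_nonneg (ho.wt.nn z) ?_))
    have := P_le_one (E := E) h0 h1 (ρ i) y z
    exact mul_nonneg (Q_nonneg h0 h1 ρ j y) (mul_nonneg (Q_nonneg h0 h1 ρ k z)
      (mul_nonneg (by linarith) (Rx_nonneg h0 h1 ρ i j k y z)))
  calc ∑ x, w x * ∑ y, w y * ∑ z, w z * (A E t (Function.update ρ i x) *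
      GM E t (Function.update ρ i x) (rc i) j k (ρ i) y z)
      ≤ ∑ x, w x * (P E t x (ρ (pa e0)) (ρ (pb e0)) *
        (A E t ρ * ∑ y, w y * ∑ z, w z * G1 E t ρ i j k y z)) :=
        Finset.sum_le_sum fun x _ => mul_le_mul_of_nonneg_left (hyz x) (ho.wt.nn x)
    _ = t * cod E w (ρ (pa e0)) (ρ (pb e0)) *
        (A E t ρ * ∑ y, w y * ∑ z, w z * G1 E t ρ i j k y z) := by
        unfold cod P
        generalize A E t ρ * ∑ y, w y * ∑ z, w z * G1 E t ρ i j k y z = S
        rw [Finset.mul_sum, Finset.sum_mul]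
        refine Finset.sum_congr rfl fun x _ => ?_
        rw [ho.free.s23 (ρ (pa e0)) (ρ (pb e0)) x, ho.free.s12 (ρ (pa e0)) x (ρ (pb e0))]
        ring
    _ ≤ t * (2 * dens E w) * (A E t ρ * ∑ y, w y * ∑ z, w z * G1 E t ρ i j k y z) := by
        refine mul_le_mul_of_nonneg_right (mul_le_mul_of_nonneg_left (cod_le_two ho _ _) h0) hG

end

end KT
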