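import Pool.Agent.Helper20.KT.T4

set_option autoImplicit false

/-!
Disintegration of the thinned sample.
-/

namespace KT

open Finset KF

theorem T_root : ∀ e : Fin 10, T0 (Fin.castAdd 25 e) = Fin.castAdd 2 (ta e) ∧
    T1 (Fin.castAdd 25 e) = Fin.castAdd 2 (tb e) ∧ T2 (Fin.castAdd 25 e) = Fin.castAdd 2 (tc e) := by
  decide

theorem T_x : ∀ e : Fin 10, T0 (Fin.natAdd 10 (Fin.castAdd 15 e)) = Fin.castAdd 2 (pa e) ∧
    T1 (Fin.natAdd 10 (Fin.castAdd 15 e)) = Fin.castAdd 2 (pb e) ∧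
    T2 (Fin.natAdd 10 (Fin.castAdd 15 e)) = Fin.natAdd 5 (0 : Fin 2) := by
  decide

theorem T_y : ∀ e : Fin 10, T0 (Fin.natAdd 10 (Fin.natAdd 10 (Fin.castAdd 5 e))) =
      Fin.castAdd 2 (pa e) ∧
    T1 (Fin.natAdd 10 (Fin.natAdd 10 (Fin.castAdd 5 e))) = Fin.castAdd 2 (pb e) ∧
    T2 (Fin.natAdd 10 (Fin.natAdd 10 (Fin.castAdd 5 e))) = Fin.natAdd 5 (1 : Fin 2) := by
  decide

theorem T_xy : ∀ l : Fin 5, T0 (Fin.natAdd 10 (Fin.natAdd 10 (Fin.natAdd 10 l))) =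
      Fin.castAdd 2 l ∧
    T1 (Fin.natAdd 10 (Fin.natAdd 10 (Fin.natAdd 10 l))) = Fin.natAdd 5 (0 : Fin 2) ∧
    T2 (Fin.natAdd 10 (Fin.natAdd 10 (Fin.natAdd 10 l))) = Fin.natAdd 5 (1 : Fin 2) := by
  decide

section
variable {V : Type} (E : V → V → V → Bool) (t : ℝ)

/-- Conditional value of the functional for codes `i j` and the pair `x y`. -/
noncomputable def Kf (g : ℕ → ℕ → ℕ → ℝ) (ρ : Fin 5 → V) (i j : ℕ) (x y : V) : ℝ :=
  ∑ s : Fin 5 → Bool, (∏ l, qb (P E t (ρ l) x y) (s l)) * g i j (Nat.ofBits s)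

/-- A functional of the root part, the two codes and the root bits. -/
def FG (g : ℕ → ℕ → ℕ → ℝ) (m : ℕ) : ℝ :=
  if m % 2 ^ 10 = 803 then
    g (cde (m / 2 ^ 10 % 2 ^ 10)) (cde (m / 2 ^ 20 % 2 ^ 10)) (m / 2 ^ 30 % 2 ^ 5)
  else 0

theorem FG_cat (g : ℕ → ℕ → ℕ → ℝ) (a b c d : ℕ) (ha : a < 2 ^ 10) (hb : b < 2 ^ 10)
    (hc : c < 2 ^ 10) (hd : d < 2 ^ 5) :
    FG g (a + 2 ^ 10 * (b + 2 ^ 10 * (c + 2 ^ 10 * d))) =
      if a = 803 then g (cde b) (cde c) d else 0 := by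
  unfold FG
  have h1 : (a + 2 ^ 10 * (b + 2 ^ 10 * (c + 2 ^ 10 * d))) % 2 ^ 10 = a := by omega
  have h2 : (a + 2 ^ 10 * (b + 2 ^ 10 * (c + 2 ^ 10 * d))) / 2 ^ 10 % 2 ^ 10 = b := by omega
  have h3 : (a + 2 ^ 10 * (b + 2 ^ 10 * (c + 2 ^ 10 * d))) / 2 ^ 20 % 2 ^ 10 = c := by omega
  have h4 : (a + 2 ^ 10 * (b + 2 ^ 10 * (c + 2 ^ 10 * d))) / 2 ^ 30 % 2 ^ 5 = d := by omega
  rw [h1, h2, h3, h4]

variable {E t}

/-- The thinned value for fixed vertices. -/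
theorem Th_FG (hE : K4m E) (g : ℕ → ℕ → ℕ → ℝ) (ρ : Fin 5 → V) (ψ : Fin 2 → V) :
    Th (pe E t (Fin.append ρ ψ : Fin 7 → V)) (FG g) = A E t ρ *
      ∑ s2 : Fin 10 → Bool, (∏ e, qb t (s2 e)) * ∑ s3 : Fin 10 → Bool, (∏ e, qb t (s3 e)) *
        Kf E t g ρ (kap E ρ (ψ 0, s2)) (kap E ρ (ψ 1, s3)) (ψ 0) (ψ 1) := by
  have r0 : ∀ e : Fin 10, pe E t (Fin.append ρ ψ : Fin 7 → V) (Fin.castAdd 25 e) =
      P E t (ρ (ta e)) (ρ (tb e)) (ρ (tc e)) := by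
    intro e
    unfold pe P
    rw [(T_root e).1, (T_root e).2.1, (T_root e).2.2]
    change t * b2r (E (Fin.append ρ ψ (Fin.castAdd 2 (ta e))) (Fin.append ρ ψ (Fin.castAdd 2 (tb e)))
      (Fin.append ρ ψ (Fin.castAdd 2 (tc e)))) = _
    rw [Fin.append_left, Fin.append_left, Fin.append_left]
  have r1 : ∀ e : Fin 10, pe E t (Fin.append ρ ψ : Fin 7 → V)
      (Fin.natAdd 10 (Fin.castAdd 15 e)) = t * b2r (E (ψ 0) (ρ (pa e)) (ρ (pb e))) := by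
    intro e
    unfold pe
    rw [(T_x e).1, (T_x e).2.1, (T_x e).2.2]
    change t * b2r (E (Fin.append ρ ψ (Fin.castAdd 2 (pa e))) (Fin.append ρ ψ (Fin.castAdd 2 (pb e)))
      (Fin.append ρ ψ (Fin.natAdd 5 (0 : Fin 2)))) = _
    rw [Fin.append_left, Fin.append_left, Fin.append_right, hE.s23, hE.s12]
  have r2 : ∀ e : Fin 10, pe E t (Fin.append ρ ψ : Fin 7 → V)
      (Fin.natAdd 10 (Fin.natAdd 10 (Fin.castAdd 5 e))) =
      t * b2r (E (ψ 1) (ρ (pa e)) (ρ (pb e))) := by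
    intro e
    unfold pe
    rw [(T_y e).1, (T_y e).2.1, (T_y e).2.2]
    change t * b2r (E (Fin.append ρ ψ (Fin.castAdd 2 (pa e))) (Fin.append ρ ψ (Fin.castAdd 2 (pb e)))
      (Fin.append ρ ψ (Fin.natAdd 5 (1 : Fin 2)))) = _
    rw [Fin.append_left, Fin.append_left, Fin.append_right, hE.s23, hE.s12]
  have r3 : ∀ l : Fin 5, pe E t (Fin.append ρ ψ : Fin 7 → V)
      (Fin.natAdd 10 (Fin.natAdd 10 (Fin.natAdd 10 l))) = P E t (ρ l) (ψ 0) (ψ 1) := by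
    intro l
    unfold pe P
    rw [(T_xy l).1, (T_xy l).2.1, (T_xy l).2.2]
    change t * b2r (E (Fin.append ρ ψ (Fin.castAdd 2 l)) (Fin.append ρ ψ (Fin.natAdd 5 (0 : Fin 2)))
      (Fin.append ρ ψ (Fin.natAdd 5 (1 : Fin 2)))) = _
    rw [Fin.append_left, Fin.append_right, Fin.append_right]
  have h1 := Th_add 10 25 (pe E t (Fin.append ρ ψ : Fin 7 → V)) (FG g)
  have h2 : ∀ s1 : Fin 10 → Bool, Th (fun e => pe E t (Fin.append ρ ψ : Fin 7 → V)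
      (Fin.natAdd 10 e : Fin (10 + 25))) (fun m => FG g (Nat.ofBits s1 + 2 ^ 10 * m)) =
      (if Nat.ofBits s1 = 803 then ∑ s2 : Fin 10 → Bool, (∏ e, qb t (s2 e)) *
        ∑ s3 : Fin 10 → Bool, (∏ e, qb t (s3 e)) *
        Kf E t g ρ (kap E ρ (ψ 0, s2)) (kap E ρ (ψ 1, s3)) (ψ 0) (ψ 1) else 0) := by
    intro s1
    have h3 := Th_add 10 15 (fun e => pe E t (Fin.append ρ ψ : Fin 7 → V)
      (Fin.natAdd 10 e : Fin (10 + 25))) (fun m => FG g (Nat.ofBits s1 + 2 ^ 10 * m))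
    refine h3.trans ?_
    have h4 : ∀ s2 : Fin 10 → Bool, Th (fun e => pe E t (Fin.append ρ ψ : Fin 7 → V)
        (Fin.natAdd 10 (Fin.natAdd 10 e : Fin (10 + 15)) : Fin (10 + 25)))
        (fun m => FG g (Nat.ofBits s1 + 2 ^ 10 * (Nat.ofBits s2 + 2 ^ 10 * m))) =
        (if Nat.ofBits s1 = 803 then ∑ s3 : Fin 10 → Bool, (∏ e, qb t (s3 e)) *
          Kf E t g ρ (cde (Nat.ofBits s2)) (kap E ρ (ψ 1, s3)) (ψ 0) (ψ 1) else 0) := by
      intro s2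
      have h5 := Th_add 10 5 (fun e => pe E t (Fin.append ρ ψ : Fin 7 → V)
        (Fin.natAdd 10 (Fin.natAdd 10 e : Fin (10 + 15)) : Fin (10 + 25)))
        (fun m => FG g (Nat.ofBits s1 + 2 ^ 10 * (Nat.ofBits s2 + 2 ^ 10 * m)))
      refine h5.trans ?_
      simp only [r2]
      have h6 := law t (fun e => E (ψ 1) (ρ (pa e)) (ρ (pb e))) (fun s3 : Fin 10 → Bool =>
        Th (fun e => pe E t (Fin.append ρ ψ : Fin 7 → V) (Fin.natAdd 10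
        (Fin.natAdd 10 (Fin.natAdd 10 e : Fin (10 + 5)) : Fin (10 + 15)) : Fin (10 + 25)))
        (fun m => FG g (Nat.ofBits s1 + 2 ^ 10 * (Nat.ofBits s2 + 2 ^ 10 *
          (Nat.ofBits s3 + 2 ^ 10 * m)))))
      refine h6.trans ?_
      have h7 : ∀ s3 : Fin 10 → Bool, Th (fun e => pe E t (Fin.append ρ ψ : Fin 7 → V)
        (Fin.natAdd 10 (Fin.natAdd 10 (Fin.natAdd 10 e : Fin (10 + 5)) : Fin (10 + 15)) :
          Fin (10 + 25)))
        (fun m => FG g (Nat.ofBits s1 + 2 ^ 10 * (Nat.ofBits s2 + 2 ^ 10 *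
          (Nat.ofBits s3 + 2 ^ 10 * m)))) = (if Nat.ofBits s1 = 803 then
          Kf E t g ρ (cde (Nat.ofBits s2)) (cde (Nat.ofBits s3)) (ψ 0) (ψ 1) else 0) := by
        intro s3
        unfold Th Kf
        by_cases hc : Nat.ofBits s1 = 803
        · rw [if_pos hc]
          refine Finset.sum_congr rfl fun s4 _ => ?_
          beta_reduce
          rw [FG_cat g _ _ _ _ (Nat.ofBits_lt_two_pow _) (Nat.ofBits_lt_two_pow _)
            (Nat.ofBits_lt_two_pow _) (Nat.ofBits_lt_two_pow _), if_pos hc]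
          simp only [r3]
        · rw [if_neg hc]
          refine Finset.sum_eq_zero fun s4 _ => ?_
          beta_reduce
          rw [FG_cat g _ _ _ _ (Nat.ofBits_lt_two_pow _) (Nat.ofBits_lt_two_pow _)
            (Nat.ofBits_lt_two_pow _) (Nat.ofBits_lt_two_pow _), if_neg hc, mul_zero]
      simp only [h7]
      by_cases hc : Nat.ofBits s1 = 803
      · simp only [if_pos hc]
        rfl
      · simp only [if_neg hc, mul_zero, Finset.sum_const_zero]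
    simp only [h4, r1]
    have h8 := law t (fun e => E (ψ 0) (ρ (pa e)) (ρ (pb e))) (fun s2 : Fin 10 → Bool =>
      (if Nat.ofBits s1 = 803 then ∑ s3 : Fin 10 → Bool, (∏ e, qb t (s3 e)) *
          Kf E t g ρ (cde (Nat.ofBits s2)) (kap E ρ (ψ 1, s3)) (ψ 0) (ψ 1) else 0))
    refine h8.trans ?_
    by_cases hc : Nat.ofBits s1 = 803
    · simp only [if_pos hc]
      rfl
    · simp only [if_neg hc, mul_zero, Finset.sum_const_zero]
  refine h1.trans ?_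
  simp only [h2, r0]
  have h9 := sum_single (fun e : Fin 10 => P E t (ρ (ta e)) (ρ (tb e)) (ρ (tc e)))
    (fun e : Fin 10 => D6 (rc (ta e)) (rc (tb e)) (rc (tc e))) 803 tau_bits
    (fun _ => ∑ s2 : Fin 10 → Bool, (∏ e, qb t (s2 e)) *
        ∑ s3 : Fin 10 → Bool, (∏ e, qb t (s3 e)) *
        Kf E t g ρ (kap E ρ (ψ 0, s2)) (kap E ρ (ψ 1, s3)) (ψ 0) (ψ 1))
  exact h9

/-- The thinned expectation of a functional. -/
theorem Ev_FG [Fintype V] (hE : K4m E) (w : V → ℝ) (g : ℕ → ℕ → ℕ → ℝ) :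
    Ev 7 w (fun φ => Th (pe E t φ) (FG g)) = Ev 5 w (fun ρ => A E t ρ *
      ∑ x, wh t w x * ∑ y, wh t w y * Kf E t g ρ (kap E ρ x) (kap E ρ y) x.1 y.1) := by
  rw [Ev_append 5 2 w]
  refine Ev_congr 5 w fun ρ => ?_
  have h1 : ∀ ψ : Fin 2 → V, Th (pe E t (Fin.append ρ ψ : Fin 7 → V)) (FG g) = A E t ρ *
      ∑ s2 : Fin 10 → Bool, (∏ e, qb t (s2 e)) * ∑ s3 : Fin 10 → Bool, (∏ e, qb t (s3 e)) *
        Kf E t g ρ (kap E ρ (ψ 0, s2)) (kap E ρ (ψ 1, s3)) (ψ 0) (ψ 1) := Th_FG hE g ρ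
  rw [Ev_congr 2 w h1]
  have h2 := Ev_two w (fun x y => A E t ρ *
      ∑ s2 : Fin 10 → Bool, (∏ e, qb t (s2 e)) * ∑ s3 : Fin 10 → Bool, (∏ e, qb t (s3 e)) *
        Kf E t g ρ (kap E ρ (x, s2)) (kap E ρ (y, s3)) x y)
  rw [h2]
  have h3 : ∀ (F : V × (Fin 10 → Bool) → ℝ), ∑ x, wh t w x * F x =
      ∑ v, w v * ∑ ξ : Fin 10 → Bool, (∏ e, qb t (ξ e)) * F (v, ξ) := by
    intro F
    rw [Fintype.sum_prod_type]
    refine Finset.sum_congr rfl fun v _ => ?_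
    rw [Finset.mul_sum]
    refine Finset.sum_congr rfl fun ξ _ => ?_
    unfold wh
    ring
  rw [h3]
  simp only [h3]
  rw [Finset.mul_sum]
  refine Finset.sum_congr rfl fun x _ => ?_
  have h4 : ∀ s2 : Fin 10 → Bool, (∏ e, qb t (s2 e)) * ∑ v, w v * ∑ ξ : Fin 10 → Bool,
      (∏ e, qb t (ξ e)) * Kf E t g ρ (kap E ρ (x, s2)) (kap E ρ (v, ξ)) x v =
      ∑ v, w v * ((∏ e, qb t (s2 e)) * ∑ ξ : Fin 10 → Bool,
      (∏ e, qb t (ξ e)) * Kf E t g ρ (kap E ρ (x, s2)) (kap E ρ (v, ξ)) x v) := by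
    intro s2
    rw [Finset.mul_sum]
    exact Finset.sum_congr rfl fun v _ => by ring
  simp only [h4]
  rw [Finset.sum_comm]
  simp only [← Finset.mul_sum]
  rw [Finset.mul_sum, Finset.mul_sum]
  refine Finset.sum_congr rfl fun y _ => ?_
  ring

end

end KT
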