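import Pool.Agent.Helper20.KT.T5

set_option autoImplicit false

/-!
Values of the functional: right pairs and pairs wrong at exactly one root.
-/

namespace KT

open Finset KF

/-- Sum over the strings with a coordinatewise condition. -/
theorem sum_cond {n : ℕ} (p : Fin n → ℝ) (c : Fin n → Bool → Prop) [∀ e b, Decidable (c e b)] :
    ∑ s : Fin n → Bool, (∏ e, qb (p e) (s e)) * (if ∀ e, c e (s e) then 1 else 0) =
      ∏ e, ∑ b : Bool, (if c e b then qb (p e) b else 0) := by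
  have h := Finset.prod_univ_sum (fun _ : Fin n => (Finset.univ : Finset Bool))
    (fun e b => if c e b then qb (p e) b else 0)
  rw [Fintype.piFinset_univ] at h
  rw [h]
  refine Finset.sum_congr rfl fun s _ => ?_
  rw [prod_ite_zero' (fun e => c e (s e)) (fun e => qb (p e) (s e))]
  split <;> simp

theorem nwr_zero : ∀ i j : Fin 6, ∀ s : Fin 5 → Bool, (nwr i.1 j.1 (Nat.ofBits s) = 0 ↔
    ∀ l : Fin 5, (rc l = i ∧ rc l = j) ∨ s l = D6 j i (rc l)) := by
  decide +kernel

/-- The string missing exactly at `l`. -/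
def flp (i j : Fin 6) (l : Fin 5) : Fin 5 → Bool := fun k => if k = l then false else D6 j i (rc k)

theorem nwr_one : ∀ i j : Fin 6, ∀ s : Fin 5 → Bool,
    (∑ l : Fin 5, if D6 (rc l) i j = true ∧ s = flp i j l then 1 else 0 : ℕ) ≤
      if nwr i.1 j.1 (Nat.ofBits s) = 1 then 1 else 0 := by
  decide +kernel

section
variable {V : Type} {E : V → V → V → Bool} {t : ℝ}

theorem right_sum (hE : K4m E) (ρ : Fin 5 → V) (i j : Fin 6) (x y : V) :
    ∑ s : Fin 5 → Bool, (∏ l, qb (P E t (ρ l) x y) (s l)) *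
      (if nwr i.1 j.1 (Nat.ofBits s) = 0 then 1 else 0) = R E t ρ i j x y := by
  have h := sum_cond (fun l => P E t (ρ l) x y)
    (fun (l : Fin 5) (b : Bool) => (rc l = i ∧ rc l = j) ∨ b = D6 j i (rc l))
  have h1 : ∀ s : Fin 5 → Bool, (∏ l, qb (P E t (ρ l) x y) (s l)) *
      (if nwr i.1 j.1 (Nat.ofBits s) = 0 then (1 : ℝ) else 0) =
      (∏ l, qb (P E t (ρ l) x y) (s l)) *
      (if ∀ l, (rc l = i ∧ rc l = j) ∨ s l = D6 j i (rc l) then (1 : ℝ) else 0) := by
    intro s
    congr 1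
    exact if_congr (nwr_zero i j s) rfl rfl
  rw [Finset.sum_congr rfl fun s _ => h1 s, h]
  unfold R
  refine Finset.prod_congr rfl fun l _ => ?_
  have e1 : P E t (ρ l) x y = P E t y x (ρ l) := by
    rw [P_symm1 hE, P_symm2 hE, P_symm1 hE]
  rw [e1]
  by_cases hc : rc l = i ∧ rc l = j
  · rw [if_pos hc, Fintype.sum_bool, if_pos (Or.inl hc), if_pos (Or.inl hc)]
    simp [qb]
  · rw [if_neg hc, Fintype.sum_bool]
    cases hd : D6 j i (rc l) <;> simp [hc]

theorem one_sum (hE : K4m E) (h0 : 0 ≤ t) (h1 : t ≤ 1) (ρ : Fin 5 → V) (i j : Fin 6) (x y : V) :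
    ∑ l : Fin 5, b2r (D6 (rc l) i j) * ((1 - P E t (ρ l) x y) * Rx E t ρ l i j x y) ≤
    ∑ s : Fin 5 → Bool, (∏ l, qb (P E t (ρ l) x y) (s l)) *
      (if nwr i.1 j.1 (Nat.ofBits s) = 1 then 1 else 0) := by
  have e0 : ∀ l : Fin 5, (1 - P E t (ρ l) x y) * Rx E t ρ l i j x y =
      ∏ k, qb (P E t (ρ k) x y) (flp i j l k) := by
    intro l
    unfold Rx
    rw [← Finset.mul_prod_erase _ _ (Finset.mem_univ l),
      ← Finset.mul_prod_erase (Finset.univ : Finset (Fin 5))
        (fun k => qb (P E t (ρ k) x y) (flp i j l k)) (Finset.mem_univ l)]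
    rw [if_pos rfl, one_mul]
    congr 1
    · unfold flp
      rw [if_pos rfl]
      simp [qb]
    · refine Finset.prod_congr rfl fun k hk => ?_
      have hkl := Finset.ne_of_mem_erase hk
      unfold flp
      rw [if_neg hkl, if_neg hkl]
      have e1 : P E t (ρ k) x y = P E t y x (ρ k) := by
        rw [P_symm1 hE, P_symm2 hE, P_symm1 hE]
      rw [e1]
  have e2 : ∀ l : Fin 5, b2r (D6 (rc l) i j) * ((1 - P E t (ρ l) x y) * Rx E t ρ l i j x y) =
      ∑ s : Fin 5 → Bool, (∏ k, qb (P E t (ρ k) x y) (s k)) *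
        (if D6 (rc l) i j = true ∧ s = flp i j l then (1 : ℝ) else 0) := by
    intro l
    rw [e0 l, Finset.sum_eq_single (flp i j l)]
    · by_cases hd : D6 (rc l) i j = true
      · rw [if_pos ⟨hd, rfl⟩, hd]
        unfold b2r
        rw [if_pos rfl]
        ring
      · rw [if_neg (fun h => hd h.1)]
        unfold b2r
        rw [if_neg hd]
        ring
    · intro s _ hs
      rw [if_neg (fun h => hs h.2), mul_zero]
    · intro h
      exact absurd (Finset.mem_univ _) h
  rw [Finset.sum_congr rfl fun l _ => e2 l, Finset.sum_comm]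
  refine Finset.sum_le_sum fun s _ => ?_
  rw [← Finset.mul_sum]
  refine mul_le_mul_of_nonneg_left ?_ (Finset.prod_nonneg fun k _ =>
    qb_nonneg (P_nonneg h0 _ _ _) (P_le_one h0 h1 _ _ _) _)
  have h := nwr_one i j s
  have h2 : ((∑ l : Fin 5, if D6 (rc l) i j = true ∧ s = flp i j l then 1 else 0 : ℕ) : ℝ) ≤
      ((if nwr i.1 j.1 (Nat.ofBits s) = 1 then 1 else 0 : ℕ) : ℝ) := Nat.cast_le.2 h
  push_cast at h2
  exact h2

/-- Conditional value of the functional, both coded. -/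
theorem Kf_ge (hE : K4m E) (h0 : 0 ≤ t) (h1 : t ≤ 1) {a lam c : ℝ} (ha : 0 ≤ a) (ρ : Fin 5 → V)
    (i j : Fin 6) (x y : V) :
    (1 - R E t ρ i j x y) + a * ∑ l : Fin 5, b2r (D6 (rc l) i j) *
      ((1 - P E t (ρ l) x y) * Rx E t ρ l i j x y) - c ≤
      Kf E t (gT a lam c) ρ i.1 j.1 x y := by
  have e1 : Kf E t (gT a lam c) ρ i.1 j.1 x y =
      (1 - R E t ρ i j x y) + a * (∑ s : Fin 5 → Bool, (∏ l, qb (P E t (ρ l) x y) (s l)) *
      (if nwr i.1 j.1 (Nat.ofBits s) = 1 then 1 else 0)) - c := by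
    unfold Kf
    have h2 : ∀ s : Fin 5 → Bool, (∏ l, qb (P E t (ρ l) x y) (s l)) *
        gT a lam c i.1 j.1 (Nat.ofBits s) = (∏ l, qb (P E t (ρ l) x y) (s l)) -
        (∏ l, qb (P E t (ρ l) x y) (s l)) *
          (if nwr i.1 j.1 (Nat.ofBits s) = 0 then 1 else 0) +
        a * ((∏ l, qb (P E t (ρ l) x y) (s l)) *
          (if nwr i.1 j.1 (Nat.ofBits s) = 1 then 1 else 0)) -
        c * (∏ l, qb (P E t (ρ l) x y) (s l)) := by
      intro s
      unfold gT
      rw [if_pos ⟨i.2, j.2⟩, if_neg (by have := i.2; omega : ¬ i.1 = 6)]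
      by_cases hz : nwr i.1 j.1 (Nat.ofBits s) = 0
      · rw [if_pos hz, hz]
        simp
        ring
      · rw [if_neg hz, if_pos (by omega : 1 ≤ nwr i.1 j.1 (Nat.ofBits s))]
        ring
    rw [Finset.sum_congr rfl fun s _ => h2 s, Finset.sum_sub_distrib, Finset.sum_add_distrib,
      Finset.sum_sub_distrib, ← Finset.mul_sum, ← Finset.mul_sum, sum_prod_qb, right_sum hE]
    ring
  rw [e1]
  have h2 := one_sum hE h0 h1 ρ i j x y
  have h3 := mul_le_mul_of_nonneg_left h2 ha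
  linarith

/-- Conditional value of the functional if one vertex has no code. -/
theorem Kf_unc {a lam c : ℝ} (ρ : Fin 5 → V) {i j : ℕ} (h : ¬ (i < 6 ∧ j < 6)) (x y : V) :
    Kf E t (gT a lam c) ρ i j x y = lam * (if i = 6 then 1 else 0) - c := by
  unfold Kf gT
  simp only [if_neg h, zero_add]
  rw [← Finset.sum_mul, sum_prod_qb, one_mul]

/-- The term of the uncoded vertices is nonnegative also for coded ones. -/
theorem gT_eq_FG (a lam c : ℝ) : FT a lam c = FG (gT a lam c) := rfl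

end

end KT
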