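import Pool.Agent.Helper20.KT.T6

set_option autoImplicit false

/-!
Missing triples with right pairs are bounded by the pairs wrong at exactly one root; choice of
the roots.
-/

namespace KT

open Finset KF

/-- Blocks on optional classes. -/
def dO (a b c : Option (Fin 6)) : Bool :=
  match a, b, c with
  | some i, some j, some k => D6 i j k
  | _, _, _ => false

/-- Neither a block nor inside a class, on optional classes. -/
def bO (a b c : Option (Fin 6)) : Bool :=
  match a, b, c with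
  | some i, some j, some k => !(D6 i j k) && !(decide (i = j) && decide (j = k))
  | _, _, _ => false

/-- Functions of optional classes vanishing on `none`. -/
def ex1 {α : Type} (f : Fin 6 → α → ℝ) (a : Option (Fin 6)) (x : α) : ℝ :=
  match a with
  | some i => f i x
  | none => 0

section
variable {V : Type} (E : V → V → V → Bool) (t : ℝ)

/-- The class of a marked vertex as an option. -/
def kO (ρ : Fin 5 → V) (x : V × (Fin 10 → Bool)) : Option (Fin 6) :=
  if h : kap E ρ x < 6 then some ⟨kap E ρ x, h⟩ else none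

variable {E t}

theorem kO_some {ρ : Fin 5 → V} {x : V × (Fin 10 → Bool)} {i : Fin 6} :
    kO E ρ x = some i ↔ kap E ρ x = i.1 := by
  unfold kO
  by_cases h : kap E ρ x < 6
  · rw [dif_pos h]
    constructor
    · intro h2
      have := Option.some.inj h2
      rw [← this]
    · intro h2
      congr 1
      exact Fin.ext h2
  · rw [dif_neg h]
    constructor
    · intro h2
      exact absurd h2 (by simp)
    · intro h2
      exact absurd (h2 ▸ i.2) h

theorem kO_none {ρ : Fin 5 → V} {x : V × (Fin 10 → Bool)} :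
    kO E ρ x = none ↔ kap E ρ x = 6 := by
  unfold kO
  have h6 : kap E ρ x ≤ 6 := cde_le _
  by_cases h : kap E ρ x < 6
  · rw [dif_pos h]
    constructor
    · intro h2
      exact absurd h2 (by simp)
    · intro h2
      omega
  · rw [dif_neg h]
    constructor
    · intro _
      omega
    · intro _
      rfl

/-- Sum over the marked vertices. -/
theorem sumO [Fintype V] (w : V → ℝ) (ρ : Fin 5 → V) (f : Fin 6 → V → ℝ) :
    ∑ x, wh t w x * ex1 f (kO E ρ x) x.1 = ∑ i, ∑ x, w x * (Q E t ρ i x * f i x) := by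
  have h1 : ∀ x : V × (Fin 10 → Bool), wh t w x * ex1 f (kO E ρ x) x.1 =
      ∑ i : Fin 6, wh t w x * ((if kap E ρ x = i.1 then 1 else 0) * f i x.1) := by
    intro x
    rw [← Finset.mul_sum]
    congr 1
    cases hk : kO E ρ x with
    | none =>
      have h2 := kO_none.1 hk
      symm
      refine Finset.sum_eq_zero fun i _ => ?_
      rw [if_neg (by have := i.2; omega), zero_mul]
    | some j =>
      have h2 := kO_some.1 hk
      rw [Finset.sum_eq_single j]
      · rw [if_pos h2, one_mul]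
        rfl
      · intro i _ hi
        rw [if_neg, zero_mul]
        intro h3
        exact hi (Fin.ext (h3.symm.trans h2))
      · intro h3
        exact absurd (Finset.mem_univ _) h3
  simp only [h1]
  rw [Finset.sum_comm]
  exact Finset.sum_congr rfl fun i _ => sum_cls w ρ i (f i)

theorem R_symm (hE : K4m E) (ρ : Fin 5 → V) (i j : Fin 6) (x y : V) :
    R E t ρ i j x y = R E t ρ j i y x := by
  unfold R
  refine Finset.prod_congr rfl fun l _ => ?_
  by_cases h : rc l = i ∧ rc l = j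
  · rw [if_pos h, if_pos ⟨h.2, h.1⟩]
  · rw [if_neg h, if_neg (fun h2 => h ⟨h2.2, h2.1⟩), P_symm1 hE y x, D6_K4m.s12 j i]

theorem GM_symm1 (hE : K4m E) (ρ : Fin 5 → V) (i j k : Fin 6) (x y z : V) :
    GM E t ρ j i k y x z = GM E t ρ i j k x y z := by
  unfold GM
  rw [R_symm hE ρ j i y x, hE.s12 y x z]
  ring

theorem GM_symm2 (hE : K4m E) (ρ : Fin 5 → V) (i j k : Fin 6) (x y z : V) :
    GM E t ρ i k j x z y = GM E t ρ i j k x y z := by
  unfold GM
  rw [R_symm hE ρ k j z y, hE.s23 x z y]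
  ring

theorem GM_nonneg (h0 : 0 ≤ t) (h1 : t ≤ 1) (ρ : Fin 5 → V) (i j k : Fin 6) (x y z : V) :
    0 ≤ GM E t ρ i j k x y z := by
  have hb := b2r_le_one (E x y z)
  exact mul_nonneg (Q_nonneg h0 h1 _ _ _) (mul_nonneg (Q_nonneg h0 h1 _ _ _)
    (mul_nonneg (Q_nonneg h0 h1 _ _ _) (mul_nonneg (by linarith)
    (mul_nonneg (R_nonneg h0 h1 _ _ _ _ _) (mul_nonneg (R_nonneg h0 h1 _ _ _ _ _)
    (R_nonneg h0 h1 _ _ _ _ _))))))

end

section
variable {V : Type} [Fintype V] (E : V → V → V → Bool) (t : ℝ) (w : V → ℝ)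

/-- Sum of the missing triples with right pairs for fixed classes. -/
noncomputable def S3 (ρ : Fin 5 → V) (i j k : Fin 6) : ℝ :=
  ∑ x, w x * ∑ y, w y * ∑ z, w z * GM E t ρ i j k x y z

/-- Missing block triples with right pairs. -/
noncomputable def MU0 (ρ : Fin 5 → V) : ℝ := ∑ i, ∑ j, ∑ k, b2r (D6 i j k) * S3 E t w ρ i j k

/-- Pairs wrong exactly at one root. -/
noncomputable def W1 (ρ : Fin 5 → V) : ℝ :=
  ∑ l : Fin 5, ∑ j, ∑ k, b2r (D6 (rc l) j k) * ∑ y, w y * ∑ z, w z * G1 E t ρ l j k y z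

variable {E t w}

theorem S3_symm1 (hE : K4m E) (ρ : Fin 5 → V) (i j k : Fin 6) :
    S3 E t w ρ j i k = S3 E t w ρ i j k := by
  unfold S3
  simp only [Finset.mul_sum]
  rw [Finset.sum_comm]
  refine Finset.sum_congr rfl fun x _ => Finset.sum_congr rfl fun y _ =>
    Finset.sum_congr rfl fun z _ => ?_
  rw [GM_symm1 hE]
  ring

theorem S3_symm2 (hE : K4m E) (ρ : Fin 5 → V) (i j k : Fin 6) :
    S3 E t w ρ i k j = S3 E t w ρ i j k := by
  unfold S3
  simp only [Finset.mul_sum]
  refine Finset.sum_congr rfl fun x _ => ?_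
  rw [Finset.sum_comm]
  refine Finset.sum_congr rfl fun y _ =>
    Finset.sum_congr rfl fun z _ => ?_
  rw [GM_symm2 hE]
  ring

theorem S3_nonneg (hw : ∀ v, 0 ≤ w v) (h0 : 0 ≤ t) (h1 : t ≤ 1) (ρ : Fin 5 → V)
    (i j k : Fin 6) : 0 ≤ S3 E t w ρ i j k :=
  Finset.sum_nonneg fun x _ => mul_nonneg (hw x) (Finset.sum_nonneg fun y _ =>
    mul_nonneg (hw y) (Finset.sum_nonneg fun z _ => mul_nonneg (hw z)
      (GM_nonneg h0 h1 _ _ _ _ _ _ _)))

theorem two_le : ∀ i j k : Fin 6, D6 i j k = true →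
    2 ≤ (if i = 5 then 0 else 1 : ℕ) + (if j = 5 then 0 else 1) + (if k = 5 then 0 else 1) := by
  decide

/-- Each block has at least two classes with a root. -/
theorem MU0_le (hE : K4m E) (hw : ∀ v, 0 ≤ w v) (h0 : 0 ≤ t) (h1 : t ≤ 1) (ρ : Fin 5 → V) :
    2 * MU0 E t w ρ ≤ 3 * ∑ l : Fin 5, ∑ j, ∑ k, b2r (D6 (rc l) j k) * S3 E t w ρ (rc l) j k := by
  set n : Fin 6 → ℝ := fun i => if i = 5 then 0 else 1 with hn
  set T : Fin 6 → Fin 6 → Fin 6 → ℝ := fun i j k => b2r (D6 i j k) * S3 E t w ρ i j k with hT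
  have t1 : ∀ i j k, T j i k = T i j k := by
    intro i j k
    rw [hT]
    beta_reduce
    rw [S3_symm1 hE, D6_K4m.s12]
  have t2 : ∀ i j k, T i k j = T i j k := by
    intro i j k
    rw [hT]
    beta_reduce
    rw [S3_symm2 hE, D6_K4m.s23]
  have hle : ∀ i j k, 2 * T i j k ≤ n i * T i j k + n j * T i j k + n k * T i j k := by
    intro i j k
    by_cases hd : D6 i j k = true
    · have h2 := two_le i j k hd
      have h3 : (2 : ℝ) ≤ n i + n j + n k := by
        rw [hn]
        have h4 : ((2 : ℕ) : ℝ) ≤ (((if i = 5 then 0 else 1 : ℕ) + (if j = 5 then 0 else 1) +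
          (if k = 5 then 0 else 1) : ℕ) : ℝ) := Nat.cast_le.2 h2
        push_cast at h4
        exact h4
      have h5 : 0 ≤ T i j k := mul_nonneg (b2r_nonneg _) (S3_nonneg hw h0 h1 ρ i j k)
      nlinarith
    · have : T i j k = 0 := by
        rw [hT]
        beta_reduce
        unfold b2r
        rw [if_neg hd, zero_mul]
      rw [this]
      simp
  have e0 : MU0 E t w ρ = ∑ i, ∑ j, ∑ k, T i j k := rfl
  have e1 : ∑ i, ∑ j, ∑ k, n j * T i j k = ∑ i, ∑ j, ∑ k, n i * T i j k := by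
    rw [Finset.sum_comm]
    refine Finset.sum_congr rfl fun i _ => Finset.sum_congr rfl fun j _ =>
      Finset.sum_congr rfl fun k _ => ?_
    rw [t1]
  have e2 : ∑ i, ∑ j, ∑ k, n k * T i j k = ∑ i, ∑ j, ∑ k, n j * T i j k := by
    refine Finset.sum_congr rfl fun i _ => ?_
    rw [Finset.sum_comm]
    refine Finset.sum_congr rfl fun j _ =>
      Finset.sum_congr rfl fun k _ => ?_
    rw [t2]
  have e3 : ∑ i, ∑ j, ∑ k, n i * T i j k =
      ∑ l : Fin 5, ∑ j, ∑ k, b2r (D6 (rc l) j k) * S3 E t w ρ (rc l) j k := by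
    rw [Fin.sum_univ_castSucc]
    have hl : n (Fin.last 5) = 0 := by
      rw [hn]
      exact if_pos rfl
    rw [hl]
    simp only [zero_mul, Finset.sum_const_zero, add_zero]
    refine Finset.sum_congr rfl fun l _ => ?_
    have hl2 : n l.castSucc = 1 := by
      rw [hn]
      beta_reduce
      rw [if_neg]
      intro h
      have := congrArg Fin.val h
      simp at this
      omega
    rw [hl2]
    simp only [one_mul]
    rfl
  rw [e0, Finset.mul_sum]
  calc ∑ i, 2 * ∑ j, ∑ k, T i j k = ∑ i, ∑ j, ∑ k, 2 * T i j k := by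
        simp only [Finset.mul_sum]
    _ ≤ ∑ i, ∑ j, ∑ k, (n i * T i j k + n j * T i j k + n k * T i j k) :=
        Finset.sum_le_sum fun i _ => Finset.sum_le_sum fun j _ => Finset.sum_le_sum fun k _ =>
          hle i j k
    _ = 3 * ∑ i, ∑ j, ∑ k, n i * T i j k := by
        simp only [Finset.sum_add_distrib]
        rw [e2, e1]
        ring
    _ = _ := by rw [e3]

/-- Missing triples with right pairs against pairs wrong at exactly one root. -/
theorem Ev_MU0_le (ho : Opt E w) (h0 : 0 ≤ t) (h1 : t ≤ 1) :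
    Ev 5 w (fun ρ => A E t ρ * MU0 E t w ρ) ≤
      3 * t * dens E w * Ev 5 w (fun ρ => A E t ρ * W1 E t w ρ) := by
  have s1 : Ev 5 w (fun ρ => A E t ρ * MU0 E t w ρ) ≤ Ev 5 w (fun ρ => (3 / 2) *
      ∑ l : Fin 5, ∑ j : Fin 6, ∑ k : Fin 6, b2r (D6 (rc l) j k) *
        (A E t ρ * S3 E t w ρ (rc l) j k)) := by
    refine Ev_mono 5 w ho.wt.nn fun ρ => ?_
    have h2 := MU0_le ho.free ho.wt.nn h0 h1 ρ
    have h3 := A_nonneg (E := E) h0 h1 ρ
    have h4 : ∑ l : Fin 5, ∑ j : Fin 6, ∑ k : Fin 6, b2r (D6 (rc l) j k) *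
        (A E t ρ * S3 E t w ρ (rc l) j k) = A E t ρ *
        ∑ l : Fin 5, ∑ j, ∑ k, b2r (D6 (rc l) j k) * S3 E t w ρ (rc l) j k := by
      simp only [Finset.mul_sum]
      exact Finset.sum_congr rfl fun l _ => Finset.sum_congr rfl fun j _ =>
        Finset.sum_congr rfl fun k _ => by ring
    rw [h4]
    nlinarith [mul_le_mul_of_nonneg_left h2 h3]
  refine s1.trans ?_
  rw [Ev_mul, Ev_sum]
  have s2 : ∀ l : Fin 5, Ev 5 w (fun ρ => ∑ j : Fin 6, ∑ k : Fin 6, b2r (D6 (rc l) j k) *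
      (A E t ρ * S3 E t w ρ (rc l) j k)) ≤ t * (2 * dens E w) *
      ∑ j : Fin 6, ∑ k : Fin 6, b2r (D6 (rc l) j k) *
        Ev 5 w (fun ρ => A E t ρ * ∑ y, w y * ∑ z, w z * G1 E t ρ l j k y z) := by
    intro l
    rw [Ev_sum, Finset.mul_sum]
    refine Finset.sum_le_sum fun j _ => ?_
    rw [Ev_sum, Finset.mul_sum]
    refine Finset.sum_le_sum fun k _ => ?_
    rw [Ev_mul]
    by_cases hd : D6 (rc l) j k = true
    · have hn : ∀ i j k : Fin 6, D6 i j k = true → i ≠ j ∧ i ≠ k ∧ j ≠ k := by decide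
      obtain ⟨a1, a2, a3⟩ := hn _ _ _ hd
      have h3 := exch_le ho h0 h1 l a1 a2 a3
      have h4 := mul_le_mul_of_nonneg_left h3 (b2r_nonneg (D6 (rc l) j k))
      refine (le_of_eq_of_le rfl h4).trans_eq ?_
      ring
    · unfold b2r
      rw [if_neg hd]
      simp
  have s3 : Ev 5 w (fun ρ => A E t ρ * W1 E t w ρ) = ∑ l : Fin 5, ∑ j : Fin 6, ∑ k : Fin 6,
      b2r (D6 (rc l) j k) *
        Ev 5 w (fun ρ => A E t ρ * ∑ y, w y * ∑ z, w z * G1 E t ρ l j k y z) := by
    have h5 : ∀ ρ : Fin 5 → V, A E t ρ * W1 E t w ρ = ∑ l : Fin 5, ∑ j : Fin 6, ∑ k : Fin 6,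
        b2r (D6 (rc l) j k) * (A E t ρ * ∑ y, w y * ∑ z, w z * G1 E t ρ l j k y z) := by
      intro ρ
      unfold W1
      simp only [Finset.mul_sum]
      exact Finset.sum_congr rfl fun l _ => Finset.sum_congr rfl fun j _ =>
        Finset.sum_congr rfl fun k _ => Finset.sum_congr rfl fun y _ =>
        Finset.sum_congr rfl fun z _ => by ring
    rw [Ev_congr 5 w h5, Ev_sum]
    refine Finset.sum_congr rfl fun l _ => ?_
    rw [Ev_sum]
    refine Finset.sum_congr rfl fun j _ => ?_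
    rw [Ev_sum]
    refine Finset.sum_congr rfl fun k _ => ?_
    rw [Ev_mul]
  rw [s3]
  have s4 := Finset.sum_le_sum fun l (_ : l ∈ (Finset.univ : Finset (Fin 5))) => s2 l
  rw [← Finset.mul_sum] at s4
  have s5 := mul_le_mul_of_nonneg_left s4 (by norm_num : (0 : ℝ) ≤ 3 / 2)
  refine s5.trans_eq ?_
  ring

end

end KT
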