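import Pool.Agent.Helper20.KT.T7

set_option autoImplicit false

/-!
From the thinned functional to a partial partition of a blow-up.
-/

namespace KT

open Finset KF

section
variable {V : Type} [Fintype V]

/-- Ordered measure of the missing block triples of a partial partition. -/
noncomputable def muO (E : V → V → V → Bool) (w : V → ℝ) (κ : V → Option (Fin 6)) : ℝ :=
  ∑ x, ∑ y, ∑ z, w x * w y * w z * (b2r (dO (κ x) (κ y) (κ z)) * (1 - b2r (E x y z)))

/-- Ordered measure of the bad triples of a partial partition. -/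
noncomputable def beO (E : V → V → V → Bool) (w : V → ℝ) (κ : V → Option (Fin 6)) : ℝ :=
  ∑ x, ∑ y, ∑ z, w x * w y * w z * (b2r (bO (κ x) (κ y) (κ z)) * b2r (E x y z))

/-- Measure of the unassigned vertices. -/
noncomputable def unO (w : V → ℝ) (κ : V → Option (Fin 6)) : ℝ :=
  ∑ x, w x * b2r (κ x).isNone

/-- Size of a class. -/
noncomputable def xsO (w : V → ℝ) (κ : V → Option (Fin 6)) (i : Fin 6) : ℝ :=
  ∑ x, w x * b2r (decide (κ x = some i))

end

/-- Pairs of codes: probability of being wrong. -/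
noncomputable def hW {V : Type} (E : V → V → V → Bool) (t : ℝ) (ρ : Fin 5 → V)
    (a b : Option (Fin 6)) (x y : V) : ℝ :=
  ex1 (fun i (p : V × V) => ex1 (fun j (q : V × V) => 1 - R E t ρ i j q.1 q.2) b p) a (x, y)

section
variable {V : Type} [Fintype V] {E : V → V → V → Bool} {t : ℝ} {w : V → ℝ}

/-- Measure of the wrong pairs. -/
noncomputable def Wh (E : V → V → V → Bool) (t : ℝ) (w : V → ℝ) (ρ : Fin 5 → V) : ℝ :=
  ∑ x, ∑ y, wh t w x * wh t w y * hW E t ρ (kO E ρ x) (kO E ρ y) x.1 y.1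

theorem wh_nonneg (hw : ∀ v, 0 ≤ w v) (h0 : 0 ≤ t) (h1 : t ≤ 1) (x : V × (Fin 10 → Bool)) :
    0 ≤ wh t w x :=
  mul_nonneg (hw _) (Finset.prod_nonneg fun _ _ => qb_nonneg h0 h1 _)

theorem hW_nonneg (h0 : 0 ≤ t) (h1 : t ≤ 1) (ρ : Fin 5 → V) (a b : Option (Fin 6)) (x y : V) :
    0 ≤ hW E t ρ a b x y := by
  unfold hW
  cases a with
  | none => exact le_rfl
  | some i =>
    cases b with
    | none => exact le_rfl
    | some j =>
      have := R_le_one (E := E) h0 h1 ρ i j x y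
      change 0 ≤ 1 - R E t ρ i j x y
      linarith

theorem Wh_nonneg (hw : ∀ v, 0 ≤ w v) (h0 : 0 ≤ t) (h1 : t ≤ 1) (ρ : Fin 5 → V) :
    0 ≤ Wh E t w ρ :=
  Finset.sum_nonneg fun x _ => Finset.sum_nonneg fun y _ => mul_nonneg
    (mul_nonneg (wh_nonneg hw h0 h1 x) (wh_nonneg hw h0 h1 y)) (hW_nonneg h0 h1 _ _ _ _ _)

/-- The conditional value of the functional is bounded below. -/
theorem S_ge (hE : K4m E) (hw : Wt w) (h0 : 0 ≤ t) (h1 : t ≤ 1) {a lam c : ℝ} (ha : 0 ≤ a)
    (ρ : Fin 5 → V) :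
    Wh E t w ρ + a * W1 E t w ρ + lam * unO (wh t w) (kO E ρ) - c ≤
      ∑ x, wh t w x * ∑ y, wh t w y *
        Kf E t (gT a lam c) ρ (kap E ρ x) (kap E ρ y) x.1 y.1 := by
  set h : Fin 6 → Fin 6 → V → V → ℝ := fun i j x y => ∑ l : Fin 5, b2r (D6 (rc l) i j) *
      ((1 - P E t (ρ l) x y) * Rx E t ρ l i j x y) with hh
  have hpt : ∀ x y : V × (Fin 10 → Bool), hW E t ρ (kO E ρ x) (kO E ρ y) x.1 y.1 +
      a * ex1 (fun i (p : V) => ex1 (fun j (q : V) => h i j p q) (kO E ρ y) y.1) (kO E ρ x) x.1 +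
      lam * b2r (kO E ρ x).isNone - c ≤
      Kf E t (gT a lam c) ρ (kap E ρ x) (kap E ρ y) x.1 y.1 := by
    intro x y
    cases hx : kO E ρ x with
    | none =>
      have h2 := kO_none.1 hx
      rw [Kf_unc ρ (by omega) x.1 y.1, if_pos h2]
      unfold hW ex1 b2r
      simp
    | some i =>
      have h2 := kO_some.1 hx
      cases hy : kO E ρ y with
      | none =>
        have h3 := kO_none.1 hy
        rw [Kf_unc ρ (by omega) x.1 y.1, if_neg (by have := i.2; omega)]
        unfold hW ex1 b2r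
        simp
      | some j =>
        have h3 := kO_some.1 hy
        have h4 := Kf_ge hE h0 h1 (a := a) (lam := lam) (c := c) ha ρ i j x.1 y.1
        rw [h2, h3]
        refine le_trans (le_of_eq ?_) h4
        have e1 : hW E t ρ (some i) (some j) x.1 y.1 = 1 - R E t ρ i j x.1 y.1 := rfl
        have e2 : ex1 (fun i (p : V) => ex1 (fun j (q : V) => h i j p q) (some j) y.1) (some i) x.1 =
          h i j x.1 y.1 := rfl
        rw [e1, e2, hh]
        unfold b2r
        simp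
  have hs := wh_sum (t := t) hw.one
  have e1 : ∑ x, wh t w x * ∑ y, wh t w y *
      (a * ex1 (fun i (p : V) => ex1 (fun j (q : V) => h i j p q) (kO E ρ y) y.1) (kO E ρ x) x.1) =
      a * W1 E t w ρ := by
    have f1 : ∀ x : V × (Fin 10 → Bool), ∑ y, wh t w y *
        (a * ex1 (fun i (p : V) => ex1 (fun j (q : V) => h i j p q) (kO E ρ y) y.1)
          (kO E ρ x) x.1) = a * ex1 (fun i (p : V) => ∑ j, ∑ z, w z * (Q E t ρ j z * h i j p z))
          (kO E ρ x) x.1 := by
      intro x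
      cases kO E ρ x with
      | none => simp [ex1]
      | some i =>
        have f2 := sumO (t := t) w ρ (E := E) (fun j (q : V) => h i j x.1 q)
        have f3 : ∀ y : V × (Fin 10 → Bool), wh t w y * (a * ex1 (fun i (p : V) =>
            ex1 (fun j (q : V) => h i j p q) (kO E ρ y) y.1) (some i) x.1) =
            a * (wh t w y * ex1 (fun j (q : V) => h i j x.1 q) (kO E ρ y) y.1) := by
          intro y
          change wh t w y * (a * ex1 (fun j (q : V) => h i j x.1 q) (kO E ρ y) y.1) = _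
          ring
        rw [Finset.sum_congr rfl fun y _ => f3 y, ← Finset.mul_sum, f2]
        rfl
    have f4 : ∀ x : V × (Fin 10 → Bool), wh t w x * ∑ y, wh t w y *
        (a * ex1 (fun i (p : V) => ex1 (fun j (q : V) => h i j p q) (kO E ρ y) y.1)
          (kO E ρ x) x.1) = a * (wh t w x * ex1 (fun i (p : V) => ∑ j, ∑ z, w z *
          (Q E t ρ j z * h i j p z)) (kO E ρ x) x.1) := by
      intro x
      rw [f1 x]
      ring
    rw [Finset.sum_congr rfl fun x _ => f4 x, ← Finset.mul_sum, sumO]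
    congr 1
    unfold W1
    have f5 : ∀ i : Fin 6, ∑ x, w x * (Q E t ρ i x * ∑ j, ∑ z, w z * (Q E t ρ j z * h i j x z)) =
        ∑ j : Fin 6, ∑ l : Fin 5, b2r (D6 (rc l) i j) * ∑ y, w y * ∑ z, w z *
          G1 E t ρ l i j y z := by
      intro i
      have f6 : ∀ x : V, w x * (Q E t ρ i x * ∑ j, ∑ z, w z * (Q E t ρ j z * h i j x z)) =
          ∑ j : Fin 6, ∑ l : Fin 5, b2r (D6 (rc l) i j) * (w x * ∑ z, w z *
            G1 E t ρ l i j x z) := by
        intro x
        rw [Finset.mul_sum, Finset.mul_sum]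
        refine Finset.sum_congr rfl fun j _ => ?_
        rw [hh]
        simp only [Finset.mul_sum]
        rw [Finset.sum_comm]
        refine Finset.sum_congr rfl fun l _ => Finset.sum_congr rfl fun z _ => ?_
        unfold G1
        ring
      rw [Finset.sum_congr rfl fun x _ => f6 x, Finset.sum_comm]
      refine Finset.sum_congr rfl fun j _ => ?_
      rw [Finset.sum_comm]
      refine Finset.sum_congr rfl fun l _ => ?_
      rw [← Finset.mul_sum]
    rw [Finset.sum_congr rfl fun i _ => f5 i]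
    have f7 : ∀ i : Fin 6, ∑ j : Fin 6, ∑ l : Fin 5, b2r (D6 (rc l) i j) * ∑ y, w y *
        ∑ z, w z * G1 E t ρ l i j y z = ∑ l : Fin 5, ∑ j : Fin 6, b2r (D6 (rc l) i j) *
        ∑ y, w y * ∑ z, w z * G1 E t ρ l i j y z := fun i => Finset.sum_comm
    rw [Finset.sum_congr rfl fun i _ => f7 i, Finset.sum_comm]
  have e2 : ∑ x, wh t w x * ∑ y, wh t w y *
      (hW E t ρ (kO E ρ x) (kO E ρ y) x.1 y.1 +
      a * ex1 (fun i (p : V) => ex1 (fun j (q : V) => h i j p q) (kO E ρ y) y.1) (kO E ρ x) x.1 +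
      lam * b2r (kO E ρ x).isNone - c) =
      Wh E t w ρ + a * W1 E t w ρ + lam * unO (wh t w) (kO E ρ) - c := by
    rw [← e1]
    unfold Wh unO
    have g1 : ∀ x : V × (Fin 10 → Bool), wh t w x * ∑ y, wh t w y *
      (hW E t ρ (kO E ρ x) (kO E ρ y) x.1 y.1 +
      a * ex1 (fun i (p : V) => ex1 (fun j (q : V) => h i j p q) (kO E ρ y) y.1) (kO E ρ x) x.1 +
      lam * b2r (kO E ρ x).isNone - c) =
      (∑ y, wh t w x * wh t w y * hW E t ρ (kO E ρ x) (kO E ρ y) x.1 y.1) +
      wh t w x * (∑ y, wh t w y *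
      (a * ex1 (fun i (p : V) => ex1 (fun j (q : V) => h i j p q) (kO E ρ y) y.1)
        (kO E ρ x) x.1)) + lam * (wh t w x * b2r (kO E ρ x).isNone) * (∑ y, wh t w y) -
      c * wh t w x * (∑ y, wh t w y) := by
      intro x
      simp only [Finset.mul_sum]
      rw [← Finset.sum_add_distrib, ← Finset.sum_add_distrib, ← Finset.sum_sub_distrib]
      exact Finset.sum_congr rfl fun y _ => by ring
    rw [Finset.sum_congr rfl fun x _ => g1 x, Finset.sum_sub_distrib, Finset.sum_add_distrib,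
      Finset.sum_add_distrib]
    simp only [hs, mul_one]
    rw [← Finset.mul_sum, ← Finset.mul_sum, hs, mul_one]
  rw [← e2]
  refine Finset.sum_le_sum fun x _ => mul_le_mul_of_nonneg_left ?_ (wh_nonneg hw.nn h0 h1 x)
  exact Finset.sum_le_sum fun y _ => mul_le_mul_of_nonneg_left (hpt x y) (wh_nonneg hw.nn h0 h1 y)

/-- Choice of the roots. -/
theorem roots (ho : Opt E w) (h0 : 0 ≤ t) (h1 : t ≤ 1) {lam c : ℝ}
    (hH : Ev 7 w (fun φ => Th (pe E t φ) (FT (3 * t * dens E w) lam c)) < 0) :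
    ∃ ρ : Fin 5 → V, Wh E t w ρ + MU0 E t w ρ + lam * unO (wh t w) (kO E ρ) < c := by
  rw [gT_eq_FG, Ev_FG ho.free] at hH
  by_contra hcon
  push Not at hcon
  have hd : 0 ≤ 3 * t * dens E w := by
    have := dens_nonneg E ho.wt.nn
    positivity
  have s1 : Ev 5 w (fun ρ => A E t ρ * (Wh E t w ρ + 3 * t * dens E w * W1 E t w ρ +
      lam * unO (wh t w) (kO E ρ) - c)) < 0 := by
    refine lt_of_le_of_lt (Ev_mono 5 w ho.wt.nn fun ρ => ?_) hH
    exact mul_le_mul_of_nonneg_left (S_ge ho.free ho.wt h0 h1 hd ρ) (A_nonneg h0 h1 ρ)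
  have s2 := Ev_MU0_le ho h0 h1
  have s3 : Ev 5 w (fun ρ => A E t ρ * (Wh E t w ρ + 3 * t * dens E w * W1 E t w ρ +
      lam * unO (wh t w) (kO E ρ) - c)) = Ev 5 w (fun ρ => A E t ρ * (Wh E t w ρ +
      MU0 E t w ρ + lam * unO (wh t w) (kO E ρ) - c)) + (3 * t * dens E w *
      Ev 5 w (fun ρ => A E t ρ * W1 E t w ρ) - Ev 5 w (fun ρ => A E t ρ * MU0 E t w ρ)) := by
    rw [← Ev_mul, ← Ev_sub, ← Ev_add]
    refine Ev_congr 5 w fun ρ => ?_
    ring
  have s4 : 0 ≤ Ev 5 w (fun ρ => A E t ρ * (Wh E t w ρ +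
      MU0 E t w ρ + lam * unO (wh t w) (kO E ρ) - c)) :=
    Ev_nonneg 5 w ho.wt.nn fun ρ => mul_nonneg (A_nonneg h0 h1 ρ) (by linarith [hcon ρ])
  linarith

end

end KT
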