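import Pool.Agent.Helper20.KT.T8

set_option autoImplicit false

/-!
Part (1) of the stability step: a partial partition of a blow-up with few missing and bad triples
and few unassigned vertices.
-/

namespace KT

open Finset KF

section
variable {V : Type} [Fintype V] {E : V → V → V → Bool} {t : ℝ} {w : V → ℝ}

/-- The blow-up by marks. -/
def Eh (E : V → V → V → Bool) : V × (Fin 10 → Bool) → V × (Fin 10 → Bool) →
    V × (Fin 10 → Bool) → Bool := fun x y z => E x.1 y.1 z.1

theorem dens_Eh (E : V → V → V → Bool) (u : V × (Fin 10 → Bool) → ℝ) :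
    dens (Eh E) u = dens E (fun v => ∑ ξ : Fin 10 → Bool, u (v, ξ)) := by
  unfold KF.dens Eh
  simp only [Fintype.sum_prod_type]
  refine Finset.sum_congr rfl fun x _ => ?_
  have e1 : ∀ y z : V, (∑ ξ, u (x, ξ)) * (∑ η, u (y, η)) * (∑ ζ, u (z, ζ)) * b2r (E x y z) =
      ∑ ξ : Fin 10 → Bool, ∑ η : Fin 10 → Bool, ∑ ζ : Fin 10 → Bool,
        u (x, ξ) * u (y, η) * u (z, ζ) * b2r (E x y z) := by
    intro y z
    rw [Finset.sum_mul_sum, Finset.sum_mul, Finset.sum_mul]
    refine Finset.sum_congr rfl fun ξ _ => ?_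
    rw [Finset.sum_mul, Finset.sum_mul]
    refine Finset.sum_congr rfl fun η _ => ?_
    rw [Finset.mul_sum, Finset.sum_mul]
  simp only [e1]
  rw [Finset.sum_comm]
  refine Finset.sum_congr rfl fun y _ => ?_
  symm
  rw [Finset.sum_comm]
  refine Finset.sum_congr rfl fun ξ _ => ?_
  rw [Finset.sum_comm]

theorem push_wh (w : V → ℝ) (v : V) : ∑ ξ : Fin 10 → Bool, wh t w (v, ξ) = w v := by
  change ∑ ξ : Fin 10 → Bool, w v * ∏ e, qb t (ξ e) = w v
  rw [← Finset.mul_sum, sum_prod_qb (fun _ : Fin 10 => t), mul_one]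

theorem sum_wh_fst (w : V → ℝ) (f : V → ℝ) : ∑ x, wh t w x * f x.1 = ∑ v, w v * f v := by
  rw [Fintype.sum_prod_type]
  refine Finset.sum_congr rfl fun v _ => ?_
  change ∑ ξ : Fin 10 → Bool, wh t w (v, ξ) * f v = w v * f v
  rw [← Finset.sum_mul, push_wh]

theorem blow_opt (ho : Opt E w) (h0 : 0 < t) (h1 : t < 1) : Opt (Eh E) (wh t w) := by
  have hd : dens (Eh E) (wh t w) = dens E w := by
    rw [dens_Eh]
    simp only [push_wh]
  refine ⟨?_, ⟨fun x => wh_nonneg ho.wt.nn h0.le h1.le x, wh_sum ho.wt.one⟩, ?_, ?_, ?_⟩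
  · exact ho.free.comp Prod.fst
  · intro x
    refine mul_pos (ho.pos _) (Finset.prod_pos fun e _ => ?_)
    unfold qb
    split <;> linarith
  · intro x
    rw [hd, ← ho.reg x.1]
    unfold deg Eh
    have e1 : ∀ y : V × (Fin 10 → Bool), ∑ z : V × (Fin 10 → Bool), wh t w y * wh t w z *
        b2r (E x.1 y.1 z.1) = wh t w y * ∑ z, w z * b2r (E x.1 y.1 z) := by
      intro y
      rw [← sum_wh_fst (t := t) w (fun z => b2r (E x.1 y.1 z)), Finset.mul_sum]
      exact Finset.sum_congr rfl fun z _ => by ring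
    rw [Finset.sum_congr rfl fun y _ => e1 y,
      sum_wh_fst w (fun y => ∑ z, w z * b2r (E x.1 y z))]
    refine Finset.sum_congr rfl fun y _ => ?_
    rw [Finset.mul_sum]
    exact Finset.sum_congr rfl fun z _ => by ring
  · intro u hu
    rw [hd, dens_Eh]
    have h := ho.max (fun v => ∑ ξ : Fin 10 → Bool, u (v, ξ))
      (fun v => Finset.sum_nonneg fun ξ _ => hu _)
    have e2 : ∑ v, ∑ ξ : Fin 10 → Bool, u (v, ξ) = ∑ x, u x := by
      rw [Fintype.sum_prod_type]
    rw [e2] at h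
    exact h

/-- `MU0` on the marked vertices. -/
theorem MU0_eq (ρ : Fin 5 → V) : MU0 E t w ρ =
    ∑ x, wh t w x * ex1 (fun i (p : V) => ∑ y, wh t w y * ex1 (fun j (q : V) =>
      ∑ z, wh t w z * ex1 (fun k (r : V) => b2r (D6 i j k) * ((1 - b2r (E p q r)) *
        (R E t ρ i j p q * (R E t ρ i k p r * R E t ρ j k q r)))) (kO E ρ z) z.1)
      (kO E ρ y) y.1) (kO E ρ x) x.1 := by
  rw [sumO]
  unfold MU0 S3
  refine Finset.sum_congr rfl fun i _ => ?_
  have e1 : ∀ p : V, ∑ y, wh t w y * ex1 (fun j (q : V) =>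
      ∑ z, wh t w z * ex1 (fun k (r : V) => b2r (D6 i j k) * ((1 - b2r (E p q r)) *
        (R E t ρ i j p q * (R E t ρ i k p r * R E t ρ j k q r)))) (kO E ρ z) z.1)
      (kO E ρ y) y.1 = ∑ j, ∑ k, b2r (D6 i j k) * ∑ y, w y * ∑ z, w z * (Q E t ρ j y *
      (Q E t ρ k z * ((1 - b2r (E p y z)) *
        (R E t ρ i j p y * (R E t ρ i k p z * R E t ρ j k y z))))) := by
    intro p
    rw [sumO]
    refine Finset.sum_congr rfl fun j _ => ?_
    have e2 : ∀ q : V, ∑ z, wh t w z * ex1 (fun k (r : V) => b2r (D6 i j k) *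
        ((1 - b2r (E p q r)) * (R E t ρ i j p q * (R E t ρ i k p r * R E t ρ j k q r))))
        (kO E ρ z) z.1 = ∑ k, ∑ z, w z * (Q E t ρ k z * (b2r (D6 i j k) *
        ((1 - b2r (E p q z)) * (R E t ρ i j p q * (R E t ρ i k p z * R E t ρ j k q z))))) :=
      fun q => sumO _ _ _
    simp only [e2]
    simp only [Finset.mul_sum]
    rw [Finset.sum_comm]
    refine Finset.sum_congr rfl fun k _ => Finset.sum_congr rfl fun y _ =>
      Finset.sum_congr rfl fun z _ => ?_
    ring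
  simp only [e1]
  unfold GM
  simp only [Finset.mul_sum]
  symm
  rw [Finset.sum_comm]
  refine Finset.sum_congr rfl fun j _ => ?_
  rw [Finset.sum_comm]
  refine Finset.sum_congr rfl fun k _ => Finset.sum_congr rfl fun x _ =>
    Finset.sum_congr rfl fun y _ => Finset.sum_congr rfl fun z _ => ?_
  ring

/-- Union bound. -/
theorem one_sub_mul3 {a b c : ℝ} (a0 : 0 ≤ a) (a1 : a ≤ 1) (b0 : 0 ≤ b) (b1 : b ≤ 1)
    (c0 : 0 ≤ c) (c1 : c ≤ 1) : 1 - a * (b * c) ≤ (1 - a) + (1 - b) + (1 - c) := by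
  nlinarith [mul_nonneg (sub_nonneg.2 a1) (sub_nonneg.2 (mul_le_one₀ b1 c0 c1)),
    mul_nonneg (sub_nonneg.2 b1) (sub_nonneg.2 c1)]

/-- Missing triples of the partial partition. -/
theorem mu_le (hw : Wt w) (h0 : 0 ≤ t) (h1 : t ≤ 1) (ρ : Fin 5 → V) {M : ℝ}
    (hM0 : 0 ≤ M) (hM : ∀ j k : Fin 6, ∑ i, b2r (D6 i j k) * xsO (wh t w) (kO E ρ) i ≤ M)
    (hE : K4m E) :
    muO (Eh E) (wh t w) (kO E ρ) ≤ MU0 E t w ρ + 3 * M * Wh E t w ρ := by
  set u := wh t w with hu
  have un : ∀ x, 0 ≤ u x := fun x => wh_nonneg hw.nn h0 h1 x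
  have hsz : ∀ a b : Option (Fin 6), ∑ x, u x * b2r (dO (kO E ρ x) a b) ≤ M := by
    intro a b
    cases a with
    | none =>
      refine le_trans (le_of_eq (Finset.sum_eq_zero fun x _ => ?_)) hM0
      cases kO E ρ x <;> simp [dO, b2r]
    | some j =>
      cases b with
      | none =>
        refine le_trans (le_of_eq (Finset.sum_eq_zero fun x _ => ?_)) hM0
        cases kO E ρ x <;> simp [dO, b2r]
      | some k =>
        refine le_trans (le_of_eq ?_) (hM j k)
        unfold xsO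
        simp only [Finset.mul_sum]
        rw [Finset.sum_comm]
        refine Finset.sum_congr rfl fun x _ => ?_
        cases hx : kO E ρ x with
        | none => simp [dO, b2r]
        | some i =>
          rw [Finset.sum_eq_single i]
          · change u x * b2r (D6 i j k) = b2r (D6 i j k) * (u x * b2r (decide (some i = some i)))
            have e9 : b2r (decide (some i = some i)) = 1 := by simp [b2r]
            rw [e9]
            ring
          · intro l _ hl
            simp [b2r, Ne.symm hl]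
          · intro h3
            exact absurd (Finset.mem_univ _) h3
  have hpt : ∀ x y z : V × (Fin 10 → Bool), u x * u y * u z *
      (b2r (dO (kO E ρ x) (kO E ρ y) (kO E ρ z)) * (1 - b2r (Eh E x y z))) ≤
      u x * (u y * (u z * ex1 (fun i (p : V) => ex1 (fun j (q : V) =>
      ex1 (fun k (r : V) => b2r (D6 i j k) * ((1 - b2r (E p q r)) *
        (R E t ρ i j p q * (R E t ρ i k p r * R E t ρ j k q r)))) (kO E ρ z) z.1)
      (kO E ρ y) y.1) (kO E ρ x) x.1)) +
      (u x * u y * u z * (b2r (dO (kO E ρ x) (kO E ρ y) (kO E ρ z)) *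
        hW E t ρ (kO E ρ y) (kO E ρ z) y.1 z.1) +
      u x * u y * u z * (b2r (dO (kO E ρ x) (kO E ρ y) (kO E ρ z)) *
        hW E t ρ (kO E ρ x) (kO E ρ z) x.1 z.1) +
      u x * u y * u z * (b2r (dO (kO E ρ x) (kO E ρ y) (kO E ρ z)) *
        hW E t ρ (kO E ρ x) (kO E ρ y) x.1 y.1)) := by
    intro x y z
    have hn : 0 ≤ u x * u y * u z := mul_nonneg (mul_nonneg (un x) (un y)) (un z)
    rw [show u x * (u y * (u z * ex1 (fun i (p : V) => ex1 (fun j (q : V) =>
      ex1 (fun k (r : V) => b2r (D6 i j k) * ((1 - b2r (E p q r)) *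
        (R E t ρ i j p q * (R E t ρ i k p r * R E t ρ j k q r)))) (kO E ρ z) z.1)
      (kO E ρ y) y.1) (kO E ρ x) x.1)) = u x * u y * u z * ex1 (fun i (p : V) => ex1 (fun j (q : V) =>
      ex1 (fun k (r : V) => b2r (D6 i j k) * ((1 - b2r (E p q r)) *
        (R E t ρ i j p q * (R E t ρ i k p r * R E t ρ j k q r)))) (kO E ρ z) z.1)
      (kO E ρ y) y.1) (kO E ρ x) x.1 from by ring, ← mul_add, ← mul_add, ← mul_add]
    refine mul_le_mul_of_nonneg_left ?_ hn
    cases kO E ρ x with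
    | none => simp [dO, b2r, ex1]
    | some i =>
      cases kO E ρ y with
      | none => simp [dO, b2r, ex1]
      | some j =>
        cases kO E ρ z with
        | none => simp [dO, b2r, ex1]
        | some k =>
          change b2r (D6 i j k) * (1 - b2r (E x.1 y.1 z.1)) ≤
            b2r (D6 i j k) * ((1 - b2r (E x.1 y.1 z.1)) *
            (R E t ρ i j x.1 y.1 * (R E t ρ i k x.1 z.1 * R E t ρ j k y.1 z.1))) +
            (b2r (D6 i j k) * (1 - R E t ρ j k y.1 z.1) +
            b2r (D6 i j k) * (1 - R E t ρ i k x.1 z.1) +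
            b2r (D6 i j k) * (1 - R E t ρ i j x.1 y.1))
          have a0 := R_nonneg (E := E) h0 h1 ρ i j x.1 y.1
          have a1 := R_le_one (E := E) h0 h1 ρ i j x.1 y.1
          have b0 := R_nonneg (E := E) h0 h1 ρ i k x.1 z.1
          have b1 := R_le_one (E := E) h0 h1 ρ i k x.1 z.1
          have c0 := R_nonneg (E := E) h0 h1 ρ j k y.1 z.1
          have c1 := R_le_one (E := E) h0 h1 ρ j k y.1 z.1
          have h2 := one_sub_mul3 a0 a1 b0 b1 c0 c1
          have e0 := b2r_nonneg (E x.1 y.1 z.1)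
          have e1 := b2r_le_one (E x.1 y.1 z.1)
          have h3 : (1 - b2r (E x.1 y.1 z.1)) * (1 - R E t ρ i j x.1 y.1 *
              (R E t ρ i k x.1 z.1 * R E t ρ j k y.1 z.1)) ≤
              (1 - R E t ρ i j x.1 y.1) + (1 - R E t ρ i k x.1 z.1) +
              (1 - R E t ρ j k y.1 z.1) := by
            have h4 : 0 ≤ (1 - R E t ρ i j x.1 y.1) + (1 - R E t ρ i k x.1 z.1) +
              (1 - R E t ρ j k y.1 z.1) := by linarith
            have h5 : 0 ≤ 1 - b2r (E x.1 y.1 z.1) := by linarith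
            calc _ ≤ (1 - b2r (E x.1 y.1 z.1)) * ((1 - R E t ρ i j x.1 y.1) +
                (1 - R E t ρ i k x.1 z.1) + (1 - R E t ρ j k y.1 z.1)) :=
                  mul_le_mul_of_nonneg_left h2 h5
              _ ≤ _ := mul_le_of_le_one_left h4 (by linarith)
          have h6 := mul_le_mul_of_nonneg_left h3 (b2r_nonneg (D6 i j k))
          nlinarith
  unfold muO
  refine (Finset.sum_le_sum fun x _ => Finset.sum_le_sum fun y _ => Finset.sum_le_sum fun z _ =>
    hpt x y z).trans ?_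
  simp only [Finset.sum_add_distrib]
  have p0 : ∑ x, ∑ y, ∑ z, u x * (u y * (u z * ex1 (fun i (p : V) => ex1 (fun j (q : V) =>
      ex1 (fun k (r : V) => b2r (D6 i j k) * ((1 - b2r (E p q r)) *
        (R E t ρ i j p q * (R E t ρ i k p r * R E t ρ j k q r)))) (kO E ρ z) z.1)
      (kO E ρ y) y.1) (kO E ρ x) x.1)) = MU0 E t w ρ := by
    rw [MU0_eq]
    refine Finset.sum_congr rfl fun x _ => ?_
    cases kO E ρ x with
    | none => simp [ex1]
    | some i =>
      change ∑ y, ∑ z, u x * (u y * (u z * ex1 (fun j (q : V) =>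
        ex1 (fun k (r : V) => b2r (D6 i j k) * ((1 - b2r (E x.1 q r)) *
        (R E t ρ i j x.1 q * (R E t ρ i k x.1 r * R E t ρ j k q r)))) (kO E ρ z) z.1)
        (kO E ρ y) y.1)) = u x * ∑ y, u y * ex1 (fun j (q : V) =>
        ∑ z, u z * ex1 (fun k (r : V) => b2r (D6 i j k) * ((1 - b2r (E x.1 q r)) *
        (R E t ρ i j x.1 q * (R E t ρ i k x.1 r * R E t ρ j k q r)))) (kO E ρ z) z.1)
        (kO E ρ y) y.1
      rw [Finset.mul_sum]
      refine Finset.sum_congr rfl fun y _ => ?_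
      cases kO E ρ y with
      | none => simp [ex1]
      | some j =>
        simp only [← Finset.mul_sum]
        rfl
  have dsym1 : ∀ a b c : Option (Fin 6), dO a b c = dO b a c := by
    intro a b c
    cases a <;> cases b <;> cases c <;> first | rfl | exact D6_K4m.s12 _ _ _
  have dsym2 : ∀ a b c : Option (Fin 6), dO a b c = dO a c b := by
    intro a b c
    cases a <;> cases b <;> cases c <;> first | rfl | exact D6_K4m.s23 _ _ _
  have p1 : ∑ x, ∑ y, ∑ z, u x * u y * u z * (b2r (dO (kO E ρ x) (kO E ρ y) (kO E ρ z)) *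
        hW E t ρ (kO E ρ y) (kO E ρ z) y.1 z.1) ≤ M * Wh E t w ρ := by
    have q1 : ∑ x, ∑ y, ∑ z, u x * u y * u z * (b2r (dO (kO E ρ x) (kO E ρ y) (kO E ρ z)) *
        hW E t ρ (kO E ρ y) (kO E ρ z) y.1 z.1) = ∑ y, ∑ z, (∑ x, u x *
        b2r (dO (kO E ρ x) (kO E ρ y) (kO E ρ z))) *
        (u y * u z * hW E t ρ (kO E ρ y) (kO E ρ z) y.1 z.1) := by
      rw [Finset.sum_comm]
      refine Finset.sum_congr rfl fun y _ => ?_
      rw [Finset.sum_comm]
      refine Finset.sum_congr rfl fun z _ => ?_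
      rw [Finset.sum_mul]
      exact Finset.sum_congr rfl fun x _ => by ring
    rw [q1]
    unfold Wh
    rw [Finset.mul_sum]
    refine Finset.sum_le_sum fun y _ => ?_
    rw [Finset.mul_sum]
    refine Finset.sum_le_sum fun z _ => ?_
    exact mul_le_mul_of_nonneg_right (hsz _ _)
      (mul_nonneg (mul_nonneg (un y) (un z)) (hW_nonneg h0 h1 _ _ _ _ _))
  have p2 : ∑ x, ∑ y, ∑ z, u x * u y * u z * (b2r (dO (kO E ρ x) (kO E ρ y) (kO E ρ z)) *
        hW E t ρ (kO E ρ x) (kO E ρ z) x.1 z.1) ≤ M * Wh E t w ρ := by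
    refine le_trans (le_of_eq ?_) p1
    rw [Finset.sum_comm]
    refine Finset.sum_congr rfl fun y _ => Finset.sum_congr rfl fun x _ =>
      Finset.sum_congr rfl fun z _ => ?_
    rw [dsym1 (kO E ρ x) (kO E ρ y) (kO E ρ z)]
    ring
  have p3 : ∑ x, ∑ y, ∑ z, u x * u y * u z * (b2r (dO (kO E ρ x) (kO E ρ y) (kO E ρ z)) *
        hW E t ρ (kO E ρ x) (kO E ρ y) x.1 y.1) ≤ M * Wh E t w ρ := by
    refine le_trans (le_of_eq ?_) p2
    refine Finset.sum_congr rfl fun x _ => ?_
    rw [Finset.sum_comm]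
    refine Finset.sum_congr rfl fun z _ => Finset.sum_congr rfl fun y _ => ?_
    rw [dsym2 (kO E ρ x) (kO E ρ y) (kO E ρ z)]
    ring
  rw [p0]
  linarith

theorem bad_root : ∀ i j k : Fin 6, (!(D6 i j k) && !(decide (i = j) && decide (j = k))) = true →
    ∃ l : Fin 5, (D6 (rc l) i j = true ∧ D6 (rc l) i k = true) ∨
      (D6 (rc l) i j = true ∧ D6 (rc l) j k = true) ∨
      (D6 (rc l) i k = true ∧ D6 (rc l) j k = true) := by
  decide

/-- A right pair sees the block roots. -/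
theorem edge_of_R (hE : K4m E) {ρ : Fin 5 → V} {i j : Fin 6} {x y : V} {l : Fin 5}
    (hd : D6 (rc l) i j = true) (hR : R E t ρ i j x y ≠ 0) : E x y (ρ l) = true := by
  by_contra hcon
  apply hR
  unfold R
  refine Finset.prod_eq_zero (Finset.mem_univ l) ?_
  have hn : ∀ a b c : Fin 6, D6 a b c = true → ¬ (a = b ∧ a = c) := by decide
  have hd2 : D6 j i (rc l) = true := by
    rw [D6_K4m.s23, D6_K4m.s12, D6_K4m.s23, D6_K4m.s12] at hd
    rw [D6_K4m.s12, D6_K4m.s23, D6_K4m.s12]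
    rw [D6_K4m.s23, D6_K4m.s12] at hd
    exact hd
  rw [if_neg (hn _ _ _ hd), hd2]
  unfold qb P
  rw [if_pos rfl, hE.s12 y x (ρ l)]
  unfold b2r
  rw [if_neg hcon, mul_zero]

/-- Bad triples of the partial partition. -/
theorem be_le (ho : Opt E w) (h0 : 0 ≤ t) (h1 : t ≤ 1) (ρ : Fin 5 → V) :
    beO (Eh E) (wh t w) (kO E ρ) ≤ 6 * dens E w * Wh E t w ρ := by
  have hE := ho.free
  set u := wh t w with hu
  have un : ∀ x, 0 ≤ u x := fun x => wh_nonneg ho.wt.nn h0 h1 x
  have hpt : ∀ x y z : V × (Fin 10 → Bool), u x * u y * u z *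
      (b2r (bO (kO E ρ x) (kO E ρ y) (kO E ρ z)) * b2r (Eh E x y z)) ≤
      u x * u y * u z * (b2r (Eh E x y z) * hW E t ρ (kO E ρ y) (kO E ρ z) y.1 z.1) +
      u x * u y * u z * (b2r (Eh E x y z) * hW E t ρ (kO E ρ x) (kO E ρ z) x.1 z.1) +
      u x * u y * u z * (b2r (Eh E x y z) * hW E t ρ (kO E ρ x) (kO E ρ y) x.1 y.1) := by
    intro x y z
    have hn : 0 ≤ u x * u y * u z := mul_nonneg (mul_nonneg (un x) (un y)) (un z)
    rw [← mul_add, ← mul_add]
    refine mul_le_mul_of_nonneg_left ?_ hn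
    have n1 := hW_nonneg (E := E) h0 h1 ρ (kO E ρ y) (kO E ρ z) y.1 z.1
    have n2 := hW_nonneg (E := E) h0 h1 ρ (kO E ρ x) (kO E ρ z) x.1 z.1
    have n3 := hW_nonneg (E := E) h0 h1 ρ (kO E ρ x) (kO E ρ y) x.1 y.1
    have n4 := b2r_nonneg (Eh E x y z)
    have hrhs : 0 ≤ b2r (Eh E x y z) * hW E t ρ (kO E ρ y) (kO E ρ z) y.1 z.1 +
        b2r (Eh E x y z) * hW E t ρ (kO E ρ x) (kO E ρ z) x.1 z.1 +
        b2r (Eh E x y z) * hW E t ρ (kO E ρ x) (kO E ρ y) x.1 y.1 := by positivity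
    by_cases hb : bO (kO E ρ x) (kO E ρ y) (kO E ρ z) = true
    swap
    · have : b2r (bO (kO E ρ x) (kO E ρ y) (kO E ρ z)) = 0 := by
        unfold b2r; rw [if_neg hb]
      rw [this, zero_mul]
      exact hrhs
    by_cases he : Eh E x y z = true
    swap
    · have : b2r (Eh E x y z) = 0 := by
        unfold b2r; rw [if_neg he]
      rw [this]
      simp
    have hb1 : b2r (bO (kO E ρ x) (kO E ρ y) (kO E ρ z)) = 1 := by
      unfold b2r; rw [if_pos hb]
    have he1 : b2r (Eh E x y z) = 1 := by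
      unfold b2r; rw [if_pos he]
    rw [hb1, he1]
    have he2 : E x.1 y.1 z.1 = true := he
    revert hb n1 n2 n3
    cases kO E ρ x with
    | none => intro _ _ _ hb; simp [bO] at hb
    | some i =>
      cases kO E ρ y with
      | none => intro _ _ _ hb; simp [bO] at hb
      | some j =>
        cases kO E ρ z with
        | none => intro _ _ _ hb; simp [bO] at hb
        | some k =>
          intro n1 n2 n3 hb
          obtain ⟨l, hl⟩ := bad_root i j k hb
          have m1 : hW E t ρ (some j) (some k) y.1 z.1 = 1 - R E t ρ j k y.1 z.1 := rfl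
          have m2 : hW E t ρ (some i) (some k) x.1 z.1 = 1 - R E t ρ i k x.1 z.1 := rfl
          have m3 : hW E t ρ (some i) (some j) x.1 y.1 = 1 - R E t ρ i j x.1 y.1 := rfl
          rcases hl with ⟨g1, g2⟩ | ⟨g1, g2⟩ | ⟨g1, g2⟩
          · by_cases r1 : R E t ρ i j x.1 y.1 = 0
            · rw [m3, r1]; linarith
            by_cases r2 : R E t ρ i k x.1 z.1 = 0
            · rw [m2, r2]; linarith
            exact absurd (hE.free _ _ _ _ he2 (edge_of_R hE g1 r1) (edge_of_R hE g2 r2)) id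
          · by_cases r1 : R E t ρ i j x.1 y.1 = 0
            · rw [m3, r1]; linarith
            by_cases r2 : R E t ρ j k y.1 z.1 = 0
            · rw [m1, r2]; linarith
            have f1 : E y.1 x.1 z.1 = true := by rw [← hE.s12]; exact he2
            have f2 : E y.1 x.1 (ρ l) = true := by rw [← hE.s12]; exact edge_of_R hE g1 r1
            exact absurd (hE.free _ _ _ _ f1 f2 (edge_of_R hE g2 r2)) id
          · by_cases r1 : R E t ρ i k x.1 z.1 = 0
            · rw [m2, r1]; linarith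
            by_cases r2 : R E t ρ j k y.1 z.1 = 0
            · rw [m1, r2]; linarith
            have f1 : E z.1 x.1 y.1 = true := by rw [hE.s12, hE.s23]; exact he2
            have f2 : E z.1 x.1 (ρ l) = true := by rw [← hE.s12]; exact edge_of_R hE g1 r1
            have f3 : E z.1 y.1 (ρ l) = true := by rw [← hE.s12]; exact edge_of_R hE g2 r2
            exact absurd (hE.free _ _ _ _ f1 f2 f3) id
  unfold beO
  refine (Finset.sum_le_sum fun x _ => Finset.sum_le_sum fun y _ => Finset.sum_le_sum fun z _ =>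
    hpt x y z).trans ?_
  simp only [Finset.sum_add_distrib]
  have hcod : ∀ y z : V × (Fin 10 → Bool), ∑ x, u x * b2r (Eh E x y z) ≤ 2 * dens E w := by
    intro y z
    rw [hu]
    unfold Eh
    rw [sum_wh_fst w (fun v => b2r (E v y.1 z.1))]
    refine le_trans (le_of_eq ?_) (cod_le_two ho y.1 z.1)
    unfold cod
    refine Finset.sum_congr rfl fun v _ => ?_
    rw [hE.s12, hE.s23]
  have p1 : ∑ x, ∑ y, ∑ z, u x * u y * u z * (b2r (Eh E x y z) *
        hW E t ρ (kO E ρ y) (kO E ρ z) y.1 z.1) ≤ 2 * dens E w * Wh E t w ρ := by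
    have q1 : ∑ x, ∑ y, ∑ z, u x * u y * u z * (b2r (Eh E x y z) *
        hW E t ρ (kO E ρ y) (kO E ρ z) y.1 z.1) = ∑ y, ∑ z, (∑ x, u x *
        b2r (Eh E x y z)) *
        (u y * u z * hW E t ρ (kO E ρ y) (kO E ρ z) y.1 z.1) := by
      rw [Finset.sum_comm]
      refine Finset.sum_congr rfl fun y _ => ?_
      rw [Finset.sum_comm]
      refine Finset.sum_congr rfl fun z _ => ?_
      rw [Finset.sum_mul]
      exact Finset.sum_congr rfl fun x _ => by ring
    rw [q1]
    unfold Wh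
    rw [Finset.mul_sum]
    refine Finset.sum_le_sum fun y _ => ?_
    rw [Finset.mul_sum]
    refine Finset.sum_le_sum fun z _ => ?_
    exact mul_le_mul_of_nonneg_right (hcod _ _)
      (mul_nonneg (mul_nonneg (un y) (un z)) (hW_nonneg h0 h1 _ _ _ _ _))
  have p2 : ∑ x, ∑ y, ∑ z, u x * u y * u z * (b2r (Eh E x y z) *
        hW E t ρ (kO E ρ x) (kO E ρ z) x.1 z.1) ≤ 2 * dens E w * Wh E t w ρ := by
    refine le_trans (le_of_eq ?_) p1
    rw [Finset.sum_comm]
    refine Finset.sum_congr rfl fun y _ => Finset.sum_congr rfl fun x _ =>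
      Finset.sum_congr rfl fun z _ => ?_
    have : Eh E x y z = Eh E y x z := hE.s12 _ _ _
    rw [this]
    ring
  have p3 : ∑ x, ∑ y, ∑ z, u x * u y * u z * (b2r (Eh E x y z) *
        hW E t ρ (kO E ρ x) (kO E ρ y) x.1 y.1) ≤ 2 * dens E w * Wh E t w ρ := by
    refine le_trans (le_of_eq ?_) p2
    refine Finset.sum_congr rfl fun x _ => ?_
    rw [Finset.sum_comm]
    refine Finset.sum_congr rfl fun z _ => Finset.sum_congr rfl fun y _ => ?_
    have : Eh E x y z = Eh E x z y := hE.s23 _ _ _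
    rw [this]
    ring
  linarith

theorem MU0_nonneg (hw : ∀ v, 0 ≤ w v) (h0 : 0 ≤ t) (h1 : t ≤ 1) (ρ : Fin 5 → V) :
    0 ≤ MU0 E t w ρ :=
  Finset.sum_nonneg fun i _ => Finset.sum_nonneg fun j _ => Finset.sum_nonneg fun k _ =>
    mul_nonneg (b2r_nonneg _) (S3_nonneg hw h0 h1 ρ i j k)

theorem cls_pair : ∀ i : Fin 6, ∃ e : Fin 10, D6 i (rc (pa e)) (rc (pb e)) = true := by
  decide

/-- A class lies in the common neighbourhood of two roots. -/
theorem xs_le (ho : Opt E w) (h0 : 0 ≤ t) (h1 : t ≤ 1) (ρ : Fin 5 → V) (i : Fin 6) :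
    xsO (wh t w) (kO E ρ) i ≤ 2 * dens E w := by
  obtain ⟨e, he⟩ := cls_pair i
  have h2 : xsO (wh t w) (kO E ρ) i ≤
      ∑ x, wh t w x * b2r (E x.1 (ρ (pa e)) (ρ (pb e))) := by
    unfold xsO
    refine Finset.sum_le_sum fun x _ => mul_le_mul_of_nonneg_left ?_
      (wh_nonneg ho.wt.nn h0 h1 x)
    by_cases hk : kO E ρ x = some i
    · have h3 := (cde_eq_iff _ i).1 (kO_some.1 hk)
      rw [← cpat_bits i] at h3
      have h4 := Nat.testBit_ofBits_lt (lk E ρ x) e.1 e.2
      have h5 := Nat.testBit_ofBits_lt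
        (fun e : Fin 10 => D6 i (rc (pa e)) (rc (pb e))) e.1 e.2
      rw [h3, h5] at h4
      have h6 : lk E ρ x e = true := by
        have h7 : D6 i (rc (pa e)) (rc (pb e)) = lk E ρ x e := h4
        rw [← h7]
        exact he
      have h8 : E x.1 (ρ (pa e)) (ρ (pb e)) = true := by
        unfold lk at h6
        rw [Bool.and_eq_true] at h6
        exact h6.1
      rw [h8]
      exact b2r_le_one _ |>.trans (by simp [b2r])
    · have : b2r (decide (kO E ρ x = some i)) = 0 := by simp [b2r, hk]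
      rw [this]
      exact b2r_nonneg _
  refine h2.trans ?_
  rw [sum_wh_fst w (fun v => b2r (E v (ρ (pa e)) (ρ (pb e))))]
  refine le_trans (le_of_eq ?_) (cod_le_two ho (ρ (pa e)) (ρ (pb e)))
  unfold cod
  refine Finset.sum_congr rfl fun v _ => ?_
  rw [ho.free.s12, ho.free.s23]

/-- Part (1): from the thinned functional to a partial partition. -/
theorem part1 (ho : Opt E w) (hd : 2 / 7 < dens E w) {lam c : ℝ}
    (hH : Ev 7 w (fun φ => Th (pe E ((2 / 7) / dens E w) φ) (FT (6 / 7) lam c)) < 0) :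
    ∃ (V' : Type) (_ : Fintype V') (E' : V' → V' → V' → Bool) (w' : V' → ℝ)
      (κ : V' → Option (Fin 6)) (m0 W : ℝ), Opt E' w' ∧ dens E' w' = dens E w ∧
      0 ≤ m0 ∧ 0 ≤ W ∧ m0 + W + lam * unO w' κ < c ∧
      (∀ M : ℝ, 0 ≤ M → (∀ j k : Fin 6, ∑ i, b2r (D6 i j k) * xsO w' κ i ≤ M) →
        muO E' w' κ ≤ m0 + 3 * M * W) ∧
      beO E' w' κ ≤ 6 * dens E w * W ∧ ∀ i, xsO w' κ i ≤ 2 * dens E w := by
  have hpos : 0 < dens E w := by linarith
  have h0 : 0 < (2 / 7) / dens E w := by positivity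
  have h1 : (2 / 7) / dens E w < 1 := (div_lt_one hpos).2 hd
  have e1 : (3 : ℝ) * ((2 / 7) / dens E w) * dens E w = 6 / 7 := by
    field_simp
    norm_num
  obtain ⟨ρ, hρ⟩ := roots ho h0.le h1.le (lam := lam) (c := c) (by rw [e1]; exact hH)
  refine ⟨V × (Fin 10 → Bool), inferInstance, Eh E, wh ((2 / 7) / dens E w) w, kO E ρ,
    MU0 E ((2 / 7) / dens E w) w ρ, Wh E ((2 / 7) / dens E w) w ρ, blow_opt ho h0 h1, ?_,
    MU0_nonneg ho.wt.nn h0.le h1.le ρ, Wh_nonneg ho.wt.nn h0.le h1.le ρ, by linarith,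
    fun M hM0 hM => mu_le ho.wt h0.le h1.le ρ hM0 hM ho.free, be_le ho h0.le h1.le ρ,
    xs_le ho h0.le h1.le ρ⟩
  rw [dens_Eh]
  simp only [push_wh]

end

end KT
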