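import Pool.Agent.Helper20.KT.T8

set_option autoImplicit false

/-!
Extremal partial partitions near a given one.
-/

namespace KT

open Finset KF

theorem dO_12 (a b c : Option (Fin 6)) : dO a b c = dO b a c := by
  cases a <;> cases b <;> cases c <;> first | rfl | exact D6_K4m.s12 _ _ _

theorem dO_23 (a b c : Option (Fin 6)) : dO a b c = dO a c b := by
  cases a <;> cases b <;> cases c <;> first | rfl | exact D6_K4m.s23 _ _ _

theorem dO_self (a c : Option (Fin 6)) : dO a a c = false := by
  cases a with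
  | none => rfl
  | some i =>
    cases c with
    | none => rfl
    | some k => exact D6_K4m.irr i k

theorem bO_12 (a b c : Option (Fin 6)) : bO a b c = bO b a c := by
  have h : ∀ i j k : Fin 6, bO (some i) (some j) (some k) = bO (some j) (some i) (some k) := by
    decide
  cases a <;> cases b <;> cases c <;> first | rfl | exact h _ _ _

theorem bO_23 (a b c : Option (Fin 6)) : bO a b c = bO a c b := by
  have h : ∀ i j k : Fin 6, bO (some i) (some j) (some k) = bO (some i) (some k) (some j) := by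
    decide
  cases a <;> cases b <;> cases c <;> first | rfl | exact h _ _ _

section
variable {V : Type} [Fintype V]

/-- Missing pairs at `v` if it is put into the optional class `a`. -/
noncomputable def mo (E : V → V → V → Bool) (w : V → ℝ) (κ : V → Option (Fin 6))
    (a : Option (Fin 6)) (v : V) : ℝ :=
  ∑ y, ∑ z, w y * w z * (b2r (dO a (κ y) (κ z)) * (1 - b2r (E v y z)))

/-- Distance of two partial partitions. -/
noncomputable def dst (w : V → ℝ) (κ κ0 : V → Option (Fin 6)) : ℝ :=
  ∑ v, w v * (if κ v = κ0 v then 0 else 1)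

theorem muO_nonneg (E : V → V → V → Bool) {w : V → ℝ} (hw : ∀ v, 0 ≤ w v)
    (κ : V → Option (Fin 6)) : 0 ≤ muO E w κ :=
  Finset.sum_nonneg fun x _ => Finset.sum_nonneg fun y _ => Finset.sum_nonneg fun z _ =>
    mul_nonneg (mul_nonneg (mul_nonneg (hw x) (hw y)) (hw z))
      (mul_nonneg (b2r_nonneg _) (by linarith [b2r_le_one (E x y z)]))

theorem beO_nonneg (E : V → V → V → Bool) {w : V → ℝ} (hw : ∀ v, 0 ≤ w v)
    (κ : V → Option (Fin 6)) : 0 ≤ beO E w κ :=
  Finset.sum_nonneg fun x _ => Finset.sum_nonneg fun y _ => Finset.sum_nonneg fun z _ =>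
    mul_nonneg (mul_nonneg (mul_nonneg (hw x) (hw y)) (hw z))
      (mul_nonneg (b2r_nonneg _) (b2r_nonneg _))

theorem unO_nonneg {w : V → ℝ} (hw : ∀ v, 0 ≤ w v)
    (κ : V → Option (Fin 6)) : 0 ≤ unO w κ :=
  Finset.sum_nonneg fun x _ => mul_nonneg (hw x) (b2r_nonneg _)

theorem dst_self (w : V → ℝ) (κ : V → Option (Fin 6)) : dst w κ κ = 0 := by
  unfold dst; simp

theorem dst_nonneg {w : V → ℝ} (hw : ∀ v, 0 ≤ w v) (κ κ0 : V → Option (Fin 6)) :
    0 ≤ dst w κ κ0 :=
  Finset.sum_nonneg fun x _ => mul_nonneg (hw x) (by split <;> norm_num)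

variable [DecidableEq V]

theorem dst_update {w : V → ℝ} (hw : ∀ v, 0 ≤ w v) (κ κ0 : V → Option (Fin 6)) (v : V)
    (a : Option (Fin 6)) : dst w (Function.update κ v a) κ0 ≤ dst w κ κ0 + w v := by
  unfold dst
  have h1 : w v = ∑ x, w x * (if x = v then 1 else 0) := by simp
  rw [h1, ← Finset.sum_add_distrib]
  refine Finset.sum_le_sum fun x _ => ?_
  rw [← mul_add]
  refine mul_le_mul_of_nonneg_left ?_ (hw x)
  by_cases hx : x = v
  · rw [if_pos hx]
    split <;> split <;> norm_num
  · rw [Function.update_of_ne hx, if_neg hx, add_zero]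

theorem unO_update (w : V → ℝ) (κ : V → Option (Fin 6)) (v : V)
    (a : Option (Fin 6)) : unO w (Function.update κ v a) =
      unO w κ + w v * (b2r a.isNone - b2r (κ v).isNone) := by
  unfold unO
  have h1 : w v * (b2r a.isNone - b2r (κ v).isNone) =
      ∑ x, (if x = v then w x * (b2r a.isNone - b2r (κ v).isNone) else 0) := by simp
  rw [h1, ← Finset.sum_add_distrib]
  refine Finset.sum_congr rfl fun x _ => ?_
  by_cases hx : x = v
  · subst hx
    rw [Function.update_self, if_pos rfl]
    ring
  · rw [Function.update_of_ne hx, if_neg hx, add_zero]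

/-- Removing a vertex. -/
theorem muO_rem {E : V → V → V → Bool} (hE : K4m E) (w : V → ℝ) (κ : V → Option (Fin 6)) (v : V) :
    muO E w κ = muO E w (Function.update κ v none) + 3 * (w v * mo E w κ (κ v) v) := by
  set κ' := Function.update κ v none with hκ'
  set f : (V → Option (Fin 6)) → V → V → V → ℝ := fun k x y z =>
    w x * w y * w z * (b2r (dO (k x) (k y) (k z)) * (1 - b2r (E x y z))) with hf
  have hv : κ' v = none := by rw [hκ']; exact Function.update_self _ _ _
  have hn : ∀ x, x ≠ v → κ' x = κ x := fun x hx => by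
    rw [hκ']; exact Function.update_of_ne hx _ _
  have d1 : ∀ b c, dO none b c = false := fun b c => rfl
  have d2 : ∀ b c, dO b none c = false := fun b c => by rw [dO_12]; rfl
  have d3 : ∀ b c, dO b c none = false := fun b c => by rw [dO_23, dO_12]; rfl
  have z0 : ∀ r : ℝ, b2r false * r = 0 := fun r => by simp [b2r]
  have hpt : ∀ x y z, f κ x y z = f κ' x y z + ((if x = v then f κ x y z else 0) +
      (if y = v then f κ x y z else 0) + (if z = v then f κ x y z else 0)) := by
    intro x y z
    by_cases hx : x = v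
    · have e1 : f κ' x y z = 0 := by
        rw [hf]; beta_reduce; rw [hx, hv, d1, z0, mul_zero]
      rw [e1, if_pos hx]
      by_cases hy : y = v
      · have e2 : f κ x y z = 0 := by
          rw [hf]; beta_reduce; rw [hx, hy, dO_self, z0, mul_zero]
        rw [e2]; simp
      · by_cases hz : z = v
        · have e2 : f κ x y z = 0 := by
            rw [hf]; beta_reduce; rw [hx, hz, dO_23, dO_self, z0, mul_zero]
          rw [e2]; simp
        · rw [if_neg hy, if_neg hz]; ring
    · rw [if_neg hx]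
      by_cases hy : y = v
      · have e1 : f κ' x y z = 0 := by
          rw [hf]; beta_reduce; rw [hy, hv, d2, z0, mul_zero]
        rw [e1, if_pos hy]
        by_cases hz : z = v
        · have e2 : f κ x y z = 0 := by
            rw [hf]; beta_reduce; rw [hy, hz, dO_12, dO_23, dO_self, z0, mul_zero]
          rw [e2]; simp
        · rw [if_neg hz]; ring
      · rw [if_neg hy]
        by_cases hz : z = v
        · have e1 : f κ' x y z = 0 := by
            rw [hf]; beta_reduce; rw [hz, hv, d3, z0, mul_zero]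
          rw [e1, if_pos hz]; ring
        · rw [if_neg hz]
          have e1 : f κ' x y z = f κ x y z := by
            rw [hf]; beta_reduce; rw [hn x hx, hn y hy, hn z hz]
          rw [e1]; ring
  have s0 : ∀ k : V → Option (Fin 6), muO E w k = ∑ x, ∑ y, ∑ z, f k x y z := fun k => rfl
  have s1 : ∑ x, ∑ y, ∑ z, (if x = v then f κ x y z else 0) = w v * mo E w κ (κ v) v := by
    rw [Finset.sum_eq_single v]
    · unfold mo
      rw [Finset.mul_sum]
      refine Finset.sum_congr rfl fun y _ => ?_
      rw [Finset.mul_sum]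
      refine Finset.sum_congr rfl fun z _ => ?_
      rw [if_pos rfl, hf]
      ring
    · intro x _ hx
      exact Finset.sum_eq_zero fun y _ => Finset.sum_eq_zero fun z _ => if_neg hx
    · intro h
      exact absurd (Finset.mem_univ _) h
  have s2 : ∑ x, ∑ y, ∑ z, (if y = v then f κ x y z else 0) = w v * mo E w κ (κ v) v := by
    rw [← s1, Finset.sum_comm]
    refine Finset.sum_congr rfl fun y _ => Finset.sum_congr rfl fun x _ =>
      Finset.sum_congr rfl fun z _ => ?_
    by_cases hy : y = v
    · rw [if_pos hy, if_pos hy, hf]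
      beta_reduce
      rw [dO_12, hE.s12]
      ring
    · rw [if_neg hy, if_neg hy]
  have s3 : ∑ x, ∑ y, ∑ z, (if z = v then f κ x y z else 0) = w v * mo E w κ (κ v) v := by
    rw [← s2]
    refine Finset.sum_congr rfl fun x _ => ?_
    rw [Finset.sum_comm]
    refine Finset.sum_congr rfl fun z _ => Finset.sum_congr rfl fun y _ => ?_
    by_cases hz : z = v
    · rw [if_pos hz, if_pos hz, hf]
      beta_reduce
      rw [dO_23, hE.s23]
      ring
    · rw [if_neg hz, if_neg hz]
  rw [s0 κ, s0 κ', Finset.sum_congr rfl fun x _ => Finset.sum_congr rfl fun y _ =>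
    Finset.sum_congr rfl fun z _ => hpt x y z]
  simp only [Finset.sum_add_distrib]
  rw [s1, s2, s3]
  ring

/-- Putting an unassigned vertex into a class does not change its missing pairs. -/
theorem mo_update {E : V → V → V → Bool} (w : V → ℝ) {κ : V → Option (Fin 6)} {v : V}
    (hv : κ v = none) (a : Option (Fin 6)) :
    mo E w (Function.update κ v a) a v = mo E w κ a v := by
  have z0 : ∀ r : ℝ, b2r false * r = 0 := fun r => by simp [b2r]
  unfold mo
  refine Finset.sum_congr rfl fun y _ => Finset.sum_congr rfl fun z _ => ?_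
  by_cases hy : y = v
  · subst hy
    rw [Function.update_self, dO_self, hv, dO_12 a none (κ z)]
    have : dO none a (κ z) = false := rfl
    rw [this, z0]
  · rw [Function.update_of_ne hy]
    by_cases hz : z = v
    · subst hz
      rw [Function.update_self, dO_23, dO_self, hv, dO_23 a (κ y) none, dO_12 a none (κ y)]
      have : dO none a (κ y) = false := rfl
      rw [this, z0]
    · rw [Function.update_of_ne hz]

end

/-! The number of switched vertices. -/

theorem cnt8 : ∀ i j : Fin 6, i ≠ j →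
    (∑ b : Fin 6, ∑ c : Fin 6, if D6 j b c = true ∧ D6 i b c = false then 1 else 0 : ℕ) = 8 := by
  decide

section
variable {V : Type} [Fintype V]

/-- Unmoved vertices of class `b`. -/
def unm (κ κ0 : V → Option (Fin 6)) (b : Fin 6) (v : V) : ℝ :=
  if κ v = some b ∧ κ0 v = some b then 1 else 0

/-- Switched vertices. -/
def swi (κ κ0 : V → Option (Fin 6)) (v : V) : ℝ :=
  if κ v ≠ none ∧ κ0 v ≠ none ∧ κ v ≠ κ0 v then 1 else 0

/-- Unmoved assigned vertices. -/
def una (κ κ0 : V → Option (Fin 6)) (v : V) : ℝ :=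
  if κ v ≠ none ∧ κ v = κ0 v then 1 else 0

theorem unm_ge {w : V → ℝ} (hw : ∀ v, 0 ≤ w v) (κ κ0 : V → Option (Fin 6)) (b : Fin 6) :
    xsO w κ0 b - dst w κ κ0 ≤ ∑ v, w v * unm κ κ0 b v := by
  unfold xsO dst unm
  rw [← Finset.sum_sub_distrib]
  refine Finset.sum_le_sum fun v _ => ?_
  rw [← mul_sub]
  refine mul_le_mul_of_nonneg_left ?_ (hw v)
  by_cases h0 : κ0 v = some b
  · by_cases h1 : κ v = some b
    · simp [b2r, h0, h1]
    · have h2 : ¬ (κ v = κ0 v) := fun h => h1 (h.trans h0)
      have h3 : ¬ (κ v = some b ∧ κ0 v = some b) := fun h => h1 h.1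
      rw [if_neg h2, if_neg h3, h0]
      simp [b2r]
  · have h3 : ¬ (κ v = some b ∧ κ0 v = some b) := fun h => h0 h.2
    rw [if_neg h3]
    have : b2r (decide (κ0 v = some b)) = 0 := by simp [b2r, h0]
    rw [this]
    split <;> norm_num

/-- Two disjoint alternatives for a switched vertex. -/
theorem pair_ge (E : V → V → V → Bool) (κ κ0 : V → Option (Fin 6)) {v : V} {i j : Fin 6}
    (hj : κ v = some j) (hi : κ0 v = some i) (y z : V) :
    (∑ b : Fin 6, ∑ c : Fin 6, (if D6 j b c = true ∧ D6 i b c = false then 1 else 0) *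
      (unm κ κ0 b y * unm κ κ0 c z)) ≤
    una κ κ0 y * una κ κ0 z * (b2r (dO (κ v) (κ y) (κ z)) * (1 - b2r (E v y z)) +
      b2r (bO (κ0 v) (κ0 y) (κ0 z)) * b2r (E v y z)) := by
  have hnn : 0 ≤ una κ κ0 y * una κ κ0 z * (b2r (dO (κ v) (κ y) (κ z)) * (1 - b2r (E v y z)) +
      b2r (bO (κ0 v) (κ0 y) (κ0 z)) * b2r (E v y z)) := by
    have h1 : 0 ≤ una κ κ0 y := by unfold una; split <;> norm_num
    have h2 : 0 ≤ una κ κ0 z := by unfold una; split <;> norm_num
    have h3 := b2r_nonneg (dO (κ v) (κ y) (κ z))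
    have h4 := b2r_nonneg (bO (κ0 v) (κ0 y) (κ0 z))
    have h5 := b2r_nonneg (E v y z)
    have h6 : 0 ≤ 1 - b2r (E v y z) := by linarith [b2r_le_one (E v y z)]
    positivity
  by_cases hy : κ y = κ0 y ∧ κ y ≠ none
  swap
  · refine le_trans (le_of_eq ?_) hnn
    refine Finset.sum_eq_zero fun b _ => Finset.sum_eq_zero fun c _ => ?_
    have : unm κ κ0 b y = 0 := by
      unfold unm
      rw [if_neg]
      intro h
      exact hy ⟨h.1.trans h.2.symm, by rw [h.1]; simp⟩
    rw [this]; ring
  by_cases hz : κ z = κ0 z ∧ κ z ≠ none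
  swap
  · refine le_trans (le_of_eq ?_) hnn
    refine Finset.sum_eq_zero fun b _ => Finset.sum_eq_zero fun c _ => ?_
    have : unm κ κ0 c z = 0 := by
      unfold unm
      rw [if_neg]
      intro h
      exact hz ⟨h.1.trans h.2.symm, by rw [h.1]; simp⟩
    rw [this]; ring
  obtain ⟨b0, hb0⟩ := Option.ne_none_iff_exists'.1 hy.2
  obtain ⟨c0, hc0⟩ := Option.ne_none_iff_exists'.1 hz.2
  have hb1 : κ0 y = some b0 := hy.1.symm.trans hb0
  have hc1 : κ0 z = some c0 := hz.1.symm.trans hc0
  have hL : (∑ b : Fin 6, ∑ c : Fin 6, (if D6 j b c = true ∧ D6 i b c = false then 1 else 0) *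
      (unm κ κ0 b y * unm κ κ0 c z)) =
      (if D6 j b0 c0 = true ∧ D6 i b0 c0 = false then (1 : ℝ) else 0) := by
    rw [Finset.sum_eq_single b0, Finset.sum_eq_single c0]
    · have e1 : unm κ κ0 b0 y = 1 := by unfold unm; rw [if_pos ⟨hb0, hb1⟩]
      have e2 : unm κ κ0 c0 z = 1 := by unfold unm; rw [if_pos ⟨hc0, hc1⟩]
      rw [e1, e2]; ring
    · intro c _ hc
      have e2 : unm κ κ0 c z = 0 := by
        unfold unm
        rw [if_neg]
        intro h
        exact hc (Option.some.inj (h.1.symm.trans hc0))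
      rw [e2]; ring
    · intro h
      exact absurd (Finset.mem_univ _) h
    · intro b _ hb
      refine Finset.sum_eq_zero fun c _ => ?_
      have e2 : unm κ κ0 b y = 0 := by
        unfold unm
        rw [if_neg]
        intro h
        exact hb (Option.some.inj (h.1.symm.trans hb0))
      rw [e2]; ring
    · intro h
      exact absurd (Finset.mem_univ _) h
  rw [hL]
  have u1 : una κ κ0 y = 1 := by unfold una; rw [if_pos ⟨hy.2, hy.1⟩]
  have u2 : una κ κ0 z = 1 := by unfold una; rw [if_pos ⟨hz.2, hz.1⟩]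
  by_cases hd : D6 j b0 c0 = true ∧ D6 i b0 c0 = false
  · have hbad : ∀ i j b c : Fin 6, D6 j b c = true → D6 i b c = false →
        bO (some i) (some b) (some c) = true := by decide
    have e1 : dO (κ v) (κ y) (κ z) = true := by
      rw [hj, hb0, hc0]; exact hd.1
    have e2 : bO (κ0 v) (κ0 y) (κ0 z) = true := by
      rw [hi, hb1, hc1]; exact hbad i j b0 c0 hd.1 hd.2
    rw [if_pos hd, u1, u2, e1, e2]
    have e3 : b2r true = 1 := by simp [b2r]
    rw [e3]
    linarith
  · rw [if_neg hd]
    exact hnn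

/-- The measure of the switched vertices. -/
theorem swi_le {E : V → V → V → Bool} (hE : K4m E) {w : V → ℝ} (hw : ∀ v, 0 ≤ w v)
    (κ κ0 : V → Option (Fin 6)) {m : ℝ} (hm : 0 ≤ m)
    (hx : ∀ b, m ≤ xsO w κ0 b - dst w κ κ0) :
    24 * m ^ 2 * ∑ v, w v * swi κ κ0 v ≤ muO E w κ + beO E w κ0 := by
  set G : V → V → V → ℝ := fun x y z => w x * w y * w z *
    (b2r (dO (κ x) (κ y) (κ z)) * (1 - b2r (E x y z)) +
      b2r (bO (κ0 x) (κ0 y) (κ0 z)) * b2r (E x y z)) with hG
  have G0 : ∀ x y z, 0 ≤ G x y z := by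
    intro x y z
    have h3 := b2r_nonneg (dO (κ x) (κ y) (κ z))
    have h4 := b2r_nonneg (bO (κ0 x) (κ0 y) (κ0 z))
    have h5 := b2r_nonneg (E x y z)
    have h6 : 0 ≤ 1 - b2r (E x y z) := by linarith [b2r_le_one (E x y z)]
    have h7 := hw x
    have h8 := hw y
    have h9 := hw z
    rw [hG]
    positivity
  have g1 : ∀ x y z, G y x z = G x y z := by
    intro x y z
    rw [hG]; beta_reduce
    rw [dO_12 (κ y), bO_12 (κ0 y), hE.s12 y]
    ring
  have g2 : ∀ x y z, G x z y = G x y z := by
    intro x y z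
    rw [hG]; beta_reduce
    rw [dO_23 _ (κ z), bO_23 _ (κ0 z), hE.s23 _ z]
    ring
  have tot : ∑ x, ∑ y, ∑ z, G x y z = muO E w κ + beO E w κ0 := by
    unfold muO beO
    simp only [← Finset.sum_add_distrib]
    refine Finset.sum_congr rfl fun x _ => Finset.sum_congr rfl fun y _ =>
      Finset.sum_congr rfl fun z _ => ?_
    rw [hG]; ring
  set S := swi κ κ0 with hS
  set U := una κ κ0 with hU
  have S01 : ∀ v, S v = 0 ∨ S v = 1 := by
    intro v; rw [hS]; unfold swi; split
    · exact Or.inr rfl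
    · exact Or.inl rfl
  have U01 : ∀ v, U v = 0 ∨ U v = 1 := by
    intro v; rw [hU]; unfold una; split
    · exact Or.inr rfl
    · exact Or.inl rfl
  have SU : ∀ v, S v = 1 → U v = 0 := by
    intro v hv
    rw [hS] at hv
    rw [hU]
    unfold swi at hv
    unfold una
    by_cases h : κ v ≠ none ∧ κ0 v ≠ none ∧ κ v ≠ κ0 v
    · rw [if_neg (fun h2 => h.2.2 h2.2)]
    · rw [if_neg h] at hv
      norm_num at hv
  have hp : ∀ x y z, S x * (U y * U z) + S y * (U x * U z) + S z * (U x * U y) ≤ 1 := by
    intro x y z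
    rcases S01 x with hx1 | hx1 <;> rcases S01 y with hy1 | hy1 <;>
      rcases S01 z with hz1 | hz1 <;> rw [hx1, hy1, hz1] <;>
      rcases U01 x with ux | ux <;> rcases U01 y with uy | uy <;>
      rcases U01 z with uz | uz <;>
      first
        | (rw [ux, uy, uz]; norm_num; done)
        | (exfalso; have := SU x hx1; rw [ux] at this; norm_num at this; done)
        | (exfalso; have := SU y hy1; rw [uy] at this; norm_num at this; done)
        | (exfalso; have := SU z hz1; rw [uz] at this; norm_num at this; done)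
  have q1 : ∑ x, ∑ y, ∑ z, S y * (U x * U z) * G x y z =
      ∑ x, ∑ y, ∑ z, S x * (U y * U z) * G x y z := by
    rw [Finset.sum_comm]
    refine Finset.sum_congr rfl fun x _ => Finset.sum_congr rfl fun y _ =>
      Finset.sum_congr rfl fun z _ => ?_
    rw [g1]
  have q2 : ∑ x, ∑ y, ∑ z, S z * (U x * U y) * G x y z =
      ∑ x, ∑ y, ∑ z, S y * (U x * U z) * G x y z := by
    refine Finset.sum_congr rfl fun x _ => ?_
    rw [Finset.sum_comm]
    refine Finset.sum_congr rfl fun y _ =>
      Finset.sum_congr rfl fun z _ => ?_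
    rw [g2]
  have h3 : 3 * ∑ x, ∑ y, ∑ z, S x * (U y * U z) * G x y z ≤ muO E w κ + beO E w κ0 := by
    rw [← tot]
    calc 3 * ∑ x, ∑ y, ∑ z, S x * (U y * U z) * G x y z =
        ∑ x, ∑ y, ∑ z, (S x * (U y * U z) + S y * (U x * U z) + S z * (U x * U y)) *
          G x y z := by
          simp only [add_mul, Finset.sum_add_distrib]
          rw [q2, q1]
          ring
      _ ≤ _ := Finset.sum_le_sum fun x _ => Finset.sum_le_sum fun y _ =>
          Finset.sum_le_sum fun z _ => by
            have := mul_le_mul_of_nonneg_right (hp x y z) (G0 x y z)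
            rwa [one_mul] at this
  refine le_trans ?_ h3
  have h4 : ∀ v, 8 * m ^ 2 * (w v * S v) ≤ ∑ y, ∑ z, S v * (U y * U z) * G v y z := by
    intro v
    by_cases hv : κ v ≠ none ∧ κ0 v ≠ none ∧ κ v ≠ κ0 v
    swap
    · have : S v = 0 := by rw [hS]; unfold swi; rw [if_neg hv]
      rw [this]
      simp
    have hs1 : S v = 1 := by rw [hS]; unfold swi; rw [if_pos hv]
    obtain ⟨j, hj⟩ := Option.ne_none_iff_exists'.1 hv.1
    obtain ⟨i, hi⟩ := Option.ne_none_iff_exists'.1 hv.2.1
    have hij : i ≠ j := by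
      intro h
      apply hv.2.2
      rw [hj, hi, h]
    rw [hs1]
    have h5 : w v * (∑ b : Fin 6, ∑ c : Fin 6,
        (if D6 j b c = true ∧ D6 i b c = false then 1 else 0) *
        ((∑ y, w y * unm κ κ0 b y) * (∑ z, w z * unm κ κ0 c z))) ≤
        ∑ y, ∑ z, 1 * (U y * U z) * G v y z := by
      have e1 : (∑ b : Fin 6, ∑ c : Fin 6,
        (if D6 j b c = true ∧ D6 i b c = false then (1 : ℝ) else 0) *
        ((∑ y, w y * unm κ κ0 b y) * (∑ z, w z * unm κ κ0 c z))) =
        ∑ y, ∑ z, w y * w z * (∑ b : Fin 6, ∑ c : Fin 6,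
          (if D6 j b c = true ∧ D6 i b c = false then 1 else 0) *
          (unm κ κ0 b y * unm κ κ0 c z)) := by
        have e0 : ∀ b c : Fin 6, (if D6 j b c = true ∧ D6 i b c = false then (1 : ℝ) else 0) *
            ((∑ y, w y * unm κ κ0 b y) * (∑ z, w z * unm κ κ0 c z)) =
            ∑ y, ∑ z, (if D6 j b c = true ∧ D6 i b c = false then (1 : ℝ) else 0) *
            ((w y * unm κ κ0 b y) * (w z * unm κ κ0 c z)) := by
          intro b c
          rw [Finset.sum_mul_sum, Finset.mul_sum]
          refine Finset.sum_congr rfl fun y _ => ?_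
          rw [Finset.mul_sum]
        simp only [e0]
        rw [Finset.sum_congr rfl fun b _ => Finset.sum_comm]
        rw [Finset.sum_comm]
        refine Finset.sum_congr rfl fun y _ => ?_
        rw [Finset.sum_congr rfl fun b _ => Finset.sum_comm]
        rw [Finset.sum_comm]
        refine Finset.sum_congr rfl fun z _ => ?_
        rw [Finset.mul_sum]
        refine Finset.sum_congr rfl fun b _ => ?_
        rw [Finset.mul_sum]
        refine Finset.sum_congr rfl fun c _ => ?_
        ring
      rw [e1, Finset.mul_sum]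
      refine Finset.sum_le_sum fun y _ => ?_
      rw [Finset.mul_sum]
      refine Finset.sum_le_sum fun z _ => ?_
      have h6 := pair_ge E κ κ0 hj hi y z
      have h7 : 0 ≤ w v * w y * w z := mul_nonneg (mul_nonneg (hw v) (hw y)) (hw z)
      have h8 := mul_le_mul_of_nonneg_left h6 h7
      calc w v * (w y * w z * _) = w v * w y * w z * _ := by ring
        _ ≤ _ := h8
        _ = _ := by rw [hG]; ring
    refine le_trans ?_ h5
    have h9 : 8 * m ^ 2 ≤ ∑ b : Fin 6, ∑ c : Fin 6,
        (if D6 j b c = true ∧ D6 i b c = false then 1 else 0) *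
        ((∑ y, w y * unm κ κ0 b y) * (∑ z, w z * unm κ κ0 c z)) := by
      have c8 : (∑ b : Fin 6, ∑ c : Fin 6,
          (if D6 j b c = true ∧ D6 i b c = false then (1 : ℝ) else 0)) = 8 := by
        have := cnt8 i j hij
        have h10 : ((∑ b : Fin 6, ∑ c : Fin 6,
          if D6 j b c = true ∧ D6 i b c = false then 1 else 0 : ℕ) : ℝ) = ((8 : ℕ) : ℝ) := by
          rw [this]
        push_cast at h10
        exact h10
      rw [← c8, Finset.sum_mul]
      refine Finset.sum_le_sum fun b _ => ?_
      rw [Finset.sum_mul]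
      refine Finset.sum_le_sum fun c _ => ?_
      have hb := (hx b).trans (unm_ge hw κ κ0 b)
      have hc := (hx c).trans (unm_ge hw κ κ0 c)
      refine mul_le_mul_of_nonneg_left ?_ (by split <;> norm_num)
      rw [sq]
      exact mul_le_mul hb hc hm (hm.trans hb)
    have := mul_le_mul_of_nonneg_left h9 (hw v)
    linarith
  have h11 := Finset.sum_le_sum fun v (_ : v ∈ (Finset.univ : Finset V)) => h4 v
  rw [← Finset.mul_sum] at h11
  linarith

/-- The distance is controlled by the switched and the unassigned vertices. -/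
theorem dst_le {w : V → ℝ} (hw : ∀ v, 0 ≤ w v) (κ κ0 : V → Option (Fin 6)) :
    dst w κ κ0 ≤ (∑ v, w v * swi κ κ0 v) + unO w κ + unO w κ0 := by
  unfold dst unO
  rw [← Finset.sum_add_distrib, ← Finset.sum_add_distrib]
  refine Finset.sum_le_sum fun v _ => ?_
  rw [← mul_add, ← mul_add]
  refine mul_le_mul_of_nonneg_left ?_ (hw v)
  have s0 : 0 ≤ swi κ κ0 v := by unfold swi; split <;> norm_num
  have b1 := b2r_nonneg (κ v).isNone
  have b2 := b2r_nonneg (κ0 v).isNone
  by_cases h : κ v = κ0 v
  · rw [if_pos h]; positivity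
  · rw [if_neg h]
    cases h1 : κ v with
    | none =>
      have : b2r (none : Option (Fin 6)).isNone = 1 := by simp [b2r]
      rw [this]; linarith
    | some j =>
      cases h2 : κ0 v with
      | none =>
        have : b2r (none : Option (Fin 6)).isNone = 1 := by simp [b2r]
        rw [this]
        have h3 := b2r_nonneg (some j : Option (Fin 6)).isNone
        linarith
      | some i =>
        have : swi κ κ0 v = 1 := by
          unfold swi
          rw [if_pos ⟨by rw [h1]; simp, by rw [h2]; simp, h⟩]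
        rw [this]
        have h3 := b2r_nonneg (some j : Option (Fin 6)).isNone
        have h4 := b2r_nonneg (some i : Option (Fin 6)).isNone
        linarith

/-- Extremal partial partitions. -/
theorem extremal {E : V → V → V → Bool} (hE : K4m E) {w : V → ℝ} (hw : ∀ v, 0 ≤ w v)
    (κ0 : V → Option (Fin 6)) {lam Φ0 β0 xlo ρ ω : ℝ} (hlam : 0 < lam)
    (hΦ : muO E w κ0 + lam * unO w κ0 ≤ Φ0) (hβ : beO E w κ0 ≤ β0)
    (hx : ∀ b, xlo ≤ xsO w κ0 b) (hρ : ρ < xlo) (hω : ∀ v, w v ≤ ω) (hρ0 : 0 ≤ ρ)
    (hc : (Φ0 + β0) / (24 * (xlo - ρ) ^ 2) + 2 * Φ0 / lam + ω ≤ ρ) :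
    ∃ κ : V → Option (Fin 6), muO E w κ + lam * unO w κ ≤ Φ0 ∧
      dst w κ κ0 ≤ (Φ0 + β0) / (24 * (xlo - ρ) ^ 2) + 2 * Φ0 / lam ∧
      (∀ v, κ v ≠ none → mo E w κ (κ v) v ≤ lam / 3 ∨ w v = 0) ∧
      (∀ v, κ v = none → ∀ i : Fin 6, lam / 3 ≤ mo E w κ (some i) v ∨ w v = 0) := by
  classical
  set Φ : (V → Option (Fin 6)) → ℝ := fun k => muO E w k + lam * unO w k with hΦd
  set B : Finset (V → Option (Fin 6)) := Finset.univ.filter (fun k => dst w k κ0 ≤ ρ) with hB
  have h0B : κ0 ∈ B := by
    rw [hB, Finset.mem_filter]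
    exact ⟨Finset.mem_univ _, by rw [dst_self]; exact hρ0⟩
  obtain ⟨κ, hκB, hκ⟩ := Finset.exists_min_image B Φ ⟨κ0, h0B⟩
  have hκρ : dst w κ κ0 ≤ ρ := by
    rw [hB, Finset.mem_filter] at hκB
    exact hκB.2
  have h1 : Φ κ ≤ Φ0 := (hκ κ0 h0B).trans hΦ
  have hm : 0 < xlo - ρ := by linarith
  have hu1 : unO w κ ≤ Φ0 / lam := by
    rw [le_div_iff₀ hlam]
    have := muO_nonneg E hw κ
    have h2 : muO E w κ + lam * unO w κ ≤ Φ0 := h1
    linarith
  have hu2 : unO w κ0 ≤ Φ0 / lam := by
    rw [le_div_iff₀ hlam]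
    have := muO_nonneg E hw κ0
    linarith
  have hsw : ∑ v, w v * swi κ κ0 v ≤ (Φ0 + β0) / (24 * (xlo - ρ) ^ 2) := by
    rw [le_div_iff₀ (by positivity)]
    have h2 := swi_le hE hw κ κ0 hm.le (fun b => by linarith [hx b])
    have h3 : muO E w κ + lam * unO w κ ≤ Φ0 := h1
    have h4 := unO_nonneg hw κ
    nlinarith
  have hd : dst w κ κ0 ≤ (Φ0 + β0) / (24 * (xlo - ρ) ^ 2) + 2 * Φ0 / lam := by
    have h2 := dst_le hw κ κ0
    have h3 : 2 * Φ0 / lam = Φ0 / lam + Φ0 / lam := by ring
    linarith
  have hmove : ∀ (v : V) (a : Option (Fin 6)), Φ κ ≤ Φ (Function.update κ v a) := by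
    intro v a
    refine hκ _ ?_
    rw [hB, Finset.mem_filter]
    refine ⟨Finset.mem_univ _, ?_⟩
    have h2 := dst_update hw κ κ0 v a
    have h3 := hω v
    linarith
  refine ⟨κ, h1, hd, ?_, ?_⟩
  · intro v hv
    by_cases hw0 : w v = 0
    · exact Or.inr hw0
    left
    have hwv : 0 < w v := lt_of_le_of_ne (hw v) (Ne.symm hw0)
    have h2 := hmove v none
    have h3 := muO_rem hE w κ v
    have h4 := unO_update w κ v none
    have h5 : b2r (none : Option (Fin 6)).isNone = 1 := by simp [b2r]
    have h6 : b2r (κ v).isNone = 0 := by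
      obtain ⟨j, hj⟩ := Option.ne_none_iff_exists'.1 hv
      rw [hj]; simp [b2r]
    have h7 : muO E w κ + lam * unO w κ ≤ muO E w (Function.update κ v none) +
        lam * unO w (Function.update κ v none) := h2
    rw [h4, h5, h6, h3] at h7
    have h8 : 3 * (w v * mo E w κ (κ v) v) ≤ lam * w v := by nlinarith
    have h9 : w v * (3 * mo E w κ (κ v) v) ≤ w v * lam := by linarith
    have h10 := le_of_mul_le_mul_left h9 hwv
    linarith
  · intro v hv i
    by_cases hw0 : w v = 0
    · exact Or.inr hw0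
    left
    have hwv : 0 < w v := lt_of_le_of_ne (hw v) (Ne.symm hw0)
    have h2 := hmove v (some i)
    have h3 := muO_rem hE w (Function.update κ v (some i)) v
    rw [Function.update_self, mo_update w hv (some i)] at h3
    have e0 : Function.update (Function.update κ v (some i)) v none = κ := by
      rw [Function.update_idem]
      rw [← hv]
      exact Function.update_eq_self v κ
    rw [e0] at h3
    have h4 := unO_update w κ v (some i)
    have h5 : b2r (κ v).isNone = 1 := by rw [hv]; simp [b2r]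
    have h6 : b2r (some i : Option (Fin 6)).isNone = 0 := by simp [b2r]
    have h7 : muO E w κ + lam * unO w κ ≤ muO E w (Function.update κ v (some i)) +
        lam * unO w (Function.update κ v (some i)) := h2
    rw [h4, h5, h6, h3] at h7
    have h9 : w v * lam ≤ w v * (3 * mo E w κ (some i) v) := by nlinarith
    have h10 := le_of_mul_le_mul_left h9 hwv
    linarith

end

end KT
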