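import Pool.Agent.Helper20.KT.X1

set_option autoImplicit false

/-!
Weights of single vertices; degree identities and linear size bounds for partial partitions.
-/

namespace KT

open Finset KF

section
variable {V : Type} [Fintype V]

/-- A single vertex of a nearly optimal configuration has small weight. -/
theorem w_small {E : V → V → V → Bool} {w : V → ℝ} (ho : Opt E w) (v : V) :
    L * w v ^ 3 ≤ L - dens E w := by
  classical
  have h := ineqR ho.free ho.wt (c := fun x => if x = v then (1 : ℝ) else 0)
    (fun x => by positivity) (fun x => by split <;> norm_num)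
  rw [Ev_three w (fun x y z => 3 * ((if x = v then (1 : ℝ) else 0) * (if y = v then (1 : ℝ) else 0) *
    b2r (E x y z)) - 2 * ((if x = v then (1 : ℝ) else 0) * (if y = v then (1 : ℝ) else 0) *
    (if z = v then (1 : ℝ) else 0) * b2r (E x y z)) -
    L * ((if x = v then (1 : ℝ) else 0) * (if y = v then (1 : ℝ) else 0) *
    (if z = v then (1 : ℝ) else 0)))] at h
  have h2 : ∑ x, ∑ y, ∑ z, w x * w y * w z * (3 * ((if x = v then (1 : ℝ) else 0) *
      (if y = v then (1 : ℝ) else 0) *
      b2r (E x y z)) - 2 * ((if x = v then (1 : ℝ) else 0) * (if y = v then (1 : ℝ) else 0) *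
      (if z = v then (1 : ℝ) else 0) * b2r (E x y z)) -
      L * ((if x = v then (1 : ℝ) else 0) * (if y = v then (1 : ℝ) else 0) *
      (if z = v then (1 : ℝ) else 0))) =
      ∑ x, ∑ y, ∑ z, (if x = v then (if y = v then (if z = v then - L * w v ^ 3 else 0) else 0)
        else 0) := by
    refine Finset.sum_congr rfl fun x _ => Finset.sum_congr rfl fun y _ =>
      Finset.sum_congr rfl fun z _ => ?_
    by_cases hx : x = v
    · by_cases hy : y = v
      · have h3 : E x y z = false := by rw [hx, hy]; exact ho.free.irr _ _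
        rw [h3, b2r_false]
        by_cases hz : z = v
        · rw [if_pos hx, if_pos hy, if_pos hz, if_pos hx, if_pos hy, if_pos hz, hx, hy, hz]
          ring
        · rw [if_pos hx, if_pos hy, if_neg hz, if_pos hx, if_pos hy, if_neg hz]
          ring
      · rw [if_pos hx, if_neg hy, if_pos hx, if_neg hy]
        ring
    · rw [if_neg hx, if_neg hx]
      ring
  rw [h2] at h
  have h5 : ∑ x, ∑ y, ∑ z, (if x = v then (if y = v then (if z = v then - L * w v ^ 3 else 0) else 0)
        else 0) = - L * w v ^ 3 := by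
    rw [Finset.sum_eq_single v]
    · rw [Finset.sum_eq_single v]
      · rw [Finset.sum_eq_single v]
        · simp
        · intro z _ hz
          simp [hz]
        · intro h6
          exact absurd (Finset.mem_univ v) h6
      · intro y _ hy
        simp [hy]
      · intro h6
        exact absurd (Finset.mem_univ v) h6
    · intro x _ hx
      simp [hx]
    · intro h6
      exact absurd (Finset.mem_univ v) h6
  rw [h5] at h
  linarith

/-- Bad pairs at `v` if it is put into the optional class `a`. -/
noncomputable def bo (E : V → V → V → Bool) (w : V → ℝ) (κ : V → Option (Fin 6))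
    (a : Option (Fin 6)) (v : V) : ℝ :=
  ∑ y, ∑ z, w y * w z * (b2r (bO a (κ y) (κ z)) * b2r (E v y z))

/-- Pairs inside the class `a` in the link of `v`. -/
noncomputable def io (E : V → V → V → Bool) (w : V → ℝ) (κ : V → Option (Fin 6))
    (a : Option (Fin 6)) (v : V) : ℝ :=
  ∑ y, ∑ z, w y * w z * (b2r (decide (κ y = a) && decide (κ z = a)) * b2r (E v y z))

/-- Pairs with an unassigned vertex in the link of `v`. -/
noncomputable def ro (E : V → V → V → Bool) (w : V → ℝ) (κ : V → Option (Fin 6)) (v : V) : ℝ :=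
  ∑ y, ∑ z, w y * w z * (b2r ((κ y).isNone || (κ z).isNone) * b2r (E v y z))

/-- Number of block pairs at the class `i`, as a polynomial of the sizes. -/
noncomputable def PO (w : V → ℝ) (κ : V → Option (Fin 6)) (i : Fin 6) : ℝ :=
  ∑ j, ∑ k, b2r (D6 i j k) * (xsO w κ j * xsO w κ k)

variable {w : V → ℝ} {κ : V → Option (Fin 6)}

/-- Decomposition of a function of an optional class. -/
theorem opt_sum (f : Option (Fin 6) → ℝ) (h : f none = 0) (a : Option (Fin 6)) :
    f a = ∑ j, b2r (decide (a = some j)) * f (some j) := by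
  cases a with
  | none =>
    rw [h]
    refine (Finset.sum_eq_zero fun j _ => ?_).symm
    simp [b2r]
  | some i =>
    rw [Finset.sum_eq_single i]
    · simp [b2r]
    · intro j _ hj
      have : (decide ((some i : Option (Fin 6)) = some j)) = false := by
        simp only [decide_eq_false_iff_not, Option.some.injEq]
        exact fun h => hj h.symm
      rw [this, b2r_false, zero_mul]
    · intro h
      exact absurd (Finset.mem_univ i) h

theorem sum1 (w : V → ℝ) (κ : V → Option (Fin 6)) (f : Option (Fin 6) → ℝ) (h : f none = 0) :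
    ∑ y, w y * f (κ y) = ∑ j, xsO w κ j * f (some j) := by
  have h1 : ∀ y, w y * f (κ y) = ∑ j, w y * b2r (decide (κ y = some j)) * f (some j) := fun y => by
    rw [opt_sum f h (κ y), Finset.mul_sum]
    exact Finset.sum_congr rfl fun j _ => by ring
  simp only [h1]
  rw [Finset.sum_comm]
  refine Finset.sum_congr rfl fun j _ => ?_
  rw [← Finset.sum_mul]
  rfl

theorem sum2 (w : V → ℝ) (κ : V → Option (Fin 6)) (f : Option (Fin 6) → Option (Fin 6) → ℝ)
    (h1 : ∀ b, f none b = 0) (h2 : ∀ a, f a none = 0) :
    ∑ y, ∑ z, w y * w z * f (κ y) (κ z) = ∑ j, ∑ k, xsO w κ j * xsO w κ k * f (some j) (some k) := by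
  have e1 : ∀ y, ∑ z, w y * w z * f (κ y) (κ z) =
      w y * ∑ k, xsO w κ k * f (κ y) (some k) := fun y => by
    rw [← sum1 w κ (f (κ y)) (h2 _), Finset.mul_sum]
    exact Finset.sum_congr rfl fun z _ => by ring
  simp only [e1]
  rw [sum1 w κ (fun a => ∑ k, xsO w κ k * f a (some k))
    (Finset.sum_eq_zero fun k _ => by rw [h1, mul_zero])]
  refine Finset.sum_congr rfl fun j _ => ?_
  rw [Finset.mul_sum]
  exact Finset.sum_congr rfl fun k _ => by ring

/-- The sizes of the classes and the unassigned part. -/
theorem xs_sum (w : V → ℝ) (κ : V → Option (Fin 6)) : ∑ i, xsO w κ i + unO w κ = ∑ v, w v := by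
  have h := sum1 w κ (fun a => b2r a.isSome) (by simp [b2r])
  have h2 : ∀ j : Fin 6, b2r (some j : Option (Fin 6)).isSome = 1 := fun j => by simp [b2r]
  simp only [h2, mul_one] at h
  rw [← h]
  unfold unO
  rw [← Finset.sum_add_distrib]
  refine Finset.sum_congr rfl fun v _ => ?_
  cases κ v <;> simp [b2r]

theorem PO_eq (w : V → ℝ) (κ : V → Option (Fin 6)) (i : Fin 6) :
    ∑ y, ∑ z, w y * w z * b2r (dO (some i) (κ y) (κ z)) = PO w κ i := by
  rw [sum2 w κ (fun a b => b2r (dO (some i) a b)) (fun b => rfl) (fun a => by cases a <;> rfl)]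
  unfold PO
  refine Finset.sum_congr rfl fun j _ => Finset.sum_congr rfl fun k _ => ?_
  change _ * b2r (D6 i j k) = _
  ring

/-- Splitting of a pair of optional classes. -/
theorem split4 (i : Fin 6) (a b : Option (Fin 6)) :
    b2r (dO (some i) a b) + b2r (decide (a = some i) && decide (b = some i)) +
      b2r (bO (some i) a b) + b2r (a.isNone || b.isNone) = 1 := by
  have h : ∀ i j k : Fin 6, (if dO (some i) (some j) (some k) then (1 : ℕ) else 0) +
      (if (decide (some j = some i) && decide (some k = some i)) then 1 else 0) +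
      (if bO (some i) (some j) (some k) then 1 else 0) = 1 := by decide
  cases a with
  | none =>
    have e1 : dO (some i) none b = false := rfl
    have e2 : bO (some i) none b = false := rfl
    rw [e1, e2]
    simp [b2r]
  | some j =>
    cases b with
    | none =>
      have e1 : dO (some i) (some j) none = false := rfl
      have e2 : bO (some i) (some j) none = false := rfl
      rw [e1, e2]
      simp [b2r]
    | some k =>
      have h1 := h i j k
      have h2 : ((some j : Option (Fin 6)).isNone || (some k : Option (Fin 6)).isNone) = false := rfl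
      rw [h2, b2r_false, add_zero]
      unfold b2r
      exact_mod_cast h1

/-- The degree of a vertex, split with respect to the class `i`. -/
theorem deg_split (E : V → V → V → Bool) (w : V → ℝ) (κ : V → Option (Fin 6)) (i : Fin 6) (v : V) :
    deg E w v = PO w κ i - mo E w κ (some i) v + io E w κ (some i) v + bo E w κ (some i) v +
      ro E w κ v := by
  rw [← PO_eq]
  unfold deg mo io bo ro
  simp only [← Finset.sum_sub_distrib, ← Finset.sum_add_distrib]
  refine Finset.sum_congr rfl fun y _ => Finset.sum_congr rfl fun z _ => ?_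
  have h := split4 i (κ y) (κ z)
  have h2 : b2r (E v y z) = b2r (E v y z) * (b2r (dO (some i) (κ y) (κ z)) +
      b2r (decide (κ y = some i) && decide (κ z = some i)) +
      b2r (bO (some i) (κ y) (κ z)) + b2r ((κ y).isNone || (κ z).isNone)) := by
    rw [h, mul_one]
  linear_combination (w y * w z) * h2

theorem mo_nonneg (E : V → V → V → Bool) (hw : ∀ v, 0 ≤ w v) (a : Option (Fin 6)) (v : V) :
    0 ≤ mo E w κ a v :=
  Finset.sum_nonneg fun y _ => Finset.sum_nonneg fun z _ =>
    mul_nonneg (mul_nonneg (hw y) (hw z))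
      (mul_nonneg (b2r_nonneg _) (by linarith [b2r_le_one (E v y z)]))

theorem bo_nonneg (E : V → V → V → Bool) (hw : ∀ v, 0 ≤ w v) (a : Option (Fin 6)) (v : V) :
    0 ≤ bo E w κ a v :=
  Finset.sum_nonneg fun y _ => Finset.sum_nonneg fun z _ =>
    mul_nonneg (mul_nonneg (hw y) (hw z)) (mul_nonneg (b2r_nonneg _) (b2r_nonneg _))

theorem io_nonneg (E : V → V → V → Bool) (hw : ∀ v, 0 ≤ w v) (a : Option (Fin 6)) (v : V) :
    0 ≤ io E w κ a v :=
  Finset.sum_nonneg fun y _ => Finset.sum_nonneg fun z _ =>
    mul_nonneg (mul_nonneg (hw y) (hw z)) (mul_nonneg (b2r_nonneg _) (b2r_nonneg _))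

theorem ro_nonneg (E : V → V → V → Bool) (hw : ∀ v, 0 ≤ w v) (v : V) :
    0 ≤ ro E w κ v :=
  Finset.sum_nonneg fun y _ => Finset.sum_nonneg fun z _ =>
    mul_nonneg (mul_nonneg (hw y) (hw z)) (mul_nonneg (b2r_nonneg _) (b2r_nonneg _))

theorem xsO_nonneg (hw : ∀ v, 0 ≤ w v) (i : Fin 6) : 0 ≤ xsO w κ i :=
  Finset.sum_nonneg fun y _ => mul_nonneg (hw y) (b2r_nonneg _)

/-- Pairs with an unassigned vertex in the link of `v`: at most twice the codegree with the
unassigned set. -/
theorem ro_le {E : V → V → V → Bool} (ho : Opt E w) (κ : V → Option (Fin 6)) (v : V) :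
    ro E w κ v ≤ 2 * ∑ z, w z * b2r (κ z).isNone * cod E w v z := by
  have hw := ho.wt.nn
  have h1 : ro E w κ v ≤ ∑ y, ∑ z, (w y * w z * (b2r (κ y).isNone * b2r (E v y z)) +
      w y * w z * (b2r (κ z).isNone * b2r (E v y z))) := by
    unfold ro
    refine Finset.sum_le_sum fun y _ => Finset.sum_le_sum fun z _ => ?_
    rw [← mul_add, ← add_mul]
    refine mul_le_mul_of_nonneg_left ?_ (mul_nonneg (hw y) (hw z))
    refine mul_le_mul_of_nonneg_right ?_ (b2r_nonneg _)
    cases (κ y).isNone <;> cases (κ z).isNone <;> simp [b2r]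
  refine h1.trans (le_of_eq ?_)
  simp only [Finset.sum_add_distrib]
  have h2 : ∑ y, ∑ z, w y * w z * (b2r (κ y).isNone * b2r (E v y z)) =
      ∑ z, w z * b2r (κ z).isNone * cod E w v z := by
    refine Finset.sum_congr rfl fun y _ => ?_
    unfold cod
    rw [Finset.mul_sum]
    exact Finset.sum_congr rfl fun z _ => by ring
  have h3 : ∑ y, ∑ z, w y * w z * (b2r (κ z).isNone * b2r (E v y z)) =
      ∑ z, w z * b2r (κ z).isNone * cod E w v z := by
    rw [Finset.sum_comm]
    refine Finset.sum_congr rfl fun y _ => ?_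
    unfold cod
    rw [Finset.mul_sum]
    refine Finset.sum_congr rfl fun z _ => ?_
    rw [ho.free.s23 v z y]
    ring
  rw [h2, h3]
  ring

theorem ro_le' {E : V → V → V → Bool} (ho : Opt E w) (κ : V → Option (Fin 6)) (v : V) :
    ro E w κ v ≤ 4 * dens E w * unO w κ := by
  refine (ro_le ho κ v).trans ?_
  have h : ∑ z, w z * b2r (κ z).isNone * cod E w v z ≤ ∑ z, w z * b2r (κ z).isNone * (2 * dens E w) :=
    Finset.sum_le_sum fun z _ => mul_le_mul_of_nonneg_left (cod_le_two ho _ _)
      (mul_nonneg (ho.wt.nn z) (b2r_nonneg _))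
  rw [← Finset.sum_mul] at h
  unfold unO
  linarith

end

end KT
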