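import Pool.Agent.Helper20.KT.X2
import Pool.Agent.Helper64.K4.PE

set_option autoImplicit false

/-!
Degree identities in terms of the deviations of the sizes; class averages; linear size bounds.
-/

namespace KT

open Finset KF KC

section
variable {V : Type} [Fintype V] {κ : V → Option (Fin 6)} {E : V → V → V → Bool} {w : V → ℝ}

theorem PO_t (hw : Wt w) (i : Fin 6) : PO w κ i = 10 / 36 * (1 - unO w κ) ^ 2 -
    2 / 3 * (1 - unO w κ) * tO w κ i + KB.qq (tO w κ) i := by
  rw [← P_exp (sum_tO hw) i]
  unfold PO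
  refine Finset.sum_congr rfl fun j _ => Finset.sum_congr rfl fun k _ => ?_
  rw [xsO_tO j, xsO_tO k]
  ring

/-- The bad degree with respect to the class `i`. -/
theorem bo_eq (ho : Opt E w) (i : Fin 6) (v : V) :
    bo E w κ (some i) v + ro E w κ v + io E w κ (some i) v =
      dens E w - 10 / 36 * (1 - unO w κ) ^ 2 + 2 / 3 * (1 - unO w κ) * tO w κ i -
        KB.qq (tO w κ) i + mo E w κ (some i) v := by
  have h := deg_split E w κ i v
  rw [ho.reg v, PO_t ho.wt i] at h
  linarith

theorem bo_le (ho : Opt E w) (i : Fin 6) (v : V) :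
    bo E w κ (some i) v ≤
      dens E w - 10 / 36 * (1 - unO w κ) ^ 2 + 2 / 3 * (1 - unO w κ) * tO w κ i +
        2 * ∑ j, tO w κ j ^ 2 + mo E w κ (some i) v := by
  have h := bo_eq (κ := κ) ho i v
  have h1 := KB.qq_ge (t := tO w κ) i
  have h2 := ro_nonneg (κ := κ) E ho.wt.nn v
  have h3 := io_nonneg (κ := κ) E ho.wt.nn (some i) v
  linarith

/-- Class sums. -/
noncomputable def clO (w : V → ℝ) (κ : V → Option (Fin 6)) (i : Fin 6) (f : V → ℝ) : ℝ :=
  ∑ v, w v * icO κ i v * f v

theorem clO_nn (hw : ∀ v, 0 ≤ w v) (i : Fin 6) {f : V → ℝ} (hf : ∀ v, 0 ≤ f v) :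
    0 ≤ clO w κ i f :=
  Finset.sum_nonneg fun v _ => mul_nonneg (mul_nonneg (hw v) (icO_nn i v)) (hf v)

theorem clO_le (hw : ∀ v, 0 ≤ w v) (i : Fin 6) {f : V → ℝ} {C : ℝ} (hf : ∀ v, f v ≤ C) :
    clO w κ i f ≤ C * xsO w κ i := by
  rw [xsO_eq]
  unfold clO
  rw [Finset.mul_sum]
  refine Finset.sum_le_sum fun v _ => ?_
  rw [mul_comm C]
  exact mul_le_mul_of_nonneg_left (hf v) (mul_nonneg (hw v) (icO_nn i v))

/-- Averaging the degrees over a class. -/
theorem cls_deg (ho : Opt E w) (i : Fin 6) : xsO w κ i * dens E w =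
    xsO w κ i * PO w κ i - clO w κ i (mo E w κ (some i)) + clO w κ i (io E w κ (some i)) +
      clO w κ i (bo E w κ (some i)) + clO w κ i (ro E w κ) := by
  rw [xsO_eq]
  unfold clO
  rw [Finset.sum_mul, Finset.sum_mul]
  simp only [← Finset.sum_sub_distrib, ← Finset.sum_add_distrib]
  refine Finset.sum_congr rfl fun v _ => ?_
  have h := deg_split E w κ i v
  rw [ho.reg v] at h
  rw [h]
  ring

theorem cls_io (i : Fin 6) : clO w κ i (io E w κ (some i)) =
    dens E (fun v => w v * icO κ i v) := by
  unfold clO io KF.dens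
  refine Finset.sum_congr rfl fun x _ => ?_
  rw [Finset.mul_sum]
  refine Finset.sum_congr rfl fun y _ => ?_
  rw [Finset.mul_sum]
  refine Finset.sum_congr rfl fun z _ => ?_
  rw [KB.b2r_and]
  unfold icO
  ring

/-- Sum over the classes. -/
theorem sum_cl (f : Option (Fin 6) → V → ℝ) (h : ∀ v, f none v = 0) :
    ∑ i, clO w κ i (f (some i)) = ∑ v, w v * f (κ v) v := by
  unfold clO
  rw [Finset.sum_comm]
  refine Finset.sum_congr rfl fun v _ => ?_
  rw [opt_sum (fun a => f a v) (h v) (κ v), Finset.mul_sum]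
  exact Finset.sum_congr rfl fun i _ => by unfold icO; ring

theorem sum_M : ∑ i, clO w κ i (mo E w κ (some i)) = muO E w κ := by
  rw [sum_cl (mo E w κ)]
  · unfold mo muO
    refine Finset.sum_congr rfl fun x _ => ?_
    rw [Finset.mul_sum]
    refine Finset.sum_congr rfl fun y _ => ?_
    rw [Finset.mul_sum]
    exact Finset.sum_congr rfl fun z _ => by ring
  · intro v
    unfold mo
    refine Finset.sum_eq_zero fun y _ => Finset.sum_eq_zero fun z _ => ?_
    have : dO none (κ y) (κ z) = false := rfl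
    rw [this, b2r_false]
    ring

theorem sum_B : ∑ i, clO w κ i (bo E w κ (some i)) = beO E w κ := by
  rw [sum_cl (bo E w κ)]
  · unfold bo beO
    refine Finset.sum_congr rfl fun x _ => ?_
    rw [Finset.mul_sum]
    refine Finset.sum_congr rfl fun y _ => ?_
    rw [Finset.mul_sum]
    exact Finset.sum_congr rfl fun z _ => by ring
  · intro v
    unfold bo
    refine Finset.sum_eq_zero fun y _ => Finset.sum_eq_zero fun z _ => ?_
    have : bO none (κ y) (κ z) = false := rfl
    rw [this, b2r_false]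
    ring

/-- A symmetric triple sum with a marked vertex. -/
theorem mark3 (g : V → V → V → ℝ) (h12 : ∀ x y z, g x y z = g y x z)
    (h23 : ∀ x y z, g x y z = g x z y) (c : V → ℝ) :
    3 * ∑ x, ∑ y, ∑ z, w x * w y * w z * (c x * g x y z) =
      ∑ x, ∑ y, ∑ z, w x * w y * w z * ((c x + c y + c z) * g x y z) := by
  have h1 : ∑ x, ∑ y, ∑ z, w x * w y * w z * (c y * g x y z) =
      ∑ x, ∑ y, ∑ z, w x * w y * w z * (c x * g x y z) := by
    rw [Finset.sum_comm]
    refine Finset.sum_congr rfl fun x _ => Finset.sum_congr rfl fun y _ =>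
      Finset.sum_congr rfl fun z _ => ?_
    rw [h12 y x z]
    ring
  have h2 : ∑ x, ∑ y, ∑ z, w x * w y * w z * (c z * g x y z) =
      ∑ x, ∑ y, ∑ z, w x * w y * w z * (c y * g x y z) := by
    refine Finset.sum_congr rfl fun x _ => ?_
    rw [Finset.sum_comm]
    refine Finset.sum_congr rfl fun y _ =>
      Finset.sum_congr rfl fun z _ => ?_
    rw [h23 x z y]
    ring
  have h3 : ∑ x, ∑ y, ∑ z, w x * w y * w z * ((c x + c y + c z) * g x y z) =
      ∑ x, ∑ y, ∑ z, w x * w y * w z * (c x * g x y z) +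
      ∑ x, ∑ y, ∑ z, w x * w y * w z * (c y * g x y z) +
      ∑ x, ∑ y, ∑ z, w x * w y * w z * (c z * g x y z) := by
    simp only [← Finset.sum_add_distrib]
    exact Finset.sum_congr rfl fun x _ => Finset.sum_congr rfl fun y _ =>
      Finset.sum_congr rfl fun z _ => by ring
  rw [h3, h2, h1]
  ring

theorem icO_eq_ind (i : Fin 6) (a : Option (Fin 6)) :
    b2r (decide (a = some i)) = if a = some i then 1 else 0 := by
  unfold b2r
  simp

theorem cnt_dO (i : Fin 6) (a b c : Option (Fin 6)) (h : dO a b c = true) :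
    b2r (decide (a = some i)) + b2r (decide (b = some i)) + b2r (decide (c = some i)) ≤ 1 := by
  have key : ∀ i j k l : Fin 6, dO (some j) (some k) (some l) = true →
      (if (some j : Option (Fin 6)) = some i then 1 else 0) +
      (if (some k : Option (Fin 6)) = some i then 1 else 0) +
      (if (some l : Option (Fin 6)) = some i then 1 else 0) ≤ (1 : ℕ) := by decide
  cases a with
  | none => exact absurd h (by simp [dO])
  | some j =>
    cases b with
    | none => exact absurd h (by simp [dO])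
    | some k =>
      cases c with
      | none => exact absurd h (by simp [dO])
      | some l =>
        have h1 := key i j k l h
        rw [icO_eq_ind, icO_eq_ind, icO_eq_ind]
        exact_mod_cast h1

theorem cnt_bO (i : Fin 6) (a b c : Option (Fin 6)) (h : bO a b c = true) :
    b2r (decide (a = some i)) + b2r (decide (b = some i)) + b2r (decide (c = some i)) ≤ 2 := by
  have key : ∀ i j k l : Fin 6, bO (some j) (some k) (some l) = true →
      (if (some j : Option (Fin 6)) = some i then 1 else 0) +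
      (if (some k : Option (Fin 6)) = some i then 1 else 0) +
      (if (some l : Option (Fin 6)) = some i then 1 else 0) ≤ (2 : ℕ) := by decide
  cases a with
  | none => exact absurd h (by simp [bO])
  | some j =>
    cases b with
    | none => exact absurd h (by simp [bO])
    | some k =>
      cases c with
      | none => exact absurd h (by simp [bO])
      | some l =>
        have h1 := key i j k l h
        rw [icO_eq_ind, icO_eq_ind, icO_eq_ind]
        exact_mod_cast h1

theorem M_le (hE : K4m E) (hw : ∀ v, 0 ≤ w v) (i : Fin 6) :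
    3 * clO w κ i (mo E w κ (some i)) ≤ muO E w κ := by
  have h1 : clO w κ i (mo E w κ (some i)) =
      ∑ x, ∑ y, ∑ z, w x * w y * w z * (icO κ i x *
        (b2r (dO (κ x) (κ y) (κ z)) * (1 - b2r (E x y z)))) := by
    unfold clO mo
    refine Finset.sum_congr rfl fun x _ => ?_
    rw [Finset.mul_sum]
    refine Finset.sum_congr rfl fun y _ => ?_
    rw [Finset.mul_sum]
    refine Finset.sum_congr rfl fun z _ => ?_
    by_cases hx : κ x = some i
    · rw [hx]
      ring
    · have : icO κ i x = 0 := by unfold icO; simp [b2r, hx]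
      rw [this]
      ring
  rw [h1, mark3 (fun x y z => b2r (dO (κ x) (κ y) (κ z)) * (1 - b2r (E x y z)))
    (fun x y z => by rw [dO_12, hE.s12]) (fun x y z => by rw [dO_23, hE.s23])]
  unfold muO
  refine Finset.sum_le_sum fun x _ => Finset.sum_le_sum fun y _ => Finset.sum_le_sum fun z _ => ?_
  refine mul_le_mul_of_nonneg_left ?_ (mul_nonneg (mul_nonneg (hw x) (hw y)) (hw z))
  have hm : 0 ≤ 1 - b2r (E x y z) := by linarith [b2r_le_one (E x y z)]
  cases hd : dO (κ x) (κ y) (κ z)
  · rw [b2r_false]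
    simp
  · rw [b2r_true, one_mul]
    have := cnt_dO i _ _ _ hd
    unfold icO
    nlinarith

theorem B_le (hE : K4m E) (hw : ∀ v, 0 ≤ w v) (i : Fin 6) :
    3 * clO w κ i (bo E w κ (some i)) ≤ 2 * beO E w κ := by
  have h1 : clO w κ i (bo E w κ (some i)) =
      ∑ x, ∑ y, ∑ z, w x * w y * w z * (icO κ i x *
        (b2r (bO (κ x) (κ y) (κ z)) * b2r (E x y z))) := by
    unfold clO bo
    refine Finset.sum_congr rfl fun x _ => ?_
    rw [Finset.mul_sum]
    refine Finset.sum_congr rfl fun y _ => ?_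
    rw [Finset.mul_sum]
    refine Finset.sum_congr rfl fun z _ => ?_
    by_cases hx : κ x = some i
    · rw [hx]
      ring
    · have : icO κ i x = 0 := by unfold icO; simp [b2r, hx]
      rw [this]
      ring
  rw [h1, mark3 (fun x y z => b2r (bO (κ x) (κ y) (κ z)) * b2r (E x y z))
    (fun x y z => by rw [bO_12, hE.s12]) (fun x y z => by rw [bO_23, hE.s23])]
  unfold beO
  rw [Finset.mul_sum]
  refine Finset.sum_le_sum fun x _ => ?_
  rw [Finset.mul_sum]
  refine Finset.sum_le_sum fun y _ => ?_
  rw [Finset.mul_sum]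
  refine Finset.sum_le_sum fun z _ => ?_
  rw [← mul_assoc 2, mul_comm 2, mul_assoc _ 2]
  refine mul_le_mul_of_nonneg_left ?_ (mul_nonneg (mul_nonneg (hw x) (hw y)) (hw z))
  have hm : 0 ≤ b2r (E x y z) := b2r_nonneg _
  cases hd : bO (κ x) (κ y) (κ z)
  · rw [b2r_false]
    simp
  · rw [b2r_true, one_mul]
    have := cnt_bO i _ _ _ hd
    unfold icO
    nlinarith

theorem R_le_cl (ho : Opt E w) (i : Fin 6) :
    clO w κ i (ro E w κ) ≤ 4 * dens E w * unO w κ * xsO w κ i :=
  clO_le ho.wt.nn i fun v => ro_le' ho κ v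

/-- The sum over all classes of the pairs with an unassigned vertex. -/
theorem sum_R_le (ho : Opt E w) : ∑ i, clO w κ i (ro E w κ) ≤ 2 * dens E w * unO w κ := by
  have hw := ho.wt.nn
  have h1 : ∑ i, clO w κ i (ro E w κ) ≤ ∑ v, w v * ro E w κ v := by
    unfold clO
    rw [Finset.sum_comm]
    refine Finset.sum_le_sum fun v _ => ?_
    have h2 : ∑ i, w v * icO κ i v * ro E w κ v = w v * ro E w κ v * (1 - zO κ v) := by
      rw [one_sub_zO, Finset.mul_sum]
      exact Finset.sum_congr rfl fun i _ => by ring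
    rw [h2]
    have h3 : 0 ≤ w v * ro E w κ v := mul_nonneg (hw v) (ro_nonneg E hw v)
    have h4 := zO_nn (κ := κ) v
    nlinarith
  have h2 : ∑ v, w v * ro E w κ v ≤ ∑ v, w v * (2 * ∑ z, w z * b2r (κ z).isNone * cod E w v z) :=
    Finset.sum_le_sum fun v _ => mul_le_mul_of_nonneg_left (ro_le ho κ v) (hw v)
  have h3 : ∑ v, w v * (2 * ∑ z, w z * b2r (κ z).isNone * cod E w v z) =
      2 * ∑ z, w z * b2r (κ z).isNone * deg E w z := by
    have h4 : ∀ v, w v * (2 * ∑ z, w z * b2r (κ z).isNone * cod E w v z) =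
        ∑ z, 2 * (w z * b2r (κ z).isNone * (w v * cod E w v z)) := fun v => by
      rw [Finset.mul_sum, Finset.mul_sum]
      exact Finset.sum_congr rfl fun z _ => by ring
    simp only [h4]
    rw [Finset.sum_comm, Finset.mul_sum]
    refine Finset.sum_congr rfl fun z _ => ?_
    rw [← Finset.mul_sum, ← Finset.mul_sum]
    congr 2
    unfold deg cod
    refine Finset.sum_congr rfl fun v _ => ?_
    rw [Finset.mul_sum]
    refine Finset.sum_congr rfl fun u _ => ?_
    rw [ho.free.s12 z v u]
    ring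
  rw [h3] at h2
  have h5 : ∑ z, w z * b2r (κ z).isNone * deg E w z = dens E w * unO w κ := by
    unfold unO
    rw [Finset.mul_sum]
    exact Finset.sum_congr rfl fun z _ => by rw [ho.reg z]; ring
  rw [h5] at h2
  linarith

/-- The exact equation of the size of a class. -/
theorem size_eq (ho : Opt E w) (i : Fin 6) :
    xsO w κ i * ((2 - L) / 3 * (1 - unO w κ) * tO w κ i - KB.qq (tO w κ) i - L * tO w κ i ^ 2 +
      dens E w - (10 + L) / 36 * (1 - unO w κ) ^ 2) =
    clO w κ i (bo E w κ (some i)) - clO w κ i (mo E w κ (some i)) + clO w κ i (ro E w κ) -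
      dfO E w κ i := by
  have h1 := cls_deg (κ := κ) ho i
  rw [cls_io, PO_t ho.wt i] at h1
  have h2 : dens E (fun v => w v * icO κ i v) = L * xsO w κ i ^ 3 - dfO E w κ i := by
    unfold dfO
    ring
  rw [h2] at h1
  have h3 : xsO w κ i ^ 3 = xsO w κ i * ((1 - unO w κ) / 6 + tO w κ i) ^ 2 := by
    rw [← xsO_tO]
    ring
  rw [h3] at h1
  linear_combination h1

end

end KT
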