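import Pool.Agent.Helper20.KT.X3

set_option autoImplicit false

/-!
Moving vertices between classes: switched and newly assigned vertices, and the bad triples.
-/

namespace KT

open Finset KF

/-- Pairs of classes in a block with `j` but not with `i`. -/
def A2 (i j b c : Fin 6) : ℝ := if D6 j b c = true ∧ D6 i b c = false then 1 else 0

theorem A2_nn (i j b c : Fin 6) : 0 ≤ A2 i j b c := by unfold A2; split <;> norm_num

theorem A2_symm (i j b c : Fin 6) : A2 i j b c = A2 i j c b := by
  unfold A2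
  rw [D6_K4m.s23 j b c, D6_K4m.s23 i b c]

theorem A2_row (i j b : Fin 6) : ∑ c, A2 i j b c ≤ 2 := by
  have h : ∀ i j b : Fin 6,
      (∑ c : Fin 6, if D6 j b c = true ∧ D6 i b c = false then 1 else 0 : ℕ) ≤ 2 := by decide
  have h1 := h i j b
  unfold A2
  exact_mod_cast h1

theorem A2_tot {i j : Fin 6} (hij : i ≠ j) : ∑ b, ∑ c, A2 i j b c = 8 := by
  have h1 := cnt8 i j hij
  unfold A2
  exact_mod_cast h1

/-- Lower bound for the number of pairs. -/
theorem R_ge {i j : Fin 6} (hij : i ≠ j) (x : Fin 6 → ℝ) {s X : ℝ} (hs : ∑ b, x b = s)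
    (hs0 : 0 ≤ s) (hX : ∀ b, x b ≤ X) :
    s / 3 * (2 * s - 4 * X) - 2 / 9 * s ^ 2 - 2 * ∑ b, (x b - s / 6) ^ 2 ≤
      ∑ b, ∑ c, A2 i j b c * (x b * x c) := by
  set d : Fin 6 → ℝ := fun b => ∑ c, A2 i j b c with hd
  have hd2 : ∀ b, d b ≤ 2 := fun b => A2_row i j b
  have hd0 : ∀ b, 0 ≤ d b := fun b => Finset.sum_nonneg fun c _ => A2_nn i j b c
  have htot : ∑ b, d b = 8 := A2_tot hij
  have e1 : ∑ b, ∑ c, A2 i j b c * (x b * x c) =
      s / 3 * (∑ b, d b * x b) - 8 * (s / 6) ^ 2 +
        ∑ b, ∑ c, A2 i j b c * ((x b - s / 6) * (x c - s / 6)) := by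
    have h1 : ∀ b c, A2 i j b c * (x b * x c) = s / 6 * (A2 i j b c * x b) +
        s / 6 * (A2 i j b c * x c) - (s / 6) ^ 2 * A2 i j b c +
        A2 i j b c * ((x b - s / 6) * (x c - s / 6)) := fun b c => by ring
    simp only [h1, Finset.sum_add_distrib, Finset.sum_sub_distrib]
    have h2 : ∑ b, ∑ c, s / 6 * (A2 i j b c * x b) = s / 6 * ∑ b, d b * x b := by
      rw [Finset.mul_sum]
      refine Finset.sum_congr rfl fun b _ => ?_
      rw [hd]
      rw [Finset.sum_mul, Finset.mul_sum]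
    have h3 : ∑ b, ∑ c, s / 6 * (A2 i j b c * x c) = s / 6 * ∑ b, d b * x b := by
      rw [← h2, Finset.sum_comm]
      refine Finset.sum_congr rfl fun b _ => Finset.sum_congr rfl fun c _ => ?_
      rw [A2_symm]
    have h4 : ∑ b, ∑ c, (s / 6) ^ 2 * A2 i j b c = 8 * (s / 6) ^ 2 := by
      rw [← A2_tot hij, Finset.sum_mul]
      refine Finset.sum_congr rfl fun b _ => ?_
      rw [Finset.sum_mul]
      exact Finset.sum_congr rfl fun c _ => by ring
    rw [h2, h3, h4]
    ring
  have h5 : 2 * s - 4 * X ≤ ∑ b, d b * x b := by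
    have h6 : ∑ b, (2 - d b) * x b ≤ ∑ b, (2 - d b) * X :=
      Finset.sum_le_sum fun b _ => mul_le_mul_of_nonneg_left (hX b) (by linarith [hd2 b])
    rw [← Finset.sum_mul] at h6
    have h7 : ∑ b, (2 - d b) = 4 := by
      rw [Finset.sum_sub_distrib, htot]
      simp only [Finset.sum_const, Finset.card_univ, Fintype.card_fin, nsmul_eq_mul]
      norm_num
    have h8 : ∑ b, (2 - d b) * x b = 2 * s - ∑ b, d b * x b := by
      simp only [sub_mul, Finset.sum_sub_distrib]
      rw [← Finset.mul_sum, hs]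
    rw [h7, h8] at h6
    linarith
  have h6 : -(2 * ∑ b, (x b - s / 6) ^ 2) ≤
      ∑ b, ∑ c, A2 i j b c * ((x b - s / 6) * (x c - s / 6)) := by
    have h7 : ∀ b c, A2 i j b c * (-((x b - s / 6) ^ 2 / 2) - (x c - s / 6) ^ 2 / 2) ≤
        A2 i j b c * ((x b - s / 6) * (x c - s / 6)) := fun b c => by
      refine mul_le_mul_of_nonneg_left ?_ (A2_nn i j b c)
      nlinarith [sq_nonneg ((x b - s / 6) + (x c - s / 6))]
    have h8 : ∑ b, ∑ c, A2 i j b c * (-((x b - s / 6) ^ 2 / 2) - (x c - s / 6) ^ 2 / 2) ≤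
        ∑ b, ∑ c, A2 i j b c * ((x b - s / 6) * (x c - s / 6)) :=
      Finset.sum_le_sum fun b _ => Finset.sum_le_sum fun c _ => h7 b c
    refine le_trans ?_ h8
    have h9 : ∑ b, ∑ c, A2 i j b c * (-((x b - s / 6) ^ 2 / 2) - (x c - s / 6) ^ 2 / 2) =
        -(∑ b, d b * (x b - s / 6) ^ 2) := by
      have e2 : ∑ b, ∑ c, A2 i j b c * ((x b - s / 6) ^ 2 / 2) =
          ∑ b, d b * (x b - s / 6) ^ 2 / 2 := by
        refine Finset.sum_congr rfl fun b _ => ?_
        rw [← Finset.sum_mul]
        change d b * _ = _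
        ring
      have e3 : ∑ b, ∑ c, A2 i j b c * ((x c - s / 6) ^ 2 / 2) =
          ∑ b, d b * (x b - s / 6) ^ 2 / 2 := by
        rw [← e2, Finset.sum_comm]
        refine Finset.sum_congr rfl fun b _ => Finset.sum_congr rfl fun c _ => ?_
        rw [A2_symm]
      have e4 : ∀ b c, A2 i j b c * (-((x b - s / 6) ^ 2 / 2) - (x c - s / 6) ^ 2 / 2) =
          -(A2 i j b c * ((x b - s / 6) ^ 2 / 2)) - A2 i j b c * ((x c - s / 6) ^ 2 / 2) :=
        fun b c => by ring
      simp only [e4, Finset.sum_sub_distrib, Finset.sum_neg_distrib]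
      rw [e2, e3, ← Finset.sum_neg_distrib, ← Finset.sum_sub_distrib, ← Finset.sum_neg_distrib]
      exact Finset.sum_congr rfl fun b _ => by ring
    rw [h9, Finset.mul_sum]
    refine neg_le_neg (Finset.sum_le_sum fun b _ =>
      mul_le_mul_of_nonneg_right (hd2 b) (sq_nonneg _))
  rw [e1]
  have h10 : s / 3 * (2 * s - 4 * X) ≤ s / 3 * ∑ b, d b * x b :=
    mul_le_mul_of_nonneg_left h5 (by positivity)
  nlinarith

/-- Removing some vertices. -/
theorem R_move (i j : Fin 6) (x m : Fin 6 → ℝ) {X D : ℝ} (hX : ∀ b, x b ≤ X)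
    (hm : ∀ b, 0 ≤ m b) (hD : ∑ b, m b ≤ D) (hX0 : 0 ≤ X) :
    ∑ b, ∑ c, A2 i j b c * (x b * x c) - 4 * X * D ≤
      ∑ b, ∑ c, A2 i j b c * ((x b - m b) * (x c - m c)) := by
  have h1 : ∀ b c, A2 i j b c * (x b * x c) - (A2 i j b c * (X * m c) + A2 i j b c * (X * m b)) ≤
      A2 i j b c * ((x b - m b) * (x c - m c)) := fun b c => by
    rw [← mul_add, ← mul_sub]
    refine mul_le_mul_of_nonneg_left ?_ (A2_nn i j b c)
    have h2 := mul_le_mul_of_nonneg_right (hX b) (hm c)
    have h3 := mul_le_mul_of_nonneg_right (hX c) (hm b)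
    have h4 := mul_nonneg (hm b) (hm c)
    nlinarith
  have h2 := Finset.sum_le_sum fun b (_ : b ∈ (Finset.univ : Finset (Fin 6))) =>
    Finset.sum_le_sum fun c (_ : c ∈ (Finset.univ : Finset (Fin 6))) => h1 b c
  simp only [Finset.sum_sub_distrib, Finset.sum_add_distrib] at h2
  have h3 : ∑ b, ∑ c, A2 i j b c * (X * m b) ≤ 2 * X * D := by
    have h4 : ∑ b, ∑ c, A2 i j b c * (X * m b) ≤ ∑ b, 2 * (X * m b) := by
      refine Finset.sum_le_sum fun b _ => ?_
      rw [← Finset.sum_mul]
      exact mul_le_mul_of_nonneg_right (A2_row i j b) (mul_nonneg hX0 (hm b))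
    rw [← Finset.mul_sum, ← Finset.mul_sum] at h4
    have h5 : X * ∑ b, m b ≤ X * D := mul_le_mul_of_nonneg_left hD hX0
    linarith
  have h4 : ∑ b, ∑ c, A2 i j b c * (X * m c) = ∑ b, ∑ c, A2 i j b c * (X * m b) := by
    rw [Finset.sum_comm]
    refine Finset.sum_congr rfl fun b _ => Finset.sum_congr rfl fun c _ => ?_
    rw [A2_symm]
  rw [h4] at h2
  linarith

section
variable {V : Type} [Fintype V]

/-- Newly assigned vertices. -/
def nwa (κ κ0 : V → Option (Fin 6)) (v : V) : ℝ :=
  if κ v ≠ none ∧ κ0 v = none then 1 else 0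

/-- Unmoved part of a class. -/
noncomputable def UU (w : V → ℝ) (κ κ0 : V → Option (Fin 6)) (b : Fin 6) : ℝ :=
  ∑ v, w v * unm κ κ0 b v

/-- Lower bound for the unmoved pairs. -/
theorem UU_ge {w : V → ℝ} (hw : Wt w) (κ κ0 : V → Option (Fin 6)) {i j : Fin 6} (hij : i ≠ j)
    {X : ℝ} (hX : ∀ b, xsO w κ0 b ≤ X) :
    (1 - unO w κ0) / 3 * (2 * (1 - unO w κ0) - 4 * X) - 2 / 9 * (1 - unO w κ0) ^ 2 -
      2 * ∑ b, (xsO w κ0 b - (1 - unO w κ0) / 6) ^ 2 - 4 * X * dst w κ κ0 ≤
      ∑ b, ∑ c, A2 i j b c * (UU w κ κ0 b * UU w κ κ0 c) := by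
  set m : Fin 6 → ℝ := fun b => ∑ v, w v * (if κ0 v = some b ∧ κ v ≠ some b then 1 else 0) with hm
  have hm0 : ∀ b, 0 ≤ m b := fun b => Finset.sum_nonneg fun v _ =>
    mul_nonneg (hw.nn v) (by split <;> norm_num)
  have hU : ∀ b, UU w κ κ0 b = xsO w κ0 b - m b := fun b => by
    rw [hm]
    unfold UU xsO unm
    rw [← Finset.sum_sub_distrib]
    refine Finset.sum_congr rfl fun v _ => ?_
    by_cases h0 : κ0 v = some b
    · by_cases h1 : κ v = some b
      · simp [b2r, h0, h1]
      · simp [b2r, h0, h1]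
    · simp [b2r, h0]
  have hD : ∑ b, m b ≤ dst w κ κ0 := by
    rw [hm]
    unfold dst
    rw [Finset.sum_comm]
    refine Finset.sum_le_sum fun v _ => ?_
    rw [← Finset.mul_sum]
    refine mul_le_mul_of_nonneg_left ?_ (hw.nn v)
    cases h0 : κ0 v with
    | none =>
      have : ∑ b : Fin 6, (if (none : Option (Fin 6)) = some b ∧ κ v ≠ some b then (1 : ℝ)
          else 0) = 0 := Finset.sum_eq_zero fun b _ => by simp
      rw [this]
      split <;> norm_num
    | some a =>
      rw [Finset.sum_eq_single a]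
      · by_cases h1 : κ v = some a
        · simp [h1]
        · simp [h1]
      · intro b _ hb
        rw [if_neg]
        intro h
        exact hb (Option.some.inj h.1).symm
      · intro h
        exact absurd (Finset.mem_univ _) h
  have hX0 : 0 ≤ X := (xsO_nonneg hw.nn 0).trans (hX 0)
  have hs : ∑ b, xsO w κ0 b = 1 - unO w κ0 := sum_xsO hw
  have hs0 : 0 ≤ 1 - unO w κ0 := by
    rw [← hs]
    exact Finset.sum_nonneg fun b _ => xsO_nonneg hw.nn b
  have h1 := R_ge hij (xsO w κ0) hs hs0 hX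
  have h2 := R_move i j (xsO w κ0) m hX hm0 hD hX0
  simp only [hU]
  linarith

theorem una_nn (κ κ0 : V → Option (Fin 6)) (v : V) : 0 ≤ una κ κ0 v := by
  unfold una; split <;> norm_num
theorem swi_nn (κ κ0 : V → Option (Fin 6)) (v : V) : 0 ≤ swi κ κ0 v := by
  unfold swi; split <;> norm_num
theorem nwa_nn (κ κ0 : V → Option (Fin 6)) (v : V) : 0 ≤ nwa κ κ0 v := by
  unfold nwa; split <;> norm_num

/-- The types of an assigned vertex. -/
theorem usn (κ κ0 : V → Option (Fin 6)) {v : V} (h : κ v ≠ none) :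
    una κ κ0 v + swi κ κ0 v + nwa κ κ0 v = 1 := by
  unfold una swi nwa
  by_cases h1 : κ0 v = none
  · have h2 : ¬ (κ v = κ0 v) := fun h3 => h (h3.trans h1)
    simp [h, h1]
  · by_cases h2 : κ v = κ0 v
    · simp [h1, h2]
    · simp [h, h1, h2]

theorem us_le (κ κ0 : V → Option (Fin 6)) (v : V) : una κ κ0 v + swi κ κ0 v ≤ 1 := by
  by_cases h : κ v ≠ none
  · have := usn κ κ0 h
    have := nwa_nn κ κ0 v
    linarith
  · have h1 : κ v = none := not_not.1 h
    unfold una swi
    simp [h1]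

/-- Symmetric triple sums with a marked vertex and two unmarked ones. -/
theorem mark_suu {w : V → ℝ} (g : V → V → V → ℝ) (h12 : ∀ x y z, g x y z = g y x z)
    (h23 : ∀ x y z, g x y z = g x z y) (S U : V → ℝ) :
    3 * ∑ x, ∑ y, ∑ z, w x * w y * w z * (S x * (U y * U z) * g x y z) =
      ∑ x, ∑ y, ∑ z, w x * w y * w z *
        ((S x * (U y * U z) + S y * (U x * U z) + S z * (U x * U y)) * g x y z) := by
  have h1 : ∑ x, ∑ y, ∑ z, w x * w y * w z * (S y * (U x * U z) * g x y z) =
      ∑ x, ∑ y, ∑ z, w x * w y * w z * (S x * (U y * U z) * g x y z) := by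
    rw [Finset.sum_comm]
    refine Finset.sum_congr rfl fun x _ => Finset.sum_congr rfl fun y _ =>
      Finset.sum_congr rfl fun z _ => ?_
    rw [h12 y x z]
    ring
  have h2 : ∑ x, ∑ y, ∑ z, w x * w y * w z * (S z * (U x * U y) * g x y z) =
      ∑ x, ∑ y, ∑ z, w x * w y * w z * (S y * (U x * U z) * g x y z) := by
    refine Finset.sum_congr rfl fun x _ => ?_
    rw [Finset.sum_comm]
    refine Finset.sum_congr rfl fun y _ =>
      Finset.sum_congr rfl fun z _ => ?_
    rw [h23 x z y]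
    ring
  have h3 : ∑ x, ∑ y, ∑ z, w x * w y * w z *
        ((S x * (U y * U z) + S y * (U x * U z) + S z * (U x * U y)) * g x y z) =
      ∑ x, ∑ y, ∑ z, w x * w y * w z * (S x * (U y * U z) * g x y z) +
      ∑ x, ∑ y, ∑ z, w x * w y * w z * (S y * (U x * U z) * g x y z) +
      ∑ x, ∑ y, ∑ z, w x * w y * w z * (S z * (U x * U y) * g x y z) := by
    simp only [← Finset.sum_add_distrib]
    exact Finset.sum_congr rfl fun x _ => Finset.sum_congr rfl fun y _ =>
      Finset.sum_congr rfl fun z _ => by ring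
  rw [h3, h2, h1]
  ring

/-- Bad pairs of the old partition at a vertex, with unmoved vertices. -/
noncomputable def bu (E : V → V → V → Bool) (w : V → ℝ) (κ κ0 : V → Option (Fin 6)) (v : V) : ℝ :=
  ∑ y, ∑ z, w y * w z * (una κ κ0 y * una κ κ0 z * (b2r (bO (κ0 v) (κ0 y) (κ0 z)) * b2r (E v y z)))

/-- At a switched vertex. -/
theorem bu_ge (E : V → V → V → Bool) {w : V → ℝ} (hw : ∀ v, 0 ≤ w v) (κ κ0 : V → Option (Fin 6))
    {v : V} {i j : Fin 6} (hj : κ v = some j) (hi : κ0 v = some i) :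
    ∑ b, ∑ c, A2 i j b c * (UU w κ κ0 b * UU w κ κ0 c) ≤
      mo E w κ (κ v) v + bu E w κ κ0 v := by
  have e1 : ∑ b, ∑ c, A2 i j b c * (UU w κ κ0 b * UU w κ κ0 c) =
      ∑ y, ∑ z, w y * w z * (∑ b : Fin 6, ∑ c : Fin 6,
        (if D6 j b c = true ∧ D6 i b c = false then 1 else 0) *
        (unm κ κ0 b y * unm κ κ0 c z)) := by
    have e0 : ∀ b c : Fin 6, A2 i j b c * (UU w κ κ0 b * UU w κ κ0 c) =
        ∑ y, ∑ z, (if D6 j b c = true ∧ D6 i b c = false then (1 : ℝ) else 0) *
        ((w y * unm κ κ0 b y) * (w z * unm κ κ0 c z)) := by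
      intro b c
      unfold UU A2
      rw [Finset.sum_mul_sum, Finset.mul_sum]
      refine Finset.sum_congr rfl fun y _ => ?_
      rw [Finset.mul_sum]
    simp only [e0]
    rw [Finset.sum_congr rfl fun b _ => Finset.sum_comm]
    rw [Finset.sum_comm]
    refine Finset.sum_congr rfl fun y _ => ?_
    rw [Finset.sum_congr rfl fun b _ => Finset.sum_comm]
    rw [Finset.sum_comm]
    refine Finset.sum_congr rfl fun z _ => ?_
    rw [Finset.mul_sum]
    refine Finset.sum_congr rfl fun b _ => ?_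
    rw [Finset.mul_sum]
    refine Finset.sum_congr rfl fun c _ => ?_
    ring
  rw [e1]
  unfold mo bu
  simp only [← Finset.sum_add_distrib]
  refine Finset.sum_le_sum fun y _ => Finset.sum_le_sum fun z _ => ?_
  have h6 := pair_ge E κ κ0 hj hi y z
  have h8 := mul_le_mul_of_nonneg_left h6 (mul_nonneg (hw y) (hw z))
  refine h8.trans ?_
  rw [← mul_add]
  refine mul_le_mul_of_nonneg_left ?_ (mul_nonneg (hw y) (hw z))
  have u1 : una κ κ0 y * una κ κ0 z ≤ 1 := by
    have h1 := us_le κ κ0 y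
    have h2 := us_le κ κ0 z
    have h3 := una_nn κ κ0 y
    have h4 := una_nn κ κ0 z
    have h5 := swi_nn κ κ0 y
    have h6 := swi_nn κ κ0 z
    nlinarith
  have d0 : 0 ≤ b2r (dO (κ v) (κ y) (κ z)) * (1 - b2r (E v y z)) :=
    mul_nonneg (b2r_nonneg _) (by linarith [b2r_le_one (E v y z)])
  nlinarith

/-- The bad triples after moving some vertices. -/
theorem be_move {E : V → V → V → Bool} (hE : K4m E) {w : V → ℝ} (hw : ∀ v, 0 ≤ w v)
    (κ κ0 : V → Option (Fin 6)) :
    beO E w κ + 3 * ∑ v, w v * (swi κ κ0 v * bu E w κ κ0 v) ≤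
      beO E w κ0 + 3 * ∑ v, w v * ((swi κ κ0 v + nwa κ κ0 v) * bo E w κ (κ v) v) := by
  set S := swi κ κ0 with hS
  set U := una κ κ0 with hU
  set N := nwa κ κ0 with hN
  set G : V → V → V → ℝ := fun x y z => b2r (bO (κ x) (κ y) (κ z)) * b2r (E x y z) with hG
  set G0 : V → V → V → ℝ := fun x y z => b2r (bO (κ0 x) (κ0 y) (κ0 z)) * b2r (E x y z) with hG0
  have nn3 : ∀ x y z, 0 ≤ w x * w y * w z := fun x y z =>
    mul_nonneg (mul_nonneg (hw x) (hw y)) (hw z)
  have S0 := swi_nn κ κ0
  have U0 := una_nn κ κ0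
  have N0 := nwa_nn κ κ0
  have G0n : ∀ x y z, 0 ≤ G0 x y z := fun x y z => mul_nonneg (b2r_nonneg _) (b2r_nonneg _)
  have Gn : ∀ x y z, 0 ≤ G x y z := fun x y z => mul_nonneg (b2r_nonneg _) (b2r_nonneg _)
  -- the old bad triples
  have h1 : ∑ x, ∑ y, ∑ z, w x * w y * w z * (U x * (U y * U z) * G0 x y z) +
      3 * ∑ x, ∑ y, ∑ z, w x * w y * w z * (S x * (U y * U z) * G0 x y z) ≤ beO E w κ0 := by
    rw [mark_suu G0 (fun x y z => by rw [hG0]; beta_reduce; rw [bO_12, hE.s12])
      (fun x y z => by rw [hG0]; beta_reduce; rw [bO_23, hE.s23])]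
    unfold beO
    simp only [← Finset.sum_add_distrib]
    refine Finset.sum_le_sum fun x _ => Finset.sum_le_sum fun y _ =>
      Finset.sum_le_sum fun z _ => ?_
    rw [← mul_add, ← add_mul]
    refine mul_le_mul_of_nonneg_left ?_ (nn3 x y z)
    refine mul_le_of_le_one_left (G0n x y z) ?_
    have a1 := us_le κ κ0 x
    have a2 := us_le κ κ0 y
    have a3 := us_le κ κ0 z
    have b1 := U0 x
    have b2 := U0 y
    have b3 := U0 z
    have c1 := S0 x
    have c2 := S0 y
    have c3 := S0 z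
    have p1 : (U x + S x) * (U y + S y) ≤ 1 := by
      have : 0 ≤ U x + S x := by positivity
      nlinarith
    have p2 : (U x + S x) * (U y + S y) * (U z + S z) ≤ 1 := by
      have h3 : 0 ≤ (U x + S x) * (U y + S y) := by positivity
      nlinarith
    have p3 : U x * (U y * U z) + (S x * (U y * U z) + S y * (U x * U z) + S z * (U x * U y)) ≤
        (U x + S x) * (U y + S y) * (U z + S z) := by
      have q1 : 0 ≤ S x * S y * U z := by positivity
      have q2 : 0 ≤ S x * U y * S z := by positivity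
      have q3 : 0 ≤ U x * S y * S z := by positivity
      have q4 : 0 ≤ S x * S y * S z := by positivity
      nlinarith
    linarith
  -- the new bad triples
  have h2 : beO E w κ ≤ ∑ x, ∑ y, ∑ z, w x * w y * w z * (U x * (U y * U z) * G0 x y z) +
      3 * ∑ x, ∑ y, ∑ z, w x * w y * w z * ((S x + N x) * G x y z) := by
    rw [mark3 G (fun x y z => by rw [hG]; beta_reduce; rw [bO_12, hE.s12])
      (fun x y z => by rw [hG]; beta_reduce; rw [bO_23, hE.s23]) (fun x => S x + N x)]
    unfold beO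
    simp only [← Finset.sum_add_distrib]
    refine Finset.sum_le_sum fun x _ => Finset.sum_le_sum fun y _ =>
      Finset.sum_le_sum fun z _ => ?_
    rw [← mul_add]
    refine mul_le_mul_of_nonneg_left ?_ (nn3 x y z)
    change G x y z ≤ _
    have r1 : 0 ≤ U x * (U y * U z) * G0 x y z :=
      mul_nonneg (mul_nonneg (U0 x) (mul_nonneg (U0 y) (U0 z))) (G0n x y z)
    have r2 : 0 ≤ S x + N x + (S y + N y) + (S z + N z) := by
      have := S0 x
      have := S0 y
      have := S0 z
      have := N0 x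
      have := N0 y
      have := N0 z
      positivity
    by_cases hb : bO (κ x) (κ y) (κ z) = true
    · have hx : κ x ≠ none := fun h => by rw [h] at hb; exact absurd hb (by simp [bO])
      have hy : κ y ≠ none := fun h => by
        rw [h] at hb; cases κ x <;> exact absurd hb (by simp [bO])
      have hz : κ z ≠ none := fun h => by
        rw [h] at hb; cases κ x <;> cases κ y <;> exact absurd hb (by simp [bO])
      have ux := usn κ κ0 hx
      have uy := usn κ κ0 hy
      have uz := usn κ κ0 hz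
      have hcase : ∀ v, κ v ≠ none → (U v = 1 ∧ κ v = κ0 v) ∨ 1 ≤ S v + N v := by
        intro v hv
        by_cases h3 : κ v = κ0 v
        · left
          refine ⟨?_, h3⟩
          change una κ κ0 v = 1
          unfold una
          rw [if_pos ⟨hv, h3⟩]
        · right
          have h4 : una κ κ0 v = 0 := by
            unfold una
            rw [if_neg (fun h => h3 h.2)]
          have h5 := usn κ κ0 hv
          change 1 ≤ swi κ κ0 v + nwa κ κ0 v
          linarith
      have big : 1 ≤ S x + N x + (S y + N y) + (S z + N z) → G x y z ≤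
          U x * (U y * U z) * G0 x y z + (S x + N x + (S y + N y) + (S z + N z)) * G x y z := by
        intro h
        have := mul_le_mul_of_nonneg_right h (Gn x y z)
        linarith
      have p1 := S0 x
      have p2 := S0 y
      have p3 := S0 z
      have p4 := N0 x
      have p5 := N0 y
      have p6 := N0 z
      rcases hcase x hx with ⟨a1, a2⟩ | a1
      · rcases hcase y hy with ⟨b1, b2⟩ | b1
        · rcases hcase z hz with ⟨c1, c2⟩ | c1
          · have e1 : G0 x y z = G x y z := by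
              rw [hG, hG0]
              beta_reduce
              rw [a2, b2, c2]
            rw [a1, b1, c1, e1]
            have := mul_nonneg r2 (Gn x y z)
            linarith
          · exact big (by change 1 ≤ S z + N z at c1; linarith)
        · exact big (by change 1 ≤ S y + N y at b1; linarith)
      · exact big (by change 1 ≤ S x + N x at a1; linarith)
    · have e1 : G x y z = 0 := by
        rw [hG]
        beta_reduce
        rw [Bool.not_eq_true] at hb
        rw [hb, b2r_false, zero_mul]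
      rw [e1, mul_zero]
      linarith
  have h3 : ∑ x, ∑ y, ∑ z, w x * w y * w z * ((S x + N x) * G x y z) =
      ∑ v, w v * ((S v + N v) * bo E w κ (κ v) v) := by
    unfold bo
    refine Finset.sum_congr rfl fun x _ => ?_
    simp only [Finset.mul_sum]
    exact Finset.sum_congr rfl fun y _ => Finset.sum_congr rfl fun z _ => by rw [hG]; ring
  have h4 : ∑ x, ∑ y, ∑ z, w x * w y * w z * (S x * (U y * U z) * G0 x y z) =
      ∑ v, w v * (S v * bu E w κ κ0 v) := by
    unfold bu
    refine Finset.sum_congr rfl fun x _ => ?_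
    simp only [Finset.mul_sum]
    exact Finset.sum_congr rfl fun y _ => Finset.sum_congr rfl fun z _ => by rw [hG0]; ring
  rw [h4] at h1
  rw [h3] at h2
  linarith

end

end KT
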