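import Pool.Agent.Helper20.KT.X4

set_option autoImplicit false

/-!
Extremal partial partitions, second form: switched vertices, bad triples, sizes.
-/

namespace KT

open Finset KF

section
variable {V : Type} [Fintype V]

/-- Missing pairs at a vertex, with unmoved vertices. -/
noncomputable def mu2 (E : V → V → V → Bool) (w : V → ℝ) (κ κ0 : V → Option (Fin 6)) (v : V) : ℝ :=
  ∑ y, ∑ z, w y * w z * (una κ κ0 y * una κ κ0 z *
    (b2r (dO (κ v) (κ y) (κ z)) * (1 - b2r (E v y z))))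

theorem una_mul_le (κ κ0 : V → Option (Fin 6)) (y z : V) : una κ κ0 y * una κ κ0 z ≤ 1 := by
  have h1 := us_le κ κ0 y
  have h2 := us_le κ κ0 z
  have h3 := una_nn κ κ0 y
  have h4 := una_nn κ κ0 z
  have h5 := swi_nn κ κ0 y
  have h6 := swi_nn κ κ0 z
  nlinarith

theorem mu2_le (E : V → V → V → Bool) {w : V → ℝ} (hw : ∀ v, 0 ≤ w v) (κ κ0 : V → Option (Fin 6))
    (v : V) : mu2 E w κ κ0 v ≤ mo E w κ (κ v) v := by
  unfold mu2 mo
  refine Finset.sum_le_sum fun y _ => Finset.sum_le_sum fun z _ => ?_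
  refine mul_le_mul_of_nonneg_left ?_ (mul_nonneg (hw y) (hw z))
  have d0 : 0 ≤ b2r (dO (κ v) (κ y) (κ z)) * (1 - b2r (E v y z)) :=
    mul_nonneg (b2r_nonneg _) (by linarith [b2r_le_one (E v y z)])
  exact mul_le_of_le_one_left d0 (una_mul_le κ κ0 y z)

/-- At a switched vertex. -/
theorem mu2_bu_ge (E : V → V → V → Bool) {w : V → ℝ} (hw : ∀ v, 0 ≤ w v)
    (κ κ0 : V → Option (Fin 6)) {v : V} {i j : Fin 6} (hj : κ v = some j) (hi : κ0 v = some i) :
    ∑ b, ∑ c, A2 i j b c * (UU w κ κ0 b * UU w κ κ0 c) ≤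
      mu2 E w κ κ0 v + bu E w κ κ0 v := by
  have e1 : ∑ b, ∑ c, A2 i j b c * (UU w κ κ0 b * UU w κ κ0 c) =
      ∑ y, ∑ z, w y * w z * (∑ b : Fin 6, ∑ c : Fin 6,
        (if D6 j b c = true ∧ D6 i b c = false then 1 else 0) *
        (unm κ κ0 b y * unm κ κ0 c z)) := by
    have e0 : ∀ b c : Fin 6, A2 i j b c * (UU w κ κ0 b * UU w κ κ0 c) =
        ∑ y, ∑ z, (if D6 j b c = true ∧ D6 i b c = false then (1 : ℝ) else 0) *
        ((w y * unm κ κ0 b y) * (w z * unm κ κ0 c z)) := by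
      intro b c
      unfold UU A2
      rw [Finset.sum_mul_sum, Finset.mul_sum]
      refine Finset.sum_congr rfl fun y _ => ?_
      rw [Finset.mul_sum]
    simp only [e0]
    rw [Finset.sum_congr rfl fun b _ => Finset.sum_comm]
    rw [Finset.sum_comm]
    refine Finset.sum_congr rfl fun y _ => ?_
    rw [Finset.sum_congr rfl fun b _ => Finset.sum_comm]
    rw [Finset.sum_comm]
    refine Finset.sum_congr rfl fun z _ => ?_
    rw [Finset.mul_sum]
    refine Finset.sum_congr rfl fun b _ => ?_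
    rw [Finset.mul_sum]
    refine Finset.sum_congr rfl fun c _ => ?_
    ring
  rw [e1]
  unfold mu2 bu
  simp only [← Finset.sum_add_distrib]
  refine Finset.sum_le_sum fun y _ => Finset.sum_le_sum fun z _ => ?_
  have h6 := pair_ge E κ κ0 hj hi y z
  have h8 := mul_le_mul_of_nonneg_left h6 (mul_nonneg (hw y) (hw z))
  refine h8.trans (le_of_eq ?_)
  ring

theorem suu_le (κ κ0 : V → Option (Fin 6)) (x y z : V) :
    swi κ κ0 x * (una κ κ0 y * una κ κ0 z) + swi κ κ0 y * (una κ κ0 x * una κ κ0 z) +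
      swi κ κ0 z * (una κ κ0 x * una κ κ0 y) ≤ 1 := by
  have a1 := us_le κ κ0 x
  have a2 := us_le κ κ0 y
  have a3 := us_le κ κ0 z
  have b1 := una_nn κ κ0 x
  have b2 := una_nn κ κ0 y
  have b3 := una_nn κ κ0 z
  have c1 := swi_nn κ κ0 x
  have c2 := swi_nn κ κ0 y
  have c3 := swi_nn κ κ0 z
  set U := una κ κ0
  set S := swi κ κ0
  have p1 : (U x + S x) * (U y + S y) ≤ 1 := by
    have : 0 ≤ U x + S x := by positivity
    nlinarith
  have p2 : (U x + S x) * (U y + S y) * (U z + S z) ≤ 1 := by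
    have h3 : 0 ≤ (U x + S x) * (U y + S y) := by positivity
    nlinarith
  have p3 : S x * (U y * U z) + S y * (U x * U z) + S z * (U x * U y) ≤
      (U x + S x) * (U y + S y) * (U z + S z) := by
    have q1 : 0 ≤ S x * S y * U z := by positivity
    have q2 : 0 ≤ S x * U y * S z := by positivity
    have q3 : 0 ≤ U x * S y * S z := by positivity
    have q4 : 0 ≤ S x * S y * S z := by positivity
    have q5 : 0 ≤ U x * U y * U z := by positivity
    nlinarith
  linarith

/-- The measure of the switched vertices, general form. -/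
theorem swi_le2 {E : V → V → V → Bool} (hE : K4m E) {w : V → ℝ} (hw : ∀ v, 0 ≤ w v)
    (κ κ0 : V → Option (Fin 6)) {r : ℝ}
    (hR : ∀ i j : Fin 6, i ≠ j → r ≤ ∑ b, ∑ c, A2 i j b c * (UU w κ κ0 b * UU w κ κ0 c)) :
    3 * r * ∑ v, w v * swi κ κ0 v ≤ muO E w κ + beO E w κ0 := by
  have nn3 : ∀ x y z, 0 ≤ w x * w y * w z := fun x y z =>
    mul_nonneg (mul_nonneg (hw x) (hw y)) (hw z)
  have h1 : 3 * ∑ v, w v * (swi κ κ0 v * mu2 E w κ κ0 v) ≤ muO E w κ := by
    have e1 : ∑ v, w v * (swi κ κ0 v * mu2 E w κ κ0 v) = ∑ x, ∑ y, ∑ z, w x * w y * w z *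
        (swi κ κ0 x * (una κ κ0 y * una κ κ0 z) *
          (b2r (dO (κ x) (κ y) (κ z)) * (1 - b2r (E x y z)))) := by
      unfold mu2
      refine Finset.sum_congr rfl fun x _ => ?_
      simp only [Finset.mul_sum]
      exact Finset.sum_congr rfl fun y _ => Finset.sum_congr rfl fun z _ => by ring
    rw [e1, mark_suu (fun x y z => b2r (dO (κ x) (κ y) (κ z)) * (1 - b2r (E x y z)))
      (fun x y z => by rw [dO_12, hE.s12]) (fun x y z => by rw [dO_23, hE.s23])]
    unfold muO
    refine Finset.sum_le_sum fun x _ => Finset.sum_le_sum fun y _ =>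
      Finset.sum_le_sum fun z _ => ?_
    refine mul_le_mul_of_nonneg_left ?_ (nn3 x y z)
    exact mul_le_of_le_one_left (mul_nonneg (b2r_nonneg _) (by linarith [b2r_le_one (E x y z)]))
      (suu_le κ κ0 x y z)
  have h2 : 3 * ∑ v, w v * (swi κ κ0 v * bu E w κ κ0 v) ≤ beO E w κ0 := by
    have e1 : ∑ v, w v * (swi κ κ0 v * bu E w κ κ0 v) = ∑ x, ∑ y, ∑ z, w x * w y * w z *
        (swi κ κ0 x * (una κ κ0 y * una κ κ0 z) *
          (b2r (bO (κ0 x) (κ0 y) (κ0 z)) * b2r (E x y z))) := by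
      unfold bu
      refine Finset.sum_congr rfl fun x _ => ?_
      simp only [Finset.mul_sum]
      exact Finset.sum_congr rfl fun y _ => Finset.sum_congr rfl fun z _ => by ring
    rw [e1, mark_suu (fun x y z => b2r (bO (κ0 x) (κ0 y) (κ0 z)) * b2r (E x y z))
      (fun x y z => by rw [bO_12, hE.s12]) (fun x y z => by rw [bO_23, hE.s23])]
    unfold beO
    refine Finset.sum_le_sum fun x _ => Finset.sum_le_sum fun y _ =>
      Finset.sum_le_sum fun z _ => ?_
    refine mul_le_mul_of_nonneg_left ?_ (nn3 x y z)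
    exact mul_le_of_le_one_left (mul_nonneg (b2r_nonneg _) (b2r_nonneg _))
      (suu_le κ κ0 x y z)
  have h3 : r * ∑ v, w v * swi κ κ0 v ≤
      ∑ v, w v * (swi κ κ0 v * mu2 E w κ κ0 v) + ∑ v, w v * (swi κ κ0 v * bu E w κ κ0 v) := by
    rw [Finset.mul_sum, ← Finset.sum_add_distrib]
    refine Finset.sum_le_sum fun v _ => ?_
    by_cases hv : κ v ≠ none ∧ κ0 v ≠ none ∧ κ v ≠ κ0 v
    · obtain ⟨j, hj⟩ := Option.ne_none_iff_exists'.1 hv.1
      obtain ⟨i, hi⟩ := Option.ne_none_iff_exists'.1 hv.2.1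
      have hij : i ≠ j := by
        intro h
        apply hv.2.2
        rw [hj, hi, h]
      have hs1 : swi κ κ0 v = 1 := by unfold swi; rw [if_pos hv]
      have h4 := (hR i j hij).trans (mu2_bu_ge E hw κ κ0 hj hi)
      rw [hs1]
      have := mul_le_mul_of_nonneg_left h4 (hw v)
      linarith
    · have : swi κ κ0 v = 0 := by unfold swi; rw [if_neg hv]
      rw [this]
      simp
  linarith

/-- The distance is controlled by the switched and the unassigned vertices; sizes. -/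
theorem xs_move {w : V → ℝ} (hw : ∀ v, 0 ≤ w v) (κ κ0 : V → Option (Fin 6)) (b : Fin 6) :
    xsO w κ b ≤ xsO w κ0 b + ∑ v, w v * swi κ κ0 v + unO w κ0 := by
  unfold xsO unO
  rw [← Finset.sum_add_distrib, ← Finset.sum_add_distrib]
  refine Finset.sum_le_sum fun v _ => ?_
  rw [← mul_add, ← mul_add]
  refine mul_le_mul_of_nonneg_left ?_ (hw v)
  have s0 := swi_nn κ κ0 v
  have b1 := b2r_nonneg (decide (κ0 v = some b))
  have b2 := b2r_nonneg (κ0 v).isNone
  by_cases h : κ v = some b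
  · by_cases h0 : κ0 v = some b
    · have : b2r (decide (κ0 v = some b)) = 1 := by simp [b2r, h0]
      have h1 := b2r_le_one (decide (κ v = some b))
      linarith
    · cases h2 : κ0 v with
      | none =>
        have : b2r (none : Option (Fin 6)).isNone = 1 := by simp [b2r]
        rw [this]
        rw [h2] at b1
        have h1 := b2r_le_one (decide (κ v = some b))
        linarith
      | some a =>
        have : swi κ κ0 v = 1 := by
          unfold swi
          rw [if_pos]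
          refine ⟨by rw [h]; simp, by rw [h2]; simp, ?_⟩
          intro h3
          exact h0 (h3.symm.trans h)
        rw [this]
        have h1 := b2r_le_one (decide (κ v = some b))
        have h3 := b2r_nonneg (some a : Option (Fin 6)).isNone
        rw [h2] at b1
        linarith
  · have : b2r (decide (κ v = some b)) = 0 := by simp [b2r, h]
    rw [this]
    linarith

theorem nwa_le {w : V → ℝ} (hw : ∀ v, 0 ≤ w v) (κ κ0 : V → Option (Fin 6)) :
    ∑ v, w v * nwa κ κ0 v ≤ unO w κ0 := by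
  unfold unO
  refine Finset.sum_le_sum fun v _ => mul_le_mul_of_nonneg_left ?_ (hw v)
  unfold nwa
  split
  · next h =>
    rw [h.2]
    simp [b2r]
  · exact b2r_nonneg _

/-- The bad triples after moving: only the newly assigned vertices count. -/
theorem be_move2 {E : V → V → V → Bool} (hE : K4m E) {w : V → ℝ} (hw : ∀ v, 0 ≤ w v)
    (κ κ0 : V → Option (Fin 6)) {r B M : ℝ}
    (hR : ∀ i j : Fin 6, i ≠ j → r ≤ ∑ b, ∑ c, A2 i j b c * (UU w κ κ0 b * UU w κ κ0 c))
    (hB : ∀ v, κ v ≠ none → bo E w κ (κ v) v ≤ B) (hB0 : 0 ≤ B)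
    (hM : ∀ v, κ v ≠ none → mo E w κ (κ v) v ≤ M) (hr : B + M ≤ r) :
    beO E w κ ≤ beO E w κ0 + 3 * B * unO w κ0 := by
  have h1 := be_move hE hw κ κ0
  have h2 : ∑ v, w v * ((swi κ κ0 v + nwa κ κ0 v) * bo E w κ (κ v) v) ≤
      ∑ v, w v * (swi κ κ0 v * bu E w κ κ0 v) + B * ∑ v, w v * nwa κ κ0 v := by
    rw [Finset.mul_sum, ← Finset.sum_add_distrib]
    refine Finset.sum_le_sum fun v _ => ?_
    by_cases hn : κ v = none
    · have e1 : swi κ κ0 v = 0 := by unfold swi; simp [hn]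
      have e2 : nwa κ κ0 v = 0 := by unfold nwa; simp [hn]
      rw [e1, e2]
      simp
    · have h3 : nwa κ κ0 v * bo E w κ (κ v) v ≤ nwa κ κ0 v * B :=
        mul_le_mul_of_nonneg_left (hB v hn) (nwa_nn κ κ0 v)
      have h4 : swi κ κ0 v * bo E w κ (κ v) v ≤ swi κ κ0 v * bu E w κ κ0 v := by
        by_cases hv : κ v ≠ none ∧ κ0 v ≠ none ∧ κ v ≠ κ0 v
        · obtain ⟨j, hj⟩ := Option.ne_none_iff_exists'.1 hv.1
          obtain ⟨i, hi⟩ := Option.ne_none_iff_exists'.1 hv.2.1
          have hij : i ≠ j := by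
            intro h
            apply hv.2.2
            rw [hj, hi, h]
          have h5 := (hR i j hij).trans (mu2_bu_ge E hw κ κ0 hj hi)
          have h6 := mu2_le E hw κ κ0 v
          have h7 := hB v hn
          have h8 := hM v hn
          exact mul_le_mul_of_nonneg_left (by linarith) (swi_nn κ κ0 v)
        · have : swi κ κ0 v = 0 := by unfold swi; rw [if_neg hv]
          rw [this]
          simp
      have h5 : (swi κ κ0 v + nwa κ κ0 v) * bo E w κ (κ v) v ≤
          swi κ κ0 v * bu E w κ κ0 v + nwa κ κ0 v * B := by linarith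
      have := mul_le_mul_of_nonneg_left h5 (hw v)
      linarith
  have h3 := nwa_le hw κ κ0
  have h4 : B * ∑ v, w v * nwa κ κ0 v ≤ B * unO w κ0 := mul_le_mul_of_nonneg_left h3 hB0
  linarith

/-- Crude bound for the bad triples after moving. -/
theorem be_move1 {E : V → V → V → Bool} (hE : K4m E) {w : V → ℝ} (hw : ∀ v, 0 ≤ w v)
    (κ κ0 : V → Option (Fin 6)) {B : ℝ}
    (hB : ∀ v, κ v ≠ none → bo E w κ (κ v) v ≤ B) (hB0 : 0 ≤ B) :
    beO E w κ ≤ beO E w κ0 + 3 * B * (∑ v, w v * swi κ κ0 v + unO w κ0) := by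
  have h1 := be_move hE hw κ κ0
  have h0 : 0 ≤ ∑ v, w v * (swi κ κ0 v * bu E w κ κ0 v) := by
    refine Finset.sum_nonneg fun v _ => mul_nonneg (hw v) (mul_nonneg (swi_nn κ κ0 v) ?_)
    unfold bu
    exact Finset.sum_nonneg fun y _ => Finset.sum_nonneg fun z _ =>
      mul_nonneg (mul_nonneg (hw y) (hw z)) (mul_nonneg
        (mul_nonneg (una_nn κ κ0 y) (una_nn κ κ0 z)) (mul_nonneg (b2r_nonneg _) (b2r_nonneg _)))
  have h2 : ∑ v, w v * ((swi κ κ0 v + nwa κ κ0 v) * bo E w κ (κ v) v) ≤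
      B * (∑ v, w v * swi κ κ0 v + ∑ v, w v * nwa κ κ0 v) := by
    rw [← Finset.sum_add_distrib, Finset.mul_sum]
    refine Finset.sum_le_sum fun v _ => ?_
    by_cases hn : κ v = none
    · have e1 : swi κ κ0 v = 0 := by unfold swi; simp [hn]
      have e2 : nwa κ κ0 v = 0 := by unfold nwa; simp [hn]
      rw [e1, e2]
      simp
    · have h3 : (swi κ κ0 v + nwa κ κ0 v) * bo E w κ (κ v) v ≤ (swi κ κ0 v + nwa κ κ0 v) * B :=
        mul_le_mul_of_nonneg_left (hB v hn) (add_nonneg (swi_nn κ κ0 v) (nwa_nn κ κ0 v))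
      have := mul_le_mul_of_nonneg_left h3 (hw v)
      linarith
  have h3 := nwa_le hw κ κ0
  have h4 : B * (∑ v, w v * swi κ κ0 v + ∑ v, w v * nwa κ κ0 v) ≤
      B * (∑ v, w v * swi κ κ0 v + unO w κ0) := mul_le_mul_of_nonneg_left (by linarith) hB0
  linarith

/-- Extremal partial partitions, second form. -/
theorem extremal2 {E : V → V → V → Bool} (hE : K4m E) {w : V → ℝ} (hw : ∀ v, 0 ≤ w v)
    (κ0 : V → Option (Fin 6)) {lam Φ0 β0 ρ ω r : ℝ} (hlam : 0 < lam) (hr : 0 < r)
    (hΦ : muO E w κ0 + lam * unO w κ0 ≤ Φ0) (hβ : beO E w κ0 ≤ β0)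
    (hR : ∀ κ : V → Option (Fin 6), dst w κ κ0 ≤ ρ → ∀ i j : Fin 6, i ≠ j →
      r ≤ ∑ b, ∑ c, A2 i j b c * (UU w κ κ0 b * UU w κ κ0 c))
    (hω : ∀ v, w v ≤ ω) (hρ0 : 0 ≤ ρ)
    (hc : (Φ0 + β0) / (3 * r) + Φ0 / lam + unO w κ0 + ω ≤ ρ) :
    ∃ κ : V → Option (Fin 6), muO E w κ + lam * unO w κ ≤ Φ0 ∧
      dst w κ κ0 ≤ (Φ0 + β0) / (3 * r) + Φ0 / lam + unO w κ0 ∧
      (∀ v, κ v ≠ none → mo E w κ (κ v) v ≤ lam / 3 ∨ w v = 0) ∧
      (∀ v, κ v = none → ∀ i : Fin 6, lam / 3 ≤ mo E w κ (some i) v ∨ w v = 0) ∧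
      dst w κ κ0 ≤ ρ ∧ 3 * r * ∑ v, w v * swi κ κ0 v ≤ muO E w κ + β0 := by
  classical
  set Φ : (V → Option (Fin 6)) → ℝ := fun k => muO E w k + lam * unO w k with hΦd
  set B : Finset (V → Option (Fin 6)) := Finset.univ.filter (fun k => dst w k κ0 ≤ ρ) with hB
  have h0B : κ0 ∈ B := by
    rw [hB, Finset.mem_filter]
    exact ⟨Finset.mem_univ _, by rw [dst_self]; exact hρ0⟩
  obtain ⟨κ, hκB, hκ⟩ := Finset.exists_min_image B Φ ⟨κ0, h0B⟩
  have hκρ : dst w κ κ0 ≤ ρ := by
    rw [hB, Finset.mem_filter] at hκB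
    exact hκB.2
  have h1 : Φ κ ≤ Φ0 := (hκ κ0 h0B).trans hΦ
  have hu1 : unO w κ ≤ Φ0 / lam := by
    rw [le_div_iff₀ hlam]
    have := muO_nonneg E hw κ
    have h2 : muO E w κ + lam * unO w κ ≤ Φ0 := h1
    linarith
  have hsw0 := swi_le2 hE hw κ κ0 (hR κ hκρ)
  have hsw : ∑ v, w v * swi κ κ0 v ≤ (Φ0 + β0) / (3 * r) := by
    rw [le_div_iff₀ (by positivity)]
    have h3 : muO E w κ + lam * unO w κ ≤ Φ0 := h1
    have h4 := unO_nonneg hw κ
    nlinarith
  have hd : dst w κ κ0 ≤ (Φ0 + β0) / (3 * r) + Φ0 / lam + unO w κ0 := by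
    have h2 := dst_le hw κ κ0
    linarith
  have hmove : ∀ (v : V) (a : Option (Fin 6)), Φ κ ≤ Φ (Function.update κ v a) := by
    intro v a
    refine hκ _ ?_
    rw [hB, Finset.mem_filter]
    refine ⟨Finset.mem_univ _, ?_⟩
    have h2 := dst_update hw κ κ0 v a
    have h3 := hω v
    linarith
  refine ⟨κ, h1, hd, ?_, ?_, hκρ, by linarith⟩
  · intro v hv
    by_cases hw0 : w v = 0
    · exact Or.inr hw0
    left
    have hwv : 0 < w v := lt_of_le_of_ne (hw v) (Ne.symm hw0)
    have h2 := hmove v none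
    have h3 := muO_rem hE w κ v
    have h4 := unO_update w κ v none
    have h5 : b2r (none : Option (Fin 6)).isNone = 1 := by simp [b2r]
    have h6 : b2r (κ v).isNone = 0 := by
      obtain ⟨j, hj⟩ := Option.ne_none_iff_exists'.1 hv
      rw [hj]; simp [b2r]
    have h7 : muO E w κ + lam * unO w κ ≤ muO E w (Function.update κ v none) +
        lam * unO w (Function.update κ v none) := h2
    rw [h4, h5, h6, h3] at h7
    have h8 : 3 * (w v * mo E w κ (κ v) v) ≤ lam * w v := by nlinarith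
    have h9 : w v * (3 * mo E w κ (κ v) v) ≤ w v * lam := by linarith
    have h10 := le_of_mul_le_mul_left h9 hwv
    linarith
  · intro v hv i
    by_cases hw0 : w v = 0
    · exact Or.inr hw0
    left
    have hwv : 0 < w v := lt_of_le_of_ne (hw v) (Ne.symm hw0)
    have h2 := hmove v (some i)
    have h3 := muO_rem hE w (Function.update κ v (some i)) v
    rw [Function.update_self, mo_update w hv (some i)] at h3
    have e0 : Function.update (Function.update κ v (some i)) v none = κ := by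
      rw [Function.update_idem]
      rw [← hv]
      exact Function.update_eq_self v κ
    rw [e0] at h3
    have h4 := unO_update w κ v (some i)
    have h5 : b2r (κ v).isNone = 1 := by rw [hv]; simp [b2r]
    have h6 : b2r (some i : Option (Fin 6)).isNone = 0 := by simp [b2r]
    have h7 : muO E w κ + lam * unO w κ ≤ muO E w (Function.update κ v (some i)) +
        lam * unO w (Function.update κ v (some i)) := h2
    rw [h4, h5, h6, h3] at h7
    have h9 : w v * lam ≤ w v * (3 * mo E w κ (some i) v) := by nlinarith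
    have h10 := le_of_mul_le_mul_left h9 hwv
    linarith

end

end KT
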