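import Pool.Agent.Helper20.KT.X5
import Pool.Agent.Helper20.KT.T9
import Pool.Agent.Helper25.K4.Siz3

set_option autoImplicit false

/-!
From the certificate to an extremal partial partition, with all constants.
-/

namespace KT

open Finset KF

/-- The conclusion of the certificate. -/
def HE1 : Prop := ∃ θ : ℝ, 0 < θ ∧ ∀ (n : ℕ) (E : Fin n → Fin n → Fin n → Bool) (w : Fin n → ℝ),
    Opt E w → L - θ < dens E w → (2 / 7 : ℝ) < dens E w →
    Ev 7 w (fun φ => Th (pe E ((2 / 7 : ℝ) / dens E w) φ) (FT (6 / 7) (1 / 10) (31 / 50000))) < 0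

theorem cntD : ∀ j k : Fin 6, (∑ i : Fin 6, if D6 i j k = true then 1 else 0 : ℕ) ≤ 2 := by
  decide

section
variable {V : Type} [Fintype V] {E : V → V → V → Bool} {w : V → ℝ}

theorem sumD_le (κ : V → Option (Fin 6)) {X : ℝ} (hX0 : 0 ≤ X) (hX : ∀ i, xsO w κ i ≤ X)
    (j k : Fin 6) : ∑ i, b2r (D6 i j k) * xsO w κ i ≤ 2 * X := by
  have h1 : ∑ i, b2r (D6 i j k) * xsO w κ i ≤ ∑ i, b2r (D6 i j k) * X :=
    Finset.sum_le_sum fun i _ => mul_le_mul_of_nonneg_left (hX i) (b2r_nonneg _)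
  have h2 : ∑ i, b2r (D6 i j k) ≤ 2 := by
    have := cntD j k
    unfold b2r
    exact_mod_cast this
  rw [← Finset.sum_mul] at h1
  have h3 := mul_le_mul_of_nonneg_right h2 hX0
  linarith

/-- The first partition, with constants. -/
theorem stage0 (ho : Opt E w) (κ : V → Option (Fin 6)) {m0 W θ : ℝ} (hθ0 : 0 ≤ θ)
    (hθ1 : θ ≤ 1 / 10000000) (hθ : L - θ ≤ dens E w) (hm : 0 ≤ m0) (hW : 0 ≤ W)
    (hc : m0 + W + 1 / 10 * unO w κ < 31 / 50000)
    (hmu : ∀ M : ℝ, 0 ≤ M → (∀ j k : Fin 6, ∑ i, b2r (D6 i j k) * xsO w κ i ≤ M) →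
        muO E w κ ≤ m0 + 3 * M * W)
    (hbe : beO E w κ ≤ 6 * dens E w * W)
    (hx : ∀ i, xsO w κ i ≤ 2 * dens E w) :
    W + 1 / 10 * unO w κ ≤ 31 / 50000 ∧ muO E w κ + 1 / 10 * unO w κ ≤ 67 / 100000 ∧
    beO E w κ ≤ 1723 / 1000 * W ∧
    (∀ i, xsO w κ i ≤ (1 - unO w κ) / 6 + (732 / 35 * W + 3 / 2 * unO w κ + 2 * θ)) ∧
    ∑ i, (xsO w κ i - (1 - unO w κ) / 6) ^ 2 ≤ 162 / 100000 ∧ L - 2 / 7 ≤ 7 / 5000 := by
  have hγ0 : 0 ≤ unO w κ := KS.unO_nn ho.wt.nn κ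
  have hL1 := KS.L_le_third
  have hL2 := L_ge
  have hdL : dens E w ≤ L := dens_le_L ho.free ho.wt
  obtain ⟨r1, r2, r3, r4, r5⟩ := KS.sizes_part1 (m0 := m0) (W := W) (lam := 1 / 10)
    (c := 31 / 50000) (K := 183 / 17.5) ho κ hθ0 (by linarith) hθ hm hW (by norm_num) hc.le hbe hx
    le_rfl (by norm_num) (by norm_num; linarith)
  have hW1 : W ≤ 31 / 50000 := by linarith
  have hb : beO E w κ ≤ 12 / 7 * W + (L - 2 / 7) / 10 := by
    have e1 : 6 * dens E w * W ≤ 6 * L * W := by nlinarith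
    have e2 : 6 * L * W = 12 / 7 * W + 6 * (L - 2 / 7) * W := by ring
    have e3 : 6 * (L - 2 / 7) * W ≤ (L - 2 / 7) / 10 := by nlinarith
    linarith
  have hH : 61 / 10 * (12 / 7 * W) + 3 / 4 * unO w κ + θ ≤ 1 / 150 := by linarith
  have hmax : ∀ i, xsO w κ i ≤ (1 - unO w κ) / 6 +
      (732 / 35 * W + 3 / 2 * unO w κ + 2 * θ) := fun i => by
    have := KS.max_size ho κ hθ0 hθ hx (by positivity) hb hH i
    linarith
  have hb2 : beO E w κ ≤ 1723 / 1000 * W := by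
    have e1 : 6 * dens E w * W ≤ 6 * (2 / 7 + 7 / 5000) * W := by
      refine mul_le_mul_of_nonneg_right ?_ hW
      linarith
    linarith
  have htau : 732 / 35 * W + 3 / 2 * unO w κ + 2 * θ ≤ 13 / 1000 := by linarith
  have hM : muO E w κ ≤ m0 + 3 * (2 * ((1 - unO w κ) / 6 + 13 / 1000)) * W := by
    have hun : unO w κ ≤ 1 := by linarith
    refine hmu _ (by linarith) fun j k => ?_
    refine sumD_le κ (by linarith) (fun i => ?_) j k
    linarith [hmax i]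
  have hM2 : muO E w κ ≤ m0 + W + 78 / 1000 * W := by
    have e1 : 3 * (2 * ((1 - unO w κ) / 6 + 13 / 1000)) * W =
        W + 78 / 1000 * W - unO w κ * W := by ring
    have e2 : 0 ≤ unO w κ * W := mul_nonneg hγ0 hW
    linarith
  refine ⟨by linarith, by linarith, hb2, hmax, ?_, r5⟩
  have hmn : 0 ≤ muO E w κ := muO_nonneg E ho.wt.nn κ
  have hg2 : unO w κ ^ 2 ≤ 62 / 10000 * unO w κ := by
    have : unO w κ ≤ 62 / 10000 := by linarith
    nlinarith
  linarith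

/-- The extremal partial partition, with constants. -/
theorem stage1 (ho : Opt E w) (κ0 : V → Option (Fin 6)) {W θ ω : ℝ} (hθ0 : 0 ≤ θ)
    (hθ1 : θ ≤ 1 / 10000000) (hθ : L - θ ≤ dens E w) (hω : ∀ v, w v ≤ ω) (hω1 : ω ≤ 1 / 10000)
    (hW : 0 ≤ W) (hc : W + 1 / 10 * unO w κ0 ≤ 31 / 50000)
    (hΦ : muO E w κ0 + 1 / 10 * unO w κ0 ≤ 67 / 100000)
    (hβ : beO E w κ0 ≤ 1723 / 1000 * W)
    (hx : ∀ i, xsO w κ0 i ≤ (1 - unO w κ0) / 6 + (732 / 35 * W + 3 / 2 * unO w κ0 + 2 * θ))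
    (ht : ∑ i, (xsO w κ0 i - (1 - unO w κ0) / 6) ^ 2 ≤ 162 / 100000) (hL : L - 2 / 7 ≤ 7 / 5000) :
    ∃ κ : V → Option (Fin 6), muO E w κ + 1 / 10 * unO w κ ≤ 67 / 100000 ∧
      (∀ v, κ v ≠ none → mo E w κ (κ v) v ≤ 1 / 30) ∧
      (∀ v, κ v = none → ∀ i : Fin 6, 1 / 30 ≤ mo E w κ (some i) v) ∧
      beO E w κ ≤ 116 / 100000 ∧ (∀ i, tO w κ i ≤ 172 / 10000) ∧
      ∑ i, tO w κ i ^ 2 ≤ 194 / 100000 ∧
      62 / 100 * ∑ i, tO w κ i ^ 2 + muO E w κ + 47 / 50 * (L - 2 / 7) ≤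
        beO E w κ + unO w κ ^ 2 + θ ∧
      (∀ v, κ v ≠ none → bo E w κ (κ v) v ≤ 62 / 1000) := by
  have hw := ho.wt.nn
  have hγ0 : 0 ≤ unO w κ0 := unO_nonneg hw κ0
  have hL2 := L_ge
  have hdL : dens E w ≤ L := dens_le_L ho.free ho.wt
  have hg : unO w κ0 ≤ 62 / 10000 := by linarith
  have hX : ∀ b, xsO w κ0 b ≤ 18 / 100 := fun b => by linarith [hx b]
  set g := unO w κ0 with hgd
  -- switched vertices
  have hR : ∀ κ : V → Option (Fin 6), dst w κ κ0 ≤ 145 / 10000 → ∀ i j : Fin 6, i ≠ j →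
      187 / 1000 ≤ ∑ b, ∑ c, A2 i j b c * (UU w κ κ0 b * UU w κ κ0 c) := by
    intro κ hd i j hij
    have hX' : ∀ b, xsO w κ0 b ≤ (1 - g) / 6 + 13 / 1000 := fun b => by linarith [hx b]
    have h1 := UU_ge ho.wt κ κ0 hij hX'
    refine le_trans ?_ h1
    rw [← hgd]
    have e1 : (1 - g) / 3 * (2 * (1 - g) - 4 * ((1 - g) / 6 + 13 / 1000)) -
        2 / 9 * (1 - g) ^ 2 = 2 / 9 - 4 / 9 * g + 2 / 9 * g ^ 2 - 52 / 3000 * (1 - g) := by ring
    rw [e1]
    have h2 : 4 * ((1 - g) / 6 + 13 / 1000) * dst w κ κ0 ≤ 4 * (1 / 6 + 13 / 1000) * (145 / 10000) := by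
      have hd0 := dst_nonneg hw κ κ0
      refine mul_le_mul (by linarith) hd hd0 (by norm_num)
    have h3 : 0 ≤ g ^ 2 := sq_nonneg g
    linarith
  obtain ⟨κ, k1, -, k3, k4, k5, k6⟩ := extremal2 (lam := 1 / 10) (Φ0 := 67 / 100000)
    (β0 := 1723 / 1000 * (31 / 50000 - g / 10)) (ρ := 145 / 10000) (ω := ω) (r := 187 / 1000)
    ho.free hw κ0 (by norm_num) (by norm_num) hΦ (by linarith) hR hω (by norm_num) (by
      rw [← hgd]
      have e2 : (67 / 100000 + 1723 / 1000 * (31 / 50000 - g / 10)) / (3 * (187 / 1000)) =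
        (67 / 100000 + 1723 / 1000 * (31 / 50000 - g / 10)) * (1000 / 561) := by ring
      rw [e2]
      linarith)
  have hnn : ∀ v, w v ≠ 0 := fun v => (ho.pos v).ne'
  have k3' : ∀ v, κ v ≠ none → mo E w κ (κ v) v ≤ 1 / 30 := fun v hv => by
    rcases k3 v hv with h | h
    · linarith
    · exact absurd h (hnn v)
  have k4' : ∀ v, κ v = none → ∀ i : Fin 6, 1 / 30 ≤ mo E w κ (some i) v := fun v hv i => by
    rcases k4 v hv i with h | h
    · linarith
    · exact absurd h (hnn v)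
  have hmu0 := muO_nonneg E hw κ
  have hbe0 := beO_nonneg E hw κ
  have hu0 := unO_nonneg hw κ
  set S := ∑ v, w v * swi κ κ0 v with hS
  have hS0 : 0 ≤ S := Finset.sum_nonneg fun v _ => mul_nonneg (hw v) (swi_nn κ κ0 v)
  -- sizes
  have ht1 : ∀ i, tO w κ i ≤ 172 / 10000 := fun i => by
    have h1 := xs_move hw κ κ0 i
    have h2 := hx i
    unfold tO
    rw [← hS, ← hgd] at h1
    linarith
  have hu1 : unO w κ ≤ 67 / 10000 := by linarith
  have hsz := KS.sizes_of_max (τ := 172 / 10000) ho κ hθ0 hθ (by linarith) (by norm_num)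
    (fun i => by
      have := ht1 i
      unfold tO at this
      linarith)
  have hT : ∑ i, (xsO w κ i - (1 - unO w κ) / 6) ^ 2 = ∑ i, tO w κ i ^ 2 := rfl
  rw [hT] at hsz
  set T := ∑ i, tO w κ i ^ 2 with hTd
  have hT0 : 0 ≤ T := Finset.sum_nonneg fun i _ => sq_nonneg _
  have hu2 : unO w κ ^ 2 ≤ 45 / 1000000 := by nlinarith
  have hsz2 : 62 / 100 * T + muO E w κ + 47 / 50 * (L - 2 / 7) ≤
      beO E w κ + unO w κ ^ 2 + θ := by
    have : 62 / 100 * T ≤ (4 / 5 - 31 / 3 * (172 / 10000)) * T :=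
      mul_le_mul_of_nonneg_right (by norm_num) hT0
    linarith
  -- bad degrees
  have hB : ∀ v, κ v ≠ none → bo E w κ (κ v) v ≤ 5787 / 100000 + 2 * T := by
    intro v hv
    obtain ⟨i, hi⟩ := Option.ne_none_iff_exists'.1 hv
    have h1 := k3' v hv
    rw [hi] at h1 ⊢
    have h2 := bo_le (κ := κ) ho i v
    rw [← hTd] at h2
    have h3 : 10 / 36 * (1 - unO w κ) ^ 2 = 10 / 36 - 20 / 36 * unO w κ +
        10 / 36 * unO w κ ^ 2 := by ring
    have h4 : 0 ≤ unO w κ ^ 2 := sq_nonneg _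
    have h5 : (1 - unO w κ) * tO w κ i ≤ 172 / 10000 := by
      rcases le_total 0 (tO w κ i) with h | h
      · have := mul_nonneg hu0 h
        have := ht1 i
        nlinarith
      · have : (1 - unO w κ) * tO w κ i ≤ 0 :=
          mul_nonpos_of_nonneg_of_nonpos (by linarith) h
        linarith
    have h6 : 2 / 3 * (1 - unO w κ) * tO w κ i ≤ 2 / 3 * (172 / 10000) := by
      have := mul_le_mul_of_nonneg_left h5 (by norm_num : (0 : ℝ) ≤ 2 / 3)
      linarith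
    rw [h3] at h2
    linarith
  have hSg : S + g ≤ 74 / 10000 := by linarith
  have hb1 : beO E w κ ≤ 26 / 10000 := by
    have h1 := be_move1 ho.free hw κ κ0 hB (by linarith)
    rw [← hS, ← hgd] at h1
    have h2 : 3 * (5787 / 100000 + 2 * T) * (S + g) ≤
        3 * (5787 / 100000 + 2 * T) * (74 / 10000) :=
      mul_le_mul_of_nonneg_left hSg (by positivity)
    linarith
  have hT1 : T ≤ 43 / 10000 := by linarith
  have hb2 : beO E w κ ≤ 124 / 100000 := by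
    have h1 := be_move2 (r := 187 / 1000) (B := 665 / 10000) (M := 1 / 30) ho.free hw κ κ0
      (hR κ k5) (fun v hv => by linarith [hB v hv]) (by norm_num) k3' (by norm_num)
    rw [← hgd] at h1
    linarith
  have hT2 : T ≤ 208 / 100000 := by linarith
  have hb3 : beO E w κ ≤ 116 / 100000 := by
    have h1 := be_move2 (r := 187 / 1000) (B := 621 / 10000) (M := 1 / 30) ho.free hw κ κ0
      (hR κ k5) (fun v hv => by linarith [hB v hv]) (by norm_num) k3' (by norm_num)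
    rw [← hgd] at h1
    linarith
  have hT3 : T ≤ 195 / 100000 := by linarith
  exact ⟨κ, k1, k3', k4', hb3, ht1, by linarith, hsz2, fun v hv => by linarith [hB v hv]⟩

end

end KT
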