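import Pool.Agent.Helper20.KT.X6

set_option autoImplicit false

/-!
The start of the chain: the certificate gives extremal partial partitions.
-/

namespace KT

open Finset KF

/-- Near-optimal configurations have extremal partial partitions. -/
theorem start (hH : HE1) (hL : 2 / 7 < L) {θ : ℝ} (hθ : 0 < θ) :
    ∃ (V : Type) (_ : Fintype V) (E : V → V → V → Bool) (w : V → ℝ) (κ : V → Option (Fin 6)),
      Opt E w ∧ L - θ ≤ dens E w ∧ 2 / 7 < dens E w ∧ L - 2 / 7 ≤ 7 / 5000 ∧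
      (∀ v, w v ≤ 1 / 10000) ∧
      muO E w κ + 1 / 10 * unO w κ ≤ 67 / 100000 ∧
      (∀ v, κ v ≠ none → mo E w κ (κ v) v ≤ 1 / 30) ∧
      (∀ v, κ v = none → ∀ i : Fin 6, 1 / 30 ≤ mo E w κ (some i) v) ∧
      beO E w κ ≤ 116 / 100000 ∧ (∀ i, tO w κ i ≤ 172 / 10000) ∧
      ∑ i, tO w κ i ^ 2 ≤ 194 / 100000 ∧
      62 / 100 * ∑ i, tO w κ i ^ 2 + muO E w κ + 47 / 50 * (L - 2 / 7) ≤
        beO E w κ + unO w κ ^ 2 + θ ∧
      (∀ v, κ v ≠ none → bo E w κ (κ v) v ≤ 62 / 1000) := by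
  obtain ⟨θ1, hθ1, hH⟩ := hH
  obtain ⟨θ2, h0, ha, hb, hc, hd⟩ : ∃ θ2 : ℝ, 0 < θ2 ∧ θ2 ≤ θ ∧ θ2 ≤ θ1 ∧
      θ2 ≤ 1 / 10000000000000 ∧ θ2 ≤ L - 2 / 7 := by
    refine ⟨min (min θ θ1) (min (1 / 10000000000000) (L - 2 / 7)), ?_, ?_, ?_, ?_, ?_⟩
    · exact lt_min (lt_min hθ hθ1) (lt_min (by norm_num) (by linarith))
    · exact (min_le_left _ _).trans (min_le_left _ _)
    · exact (min_le_left _ _).trans (min_le_right _ _)
    · exact (min_le_right _ _).trans (min_le_left _ _)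
    · exact (min_le_right _ _).trans (min_le_right _ _)
  obtain ⟨n, E0, w0, ho0, hd0⟩ := exists_opt h0
  have hd1 : 2 / 7 < dens E0 w0 := by linarith
  obtain ⟨V, iV, E, w, κ0, m0, W, ho, hdd, hm0, hW0, hc0, hmu, hbe, hx⟩ :=
    part1 (lam := 1 / 10) (c := 31 / 50000) ho0 hd1 (hH n E0 w0 ho0 (by linarith) hd1)
  rw [← hdd] at hbe hx hd1 hd0
  obtain ⟨a1, a2, a3, a4, a5, a6⟩ := stage0 (θ := θ2) ho κ0 h0.le (by linarith) hd0.le hm0 hW0 hc0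
    hmu hbe hx
  have hω : ∀ v, w v ≤ 1 / 10000 := by
    intro v
    by_contra hcon
    push Not at hcon
    have h1 := w_small ho v
    have h2 : (1 / 10000 : ℝ) ^ 3 ≤ w v ^ 3 := by
      exact pow_le_pow_left₀ (by norm_num) hcon.le 3
    have h3 := L_ge
    have h4 : (2 / 7 : ℝ) * (1 / 10000) ^ 3 ≤ L * w v ^ 3 :=
      mul_le_mul h3 h2 (by norm_num) (by linarith)
    norm_num at h4
    linarith
  obtain ⟨κ, b1, b2, b3, b4, b5, b6, b7, b8⟩ := stage1 (θ := θ2) (ω := 1 / 10000) ho κ0 h0.le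
    (by linarith) hd0.le hω le_rfl hW0 a1 a2 a3 a4 a5 a6
  exact ⟨V, iV, E, w, κ, ho, by linarith, hd1, a6, hω, b1, b2, b3, b4, b5, b6, by linarith, b8⟩

end KT
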