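import Pool.Agent.Helper20.KT.X6

set_option autoImplicit false

/-!
The conclusion of the certificate with parameters.
-/

namespace KT

open Finset KF

/-- The conclusion of the certificate with parameters. -/
def HE (lam c : ℝ) : Prop :=
  ∃ θ : ℝ, 0 < θ ∧ ∀ (n : ℕ) (E : Fin n → Fin n → Fin n → Bool) (w : Fin n → ℝ),
    Opt E w → L - θ < dens E w → (2 / 7 : ℝ) < dens E w →
    Ev 7 w (fun φ => Th (pe E ((2 / 7 : ℝ) / dens E w) φ) (FT (6 / 7) lam c)) < 0

end KT
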