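import Pool.Agent.Helper20.KT.Y5

set_option autoImplicit false

/-!
From the certificate to an extremal partial partition, with the constants of `lam = 1 / 12`.
-/

namespace KT

open Finset KF

section
variable {V : Type} [Fintype V] {E : V → V → V → Bool} {w : V → ℝ}

/-- The first partition, with constants. -/
theorem stage0' (ho : Opt E w) (κ : V → Option (Fin 6)) {m0 W θ : ℝ} (hθ0 : 0 ≤ θ)
    (hθ1 : θ ≤ 1 / 100000000) (hθ : L - θ ≤ dens E w) (hm : 0 ≤ m0) (hW : 0 ≤ W)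
    (hc : m0 + W + 1 / 12 * unO w κ < 11 / 20000)
    (hmu : ∀ M : ℝ, 0 ≤ M → (∀ j k : Fin 6, ∑ i, b2r (D6 i j k) * xsO w κ i ≤ M) →
        muO E w κ ≤ m0 + 3 * M * W)
    (hbe : beO E w κ ≤ 6 * dens E w * W)
    (hx : ∀ i, xsO w κ i ≤ 2 * dens E w) :
    W + 1 / 12 * unO w κ ≤ 11 / 20000 ∧ muO E w κ + 1 / 12 * unO w κ ≤ 588 / 1000000 ∧
    beO E w κ ≤ 17205 / 10000 * W ∧
    (∀ i, xsO w κ i ≤ (1 - unO w κ) / 6 + (732 / 35 * W + 3 / 2 * unO w κ + 2 * θ)) ∧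
    ∑ i, (xsO w κ i - (1 - unO w κ) / 6) ^ 2 ≤ 140 / 100000 ∧ L - 2 / 7 ≤ 101 / 100000 := by
  have hγ0 : 0 ≤ unO w κ := KS.unO_nn ho.wt.nn κ
  have hL1 := KS.L_le_third
  have hL2 := L_ge
  have hdL : dens E w ≤ L := dens_le_L ho.free ho.wt
  obtain ⟨r1, r2, r3, r4, r5⟩ := KS.sizes_part1 (m0 := m0) (W := W) (lam := 1 / 12)
    (c := 11 / 20000) (K := 183 / 17.5) ho κ hθ0 (by linarith) hθ hm hW (by norm_num) hc.le hbe hx
    le_rfl (by norm_num) (by norm_num; linarith)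
  have hW1 : W ≤ 11 / 20000 := by linarith
  have hb : beO E w κ ≤ 12 / 7 * W + (L - 2 / 7) / 10 := by
    have e1 : 6 * dens E w * W ≤ 6 * L * W := by nlinarith
    have e2 : 6 * L * W = 12 / 7 * W + 6 * (L - 2 / 7) * W := by ring
    have e3 : 6 * (L - 2 / 7) * W ≤ (L - 2 / 7) / 10 := by nlinarith
    linarith
  have hH : 61 / 10 * (12 / 7 * W) + 3 / 4 * unO w κ + θ ≤ 1 / 150 := by linarith
  have hmax : ∀ i, xsO w κ i ≤ (1 - unO w κ) / 6 +
      (732 / 35 * W + 3 / 2 * unO w κ + 2 * θ) := fun i => by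
    have := KS.max_size ho κ hθ0 hθ hx (by positivity) hb hH i
    linarith
  have hb2 : beO E w κ ≤ 1723 / 1000 * W := by
    have e1 : 6 * dens E w * W ≤ 6 * (2 / 7 + 7 / 5000) * W := by
      refine mul_le_mul_of_nonneg_right ?_ hW
      linarith
    linarith
  have htau : 732 / 35 * W + 3 / 2 * unO w κ + 2 * θ ≤ 1151 / 100000 := by linarith
  have hmn : 0 ≤ muO E w κ := muO_nonneg E ho.wt.nn κ
  have hg1 : unO w κ ≤ 66 / 10000 := by linarith
  have hg2 : unO w κ ^ 2 ≤ 66 / 10000 * unO w κ := by nlinarith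
  have hs := KS.sizes_of_max (τ := 1151 / 100000) ho κ hθ0 hθ (by linarith) (by norm_num)
    (fun i => by linarith [hmax i])
  set T := ∑ i, (xsO w κ i - (1 - unO w κ) / 6) ^ 2 with hTd
  have hT0 : 0 ≤ T := Finset.sum_nonneg fun i _ => sq_nonneg _
  have hs2 : 681 / 1000 * T + muO E w κ + 47 / 50 * (L - 2 / 7) ≤
      beO E w κ + unO w κ ^ 2 + θ := by
    have : 681 / 1000 * T ≤ (4 / 5 - 31 / 3 * (1151 / 100000)) * T :=
      mul_le_mul_of_nonneg_right (by norm_num) hT0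
    linarith
  have hL3 : L - 2 / 7 ≤ 101 / 100000 := by linarith
  have hb3 : beO E w κ ≤ 17205 / 10000 * W := by
    have e1 : 6 * dens E w * W ≤ 6 * (2 / 7 + 101 / 100000) * W := by
      refine mul_le_mul_of_nonneg_right ?_ hW
      linarith
    linarith
  have hM : muO E w κ ≤ m0 + 3 * (2 * ((1 - unO w κ) / 6 + 1151 / 100000)) * W := by
    have hun : unO w κ ≤ 1 := by linarith
    refine hmu _ (by linarith) fun j k => ?_
    refine sumD_le κ (by linarith) (fun i => ?_) j k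
    linarith [hmax i]
  have hM2 : muO E w κ ≤ m0 + W + 6906 / 100000 * W := by
    have e1 : 3 * (2 * ((1 - unO w κ) / 6 + 1151 / 100000)) * W =
        W + 6906 / 100000 * W - unO w κ * W := by ring
    have e2 : 0 ≤ unO w κ * W := mul_nonneg hγ0 hW
    linarith
  exact ⟨by linarith, by linarith, hb3, hmax, by linarith, hL3⟩

/-- The extremal partial partition, with constants. -/
theorem stage1' (ho : Opt E w) (κ0 : V → Option (Fin 6)) {W θ ω : ℝ} (hθ0 : 0 ≤ θ)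
    (hθ1 : θ ≤ 1 / 100000000) (hθ : L - θ ≤ dens E w) (hω : ∀ v, w v ≤ ω)
    (hω1 : ω ≤ 1 / 100000)
    (hW : 0 ≤ W) (hc : W + 1 / 12 * unO w κ0 ≤ 11 / 20000)
    (hΦ : muO E w κ0 + 1 / 12 * unO w κ0 ≤ 588 / 1000000)
    (hβ : beO E w κ0 ≤ 17205 / 10000 * W)
    (hx : ∀ i, xsO w κ0 i ≤ (1 - unO w κ0) / 6 + (732 / 35 * W + 3 / 2 * unO w κ0 + 2 * θ))
    (ht : ∑ i, (xsO w κ0 i - (1 - unO w κ0) / 6) ^ 2 ≤ 140 / 100000)
    (hL : L - 2 / 7 ≤ 101 / 100000) :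
    ∃ κ : V → Option (Fin 6), muO E w κ + 1 / 12 * unO w κ ≤ 588 / 1000000 ∧
      (∀ v, κ v ≠ none → mo E w κ (κ v) v ≤ 1 / 36) ∧
      (∀ v, κ v = none → ∀ i : Fin 6, 1 / 36 ≤ mo E w κ (some i) v) ∧
      beO E w κ ≤ 110 / 100000 ∧ (∀ i, tO w κ i ≤ 166 / 10000) ∧
      ∑ i, tO w κ i ^ 2 ≤ 184 / 100000 ∧
      628 / 1000 * ∑ i, tO w κ i ^ 2 + muO E w κ + 47 / 50 * (L - 2 / 7) ≤
        beO E w κ + unO w κ ^ 2 + θ ∧
      (∀ v, κ v ≠ none → bo E w κ (κ v) v ≤ 555 / 10000) := by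
  have hw := ho.wt.nn
  have hγ0 : 0 ≤ unO w κ0 := unO_nonneg hw κ0
  have hL2 := L_ge
  have hdL : dens E w ≤ L := dens_le_L ho.free ho.wt
  have hg : unO w κ0 ≤ 66 / 10000 := by linarith
  have hX : ∀ b, xsO w κ0 b ≤ 18 / 100 := fun b => by linarith [hx b]
  set g := unO w κ0 with hgd
  -- switched vertices
  have hR : ∀ κ : V → Option (Fin 6), dst w κ κ0 ≤ 148 / 10000 → ∀ i j : Fin 6, i ≠ j →
      190 / 1000 ≤ ∑ b, ∑ c, A2 i j b c * (UU w κ κ0 b * UU w κ κ0 c) := by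
    intro κ hd i j hij
    have hX' : ∀ b, xsO w κ0 b ≤ (1 - g) / 6 + 1151 / 100000 := fun b => by linarith [hx b]
    have h1 := UU_ge ho.wt κ κ0 hij hX'
    refine le_trans ?_ h1
    rw [← hgd]
    have e1 : (1 - g) / 3 * (2 * (1 - g) - 4 * ((1 - g) / 6 + 1151 / 100000)) -
        2 / 9 * (1 - g) ^ 2 = 2 / 9 - 4 / 9 * g + 2 / 9 * g ^ 2 - 4604 / 300000 * (1 - g) := by
      ring
    rw [e1]
    have h2 : 4 * ((1 - g) / 6 + 1151 / 100000) * dst w κ κ0 ≤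
        4 * (1 / 6 + 1151 / 100000) * (148 / 10000) := by
      have hd0 := dst_nonneg hw κ κ0
      refine mul_le_mul (by linarith) hd hd0 (by norm_num)
    have h3 : 0 ≤ g ^ 2 := sq_nonneg g
    linarith
  obtain ⟨κ, k1, -, k3, k4, k5, k6⟩ := extremal2 (lam := 1 / 12) (Φ0 := 588 / 1000000)
    (β0 := 17205 / 10000 * (11 / 20000 - g / 12)) (ρ := 148 / 10000) (ω := ω) (r := 190 / 1000)
    ho.free hw κ0 (by norm_num) (by norm_num) hΦ (by linarith) hR hω (by norm_num) (by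
      rw [← hgd]
      have e2 : (588 / 1000000 + 17205 / 10000 * (11 / 20000 - g / 12)) / (3 * (190 / 1000)) =
        (588 / 1000000 + 17205 / 10000 * (11 / 20000 - g / 12)) * (1000 / 570) := by ring
      rw [e2]
      linarith)
  have hnn : ∀ v, w v ≠ 0 := fun v => (ho.pos v).ne'
  have k3' : ∀ v, κ v ≠ none → mo E w κ (κ v) v ≤ 1 / 36 := fun v hv => by
    rcases k3 v hv with h | h
    · linarith
    · exact absurd h (hnn v)
  have k4' : ∀ v, κ v = none → ∀ i : Fin 6, 1 / 36 ≤ mo E w κ (some i) v := fun v hv i => by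
    rcases k4 v hv i with h | h
    · linarith
    · exact absurd h (hnn v)
  have hmu0 := muO_nonneg E hw κ
  have hbe0 := beO_nonneg E hw κ
  have hu0 := unO_nonneg hw κ
  set S := ∑ v, w v * swi κ κ0 v with hS
  have hS0 : 0 ≤ S := Finset.sum_nonneg fun v _ => mul_nonneg (hw v) (swi_nn κ κ0 v)
  -- sizes
  have ht1 : ∀ i, tO w κ i ≤ 166 / 10000 := fun i => by
    have h1 := xs_move hw κ κ0 i
    have h2 := hx i
    unfold tO
    rw [← hS, ← hgd] at h1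
    linarith
  have hu1 : unO w κ ≤ 7056 / 1000000 := by linarith
  have hsz := KS.sizes_of_max (τ := 166 / 10000) ho κ hθ0 hθ (by linarith) (by norm_num)
    (fun i => by
      have := ht1 i
      unfold tO at this
      linarith)
  have hT : ∑ i, (xsO w κ i - (1 - unO w κ) / 6) ^ 2 = ∑ i, tO w κ i ^ 2 := rfl
  rw [hT] at hsz
  set T := ∑ i, tO w κ i ^ 2 with hTd
  have hT0 : 0 ≤ T := Finset.sum_nonneg fun i _ => sq_nonneg _
  have hu2 : unO w κ ^ 2 ≤ 50 / 1000000 := by nlinarith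
  have hsz2 : 628 / 1000 * T + muO E w κ + 47 / 50 * (L - 2 / 7) ≤
      beO E w κ + unO w κ ^ 2 + θ := by
    have : 628 / 1000 * T ≤ (4 / 5 - 31 / 3 * (166 / 10000)) * T :=
      mul_le_mul_of_nonneg_right (by norm_num) hT0
    linarith
  -- bad degrees
  have hB : ∀ v, κ v ≠ none → bo E w κ (κ v) v ≤ 518 / 10000 + 2 * T := by
    intro v hv
    obtain ⟨i, hi⟩ := Option.ne_none_iff_exists'.1 hv
    have h1 := k3' v hv
    rw [hi] at h1 ⊢
    have h2 := bo_le (κ := κ) ho i v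
    rw [← hTd] at h2
    have h3 : 10 / 36 * (1 - unO w κ) ^ 2 = 10 / 36 - 20 / 36 * unO w κ +
        10 / 36 * unO w κ ^ 2 := by ring
    have h4 : 0 ≤ unO w κ ^ 2 := sq_nonneg _
    have h5 : (1 - unO w κ) * tO w κ i ≤ 166 / 10000 := by
      rcases le_total 0 (tO w κ i) with h | h
      · have := mul_nonneg hu0 h
        have := ht1 i
        nlinarith
      · have : (1 - unO w κ) * tO w κ i ≤ 0 :=
          mul_nonpos_of_nonneg_of_nonpos (by linarith) h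
        linarith
    have h6 : 2 / 3 * (1 - unO w κ) * tO w κ i ≤ 2 / 3 * (166 / 10000) := by
      have := mul_le_mul_of_nonneg_left h5 (by norm_num : (0 : ℝ) ≤ 2 / 3)
      linarith
    rw [h3] at h2
    linarith
  have hSg : S + g ≤ 77 / 10000 := by linarith
  have hb1 : beO E w κ ≤ 26 / 10000 := by
    have h1 := be_move1 ho.free hw κ κ0 hB (by linarith)
    rw [← hS, ← hgd] at h1
    have h2 : 3 * (518 / 10000 + 2 * T) * (S + g) ≤
        3 * (518 / 10000 + 2 * T) * (77 / 10000) :=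
      mul_le_mul_of_nonneg_left hSg (by positivity)
    linarith
  have hT1 : T ≤ 43 / 10000 := by linarith
  have hb2 : beO E w κ ≤ 120 / 100000 := by
    have h1 := be_move2 (r := 190 / 1000) (B := 604 / 10000) (M := 1 / 36) ho.free hw κ κ0
      (hR κ k5) (fun v hv => by linarith [hB v hv]) (by norm_num) k3' (by norm_num)
    rw [← hgd] at h1
    linarith
  have hT2 : T ≤ 200 / 100000 := by linarith
  have hb3 : beO E w κ ≤ 111 / 100000 := by
    have h1 := be_move2 (r := 190 / 1000) (B := 558 / 10000) (M := 1 / 36) ho.free hw κ κ0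
      (hR κ k5) (fun v hv => by linarith [hB v hv]) (by norm_num) k3' (by norm_num)
    rw [← hgd] at h1
    linarith
  have hT3 : T ≤ 185 / 100000 := by linarith
  have hb4 : beO E w κ ≤ 110 / 100000 := by
    have h1 := be_move2 (r := 190 / 1000) (B := 555 / 10000) (M := 1 / 36) ho.free hw κ κ0
      (hR κ k5) (fun v hv => by linarith [hB v hv]) (by norm_num) k3' (by norm_num)
    rw [← hgd] at h1
    linarith
  exact ⟨κ, k1, k3', k4', hb4, ht1, by linarith, hsz2, fun v hv => by linarith [hB v hv]⟩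

end

/-- Near-optimal configurations have extremal partial partitions (`lam = 1 / 12`). -/
theorem start12 (hH : HE (1 / 12) (11 / 20000)) (hL : 2 / 7 < L) {θ ω : ℝ} (hθ : 0 < θ)
    (hω : 0 < ω) :
    ∃ (V : Type) (_ : Fintype V) (E : V → V → V → Bool) (w : V → ℝ) (κ : V → Option (Fin 6)),
      Opt E w ∧ L - θ ≤ dens E w ∧ 2 / 7 < dens E w ∧ L - 2 / 7 ≤ 101 / 100000 ∧
      (∀ v, w v ≤ ω) ∧
      muO E w κ + 1 / 12 * unO w κ ≤ 588 / 1000000 ∧
      (∀ v, κ v ≠ none → mo E w κ (κ v) v ≤ 1 / 36) ∧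
      (∀ v, κ v = none → ∀ i : Fin 6, 1 / 36 ≤ mo E w κ (some i) v) ∧
      beO E w κ ≤ 110 / 100000 ∧ (∀ i, tO w κ i ≤ 166 / 10000) ∧
      ∑ i, tO w κ i ^ 2 ≤ 184 / 100000 ∧
      628 / 1000 * ∑ i, tO w κ i ^ 2 + muO E w κ + 47 / 50 * (L - 2 / 7) ≤
        beO E w κ + unO w κ ^ 2 + θ ∧
      (∀ v, κ v ≠ none → bo E w κ (κ v) v ≤ 555 / 10000) := by
  obtain ⟨θ1, hθ1, hH⟩ := hH
  obtain ⟨ω1, g0, ga, gb⟩ : ∃ ω1 : ℝ, 0 < ω1 ∧ ω1 ≤ ω ∧ ω1 ≤ 1 / 100000 :=
    ⟨min ω (1 / 100000), lt_min hω (by norm_num), min_le_left _ _, min_le_right _ _⟩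
  have g3 : 0 < 2 / 7 * ω1 ^ 3 := by positivity
  obtain ⟨θ2, h0, ha, hb, hc, hd, he⟩ : ∃ θ2 : ℝ, 0 < θ2 ∧ θ2 ≤ θ ∧ θ2 ≤ θ1 ∧
      θ2 ≤ 1 / 100000000 ∧ θ2 ≤ L - 2 / 7 ∧ θ2 ≤ 2 / 7 * ω1 ^ 3 := by
    refine ⟨min (min (min θ θ1) (min (1 / 100000000) (L - 2 / 7))) (2 / 7 * ω1 ^ 3),
      ?_, ?_, ?_, ?_, ?_, ?_⟩
    · exact lt_min (lt_min (lt_min hθ hθ1) (lt_min (by norm_num) (by linarith))) g3
    · exact (min_le_left _ _).trans ((min_le_left _ _).trans (min_le_left _ _))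
    · exact (min_le_left _ _).trans ((min_le_left _ _).trans (min_le_right _ _))
    · exact (min_le_left _ _).trans ((min_le_right _ _).trans (min_le_left _ _))
    · exact (min_le_left _ _).trans ((min_le_right _ _).trans (min_le_right _ _))
    · exact min_le_right _ _
  obtain ⟨n, E0, w0, ho0, hd0⟩ := exists_opt h0
  have hd1 : 2 / 7 < dens E0 w0 := by linarith
  obtain ⟨V, iV, E, w, κ0, m0, W, ho, hdd, hm0, hW0, hc0, hmu, hbe, hx⟩ :=
    part1 (lam := 1 / 12) (c := 11 / 20000) ho0 hd1 (hH n E0 w0 ho0 (by linarith) hd1)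
  rw [← hdd] at hbe hx hd1 hd0
  obtain ⟨a1, a2, a3, a4, a5, a6⟩ := stage0' (θ := θ2) ho κ0 h0.le (by linarith) hd0.le hm0 hW0
    hc0 hmu hbe hx
  have hω : ∀ v, w v ≤ ω1 := by
    intro v
    by_contra hcon
    push Not at hcon
    have h1 := w_small ho v
    have h2 : ω1 ^ 3 < w v ^ 3 := pow_lt_pow_left₀ hcon g0.le (by norm_num)
    have h3 := L_ge
    have h4 : (2 / 7 : ℝ) * ω1 ^ 3 < L * w v ^ 3 := by
      have h5 : 0 < w v ^ 3 := pow_pos (ho.pos v) 3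
      nlinarith
    linarith
  obtain ⟨κ, b1, b2, b3, b4, b5, b6, b7, b8⟩ := stage1' (θ := θ2) (ω := ω1) ho κ0 h0.le
    (by linarith) hd0.le hω gb hW0 a1 a2 a3 a4 a5 a6
  exact ⟨V, iV, E, w, κ, ho, by linarith, hd1, a6, fun v => (hω v).trans ga, b1, b2, b3, b4, b5,
    b6, by linarith, b8⟩

end KT
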