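import Pool.Agent.Helper20.KT.Y7
import Pool.Agent.Helper13.KC.E2.Main

set_option autoImplicit false

/-!
The certificate, in the form used by the start of the chain.
-/

namespace KT

open Finset KF

theorem he59 : HE (1 / 10) (59 / 100000) := KC.E2.main

end KT
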